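import Pool.Agent.Helper819.Pi.Base3

set_option autoImplicit false

open MvPolynomial

namespace Pool.Agent.Helper819.PiOne

/-- the last basis vector -/
noncomputable def eL (m : ℕ) : Vec (m + 2) := Pi.single (Fin.last (m + 1)) 1

/-- a tuple with the single simple zero `eL` -/
noncomputable def anc (m d : ℕ) : Tup (m + 2) d := ofPoly fun i =>
  if (i : ℕ) = m + 1 then X ⟨m, by omega⟩ ^ d
  else X i * X (Fin.last (m + 1)) ^ (d - 1) -
    (if (i : ℕ) = 0 then 0 else X ⟨(i : ℕ) - 1, lt_of_le_of_lt (Nat.sub_le _ _) i.2⟩ ^ d)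

end Pool.Agent.Helper819.PiOne
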