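import Pool.Agent.Helper819.Pi.J6

set_option autoImplicit false

namespace Pool.Agent.Helper819.PiOne

/-- finitely many members of a pencil of linear maps with a surjective member are not surjective -/
def FiniteNotSurjStmt : Prop := ∀ (E W : Type) [AddCommGroup E] [Module ℂ E] [AddCommGroup W]
    [Module ℂ W] [FiniteDimensional ℂ W] (A B : E →ₗ[ℂ] W) (_ : Function.Surjective A),
    {z : ℂ | ¬ Function.Surjective (A + z • B)}.Finite

end Pool.Agent.Helper819.PiOne
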