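import Mathlib

set_option autoImplicit false

open MvPolynomial

namespace Pool.Agent.Helper819.PiOne

/-- exponent vectors of the monomials of degree `d` in `n` variables -/
abbrev Expo (n d : ℕ) : Type := {a : Fin n → Fin (d + 1) // ∑ j, (a j : ℕ) = d}

/-- `n`-tuples of forms of degree `d` in `n` variables, given by their coefficients -/
abbrev Tup (n d : ℕ) : Type := Fin n → Expo n d → ℂ

/-- the vectors -/
abbrev Vec (n : ℕ) : Type := Fin n → ℂ

/-- the value of a tuple of forms at a vector -/
def ev {n d : ℕ} (c : Tup n d) (x : Vec n) : Vec n :=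
  fun i => ∑ a : Expo n d, c i a * ∏ j, x j ^ (a.1 j : ℕ)

/-- the forms have no common zero besides `0` -/
def IsMor {n d : ℕ} (c : Tup n d) : Prop := ∀ x : Vec n, ev c x = 0 → x = 0

section basic

variable {n d : ℕ}

theorem ev_add (c c' : Tup n d) (x : Vec n) : ev (c + c') x = ev c x + ev c' x := by
  funext i
  simp [ev, add_mul, Finset.sum_add_distrib]

theorem ev_smul (t : ℂ) (c : Tup n d) (x : Vec n) : ev (t • c) x = t • ev c x := by
  funext i
  simp [ev, Finset.mul_sum, mul_assoc]

theorem ev_zero (x : Vec n) : ev (0 : Tup n d) x = 0 := by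
  funext i
  simp [ev]

theorem ev_sub (c c' : Tup n d) (x : Vec n) : ev (c - c') x = ev c x - ev c' x := by
  funext i
  simp [ev, sub_mul, Finset.sum_sub_distrib]

theorem ev_smul_pt (c : Tup n d) (t : ℂ) (x : Vec n) : ev c (t • x) = t ^ d • ev c x := by
  funext i
  simp only [ev, Pi.smul_apply, smul_eq_mul, Finset.mul_sum]
  refine Finset.sum_congr rfl fun a _ => ?_
  have h : ∏ j, (t * x j) ^ (a.1 j : ℕ) = t ^ (∑ j, (a.1 j : ℕ)) * ∏ j, x j ^ (a.1 j : ℕ) := by
    rw [← Finset.prod_pow_eq_pow_sum, ← Finset.prod_mul_distrib]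
    exact Finset.prod_congr rfl fun j _ => mul_pow _ _ _
  rw [h, a.2]; ring

theorem contDiff_ev : ContDiff ℂ ⊤ (fun p : Tup n d × Vec n => ev p.1 p.2) := by
  rw [contDiff_pi]
  intro i
  simp only [ev]
  fun_prop

theorem continuous_ev : Continuous (fun p : Tup n d × Vec n => ev p.1 p.2) :=
  contDiff_ev.continuous

/-- the exponent vector as a finitely supported function -/
noncomputable def fexp (a : Expo n d) : Fin n →₀ ℕ :=
  Finsupp.equivFunOnFinite.symm (fun j => (a.1 j : ℕ))

/-- the tuple of forms with given polynomials -/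
noncomputable def ofPoly (P : Fin n → MvPolynomial (Fin n) ℂ) : Tup n d :=
  fun i a => coeff (fexp a) (P i)

theorem fexp_inj : Function.Injective (fexp : Expo n d → (Fin n →₀ ℕ)) := by
  intro a b h
  apply Subtype.ext
  funext j
  have := DFunLike.congr_fun h j
  simp [fexp] at this
  exact Fin.ext this

/-- the polynomials of a tuple -/
noncomputable def toPoly (c : Tup n d) (i : Fin n) : MvPolynomial (Fin n) ℂ :=
  ∑ a : Expo n d, monomial (fexp a) (c i a)


theorem eval_toPoly' (c : Tup n d) (i : Fin n) (x : Vec n) : eval x (toPoly c i) = ev c x i := by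
  unfold toPoly ev
  rw [map_sum]
  refine Finset.sum_congr rfl fun a _ => ?_
  rw [eval_monomial, Finsupp.prod_fintype _ _ (fun j => pow_zero _)]
  rfl

theorem eq_toPoly' (P : Fin n → MvPolynomial (Fin n) ℂ) (hP : ∀ i, (P i).IsHomogeneous d)
    (i : Fin n) : P i = toPoly (ofPoly P : Tup n d) i := by
  classical
  unfold toPoly ofPoly
  ext m
  rw [coeff_sum]
  simp only [coeff_monomial]
  by_cases hm : ∃ a : Expo n d, fexp a = m
  · obtain ⟨a, rfl⟩ := hm
    rw [Finset.sum_eq_single a]
    · simp
    · intro b _ hb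
      rw [if_neg]
      intro h
      exact hb (fexp_inj h)
    · intro h
      exact absurd (Finset.mem_univ a) h
  · rw [Finset.sum_eq_zero]
    · by_contra hne
      have hdeg := hP i hne
      apply hm
      have hsum : ∑ j, m j = d := by
        have := hdeg
        rw [Finsupp.weight_apply, Finsupp.sum_fintype _ _ (by simp)] at this
        simpa using this
      refine ⟨⟨fun j => ⟨m j, ?_⟩, ?_⟩, ?_⟩
      · have : m j ≤ ∑ j, m j := Finset.single_le_sum (f := fun j => m j) (fun _ _ => Nat.zero_le _) (Finset.mem_univ j)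
        omega
      · simpa using hsum
      · ext j
        simp [fexp]
    · intro b _
      rw [if_neg]
      intro h
      exact hm ⟨b, h⟩

theorem ev_ofPoly (P : Fin n → MvPolynomial (Fin n) ℂ) (hP : ∀ i, (P i).IsHomogeneous d) (x : Vec n)
    (i : Fin n) : ev (ofPoly P : Tup n d) x i = eval x (P i) := by
  rw [← eval_toPoly', ← eq_toPoly' P hP i]

theorem toPoly_homogeneous (c : Tup n d) (i : Fin n) : (toPoly c i).IsHomogeneous d := by
  unfold toPoly
  apply IsHomogeneous.sum
  intro a _
  apply isHomogeneous_monomial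
  rw [Finsupp.degree_eq_sum]
  simpa [fexp] using a.2

theorem eval_toPoly (c : Tup n d) (i : Fin n) (x : Vec n) : eval x (toPoly c i) = ev c x i :=
  eval_toPoly' c i x

theorem ofPoly_toPoly (c : Tup n d) : (ofPoly (toPoly c) : Tup n d) = c := by
  classical
  funext i a
  unfold ofPoly toPoly
  rw [coeff_sum]
  simp only [coeff_monomial]
  rw [Finset.sum_eq_single a]
  · simp
  · intro b _ hb
    rw [if_neg]
    intro h
    exact hb (fexp_inj h)
  · intro h
    exact absurd (Finset.mem_univ a) h

theorem ev_inj {c c' : Tup n d} (h : ∀ x : Vec n, ev c x = ev c' x) : c = c' := by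
  have : (toPoly c) = (toPoly c') := by
    funext i
    apply MvPolynomial.funext
    intro x
    rw [eval_toPoly, eval_toPoly, h x]
  rw [← ofPoly_toPoly c, ← ofPoly_toPoly c', this]

/-- evaluation at a point as a linear map -/
noncomputable def evL' (n d : ℕ) (x : Vec n) : Tup n d →ₗ[ℂ] Vec n where
  toFun c := ev c x
  map_add' c c' := ev_add c c' x
  map_smul' t c := ev_smul t c x

/-- the coefficients can be recovered linearly from finitely many values -/
theorem exists_reconstruct (n d : ℕ) : ∃ (m : ℕ) (pts : Fin m → Vec n)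
    (R : (Fin m → Vec n) →ₗ[ℂ] Tup n d), ∀ c : Tup n d, R (fun k => ev c (pts k)) = c := by
  classical
  let K : Finset (Vec n) → Submodule ℂ (Tup n d) := fun s => ⨅ x ∈ s, LinearMap.ker (evL' n d x)
  obtain ⟨M, ⟨s, hs⟩, hmin⟩ := IsArtinian.set_has_minimal (Set.range K) ⟨K ∅, ⟨∅, rfl⟩⟩
  have hM : M = ⊥ := by
    rw [eq_bot_iff]
    intro c hc
    rw [Submodule.mem_bot]
    apply ev_inj
    intro x
    rw [ev_zero]
    have h1 : ¬ K (insert x s) < M := hmin _ ⟨_, rfl⟩
    have h2 : K (insert x s) = M := by
      rcases lt_or_eq_of_le (show K (insert x s) ≤ M by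
        rw [← hs]
        simp only [K]
        exact biInf_mono fun y hy => Finset.mem_insert_of_mem hy) with h | h
      · exact absurd h h1
      · exact h
    rw [← h2] at hc
    have h3 : K (insert x s) ≤ LinearMap.ker (evL' n d x) := by
      simp only [K]
      exact biInf_le _ (Finset.mem_insert_self x s)
    exact LinearMap.mem_ker.mp (h3 hc)
  let pts : Fin s.card → Vec n := fun k => (s.equivFin.symm k : Vec n)
  let L : Tup n d →ₗ[ℂ] (Fin s.card → Vec n) := LinearMap.pi fun k => evL' n d (pts k)
  have hL : LinearMap.ker L = ⊥ := by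
    rw [← hM, ← hs]
    ext c
    simp only [K, L, LinearMap.ker_pi, Submodule.mem_iInf]
    constructor
    · intro h x hx
      have := h (s.equivFin ⟨x, hx⟩)
      simpa [pts] using this
    · intro h k
      exact h _ (s.equivFin.symm k).2
  obtain ⟨R, hR⟩ := LinearMap.exists_leftInverse_of_injective L hL
  refine ⟨s.card, pts, R, fun c => ?_⟩
  exact LinearMap.congr_fun hR c

end basic

end Pool.Agent.Helper819.PiOne
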