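import Pool.Agent.Helper819.Pi.Base

set_option autoImplicit false

open MvPolynomial

namespace Pool.Agent.Helper819.PiOne

section base2

variable {n d : ℕ}

/-- the power map -/
noncomputable def pw (n d : ℕ) : Tup n d := ofPoly fun i => X i ^ d

theorem ev_pw (n d : ℕ) (x : Vec n) (i : Fin n) : ev (pw n d) x i = x i ^ d := by
  rw [pw, ev_ofPoly _ (fun i => isHomogeneous_X_pow i d)]
  simp

theorem isMor_pw (n d : ℕ) (hd : 0 < d) : IsMor (pw n d) := by
  intro x hx
  funext i
  have h := congrFun hx i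
  rw [ev_pw] at h
  exact pow_eq_zero_iff hd.ne' |>.mp h

/-- the tuple `v * X_i ^ d` -/
noncomputable def top (i : Fin n) (v : Vec n) : Tup n d := ofPoly fun k => C (v k) * X i ^ d

theorem ev_top (i : Fin n) (v : Vec n) (x : Vec n) : ev (top i v : Tup n d) x = x i ^ d • v := by
  funext k
  rw [top, ev_ofPoly]
  · simp [mul_comm]
  · intro k
    have := (isHomogeneous_C (Fin n) (v k)).mul (isHomogeneous_X_pow (R := ℂ) i d)
    rwa [zero_add] at this

/-- `x` is (up to multiples) the only zero of `h`, and the map `(y, ζ) ↦ Dh(x) y + ζ v(x)` is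
injective modulo `x` -/
def InT (h v : Tup n d) (x : Vec n) : Prop :=
  x ≠ 0 ∧ ev h x = 0 ∧ (∀ y : Vec n, ev h y = 0 → ∃ a : ℂ, y = a • x) ∧
  ∀ (y : Vec n) (ζ : ℂ), fderiv ℂ (ev h) x y + ζ • ev v x = 0 → ζ = 0 ∧ ∃ a : ℂ, y = a • x

theorem differentiable_ev (c : Tup n d) : Differentiable ℂ (ev c) := by
  have h : ev c = (fun p : Tup n d × Vec n => ev p.1 p.2) ∘ (fun x => (c, x)) := rfl
  rw [h]
  exact (contDiff_ev.differentiable (by simp)).comp (by fun_prop)

end base2

end Pool.Agent.Helper819.PiOne
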