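import Pool.Agent.Helper819.Pi.Base2

set_option autoImplicit false

open MvPolynomial

namespace Pool.Agent.Helper819.PiOne

section base3

variable {n d : ℕ}

/-- precomposition with a linear map -/
noncomputable def pre (B : Vec n →L[ℂ] Vec n) (c : Tup n d) : Tup n d :=
  ofPoly (fun i => bind₁ (fun j => ∑ k, C (B (Pi.single k 1) j) * X k) (toPoly c i))

/-- postcomposition with a linear map -/
noncomputable def post (A : Vec n →L[ℂ] Vec n) (c : Tup n d) : Tup n d :=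
  fun i a => ∑ k, A (Pi.single k 1) i * c k a

theorem lin_sum_7324 (B : Vec n →L[ℂ] Vec n) (x : Vec n) (j : Fin n) :
    B x j = ∑ k, B (Pi.single k 1) j * x k := by
  have h1 : B x = ∑ k, x k • B (Pi.single k 1) := by
    conv_lhs => rw [pi_eq_sum_univ' x]
    rw [map_sum]
    refine Finset.sum_congr rfl fun k _ => ?_
    rw [map_smul]
  rw [h1, Finset.sum_apply]
  refine Finset.sum_congr rfl fun k _ => ?_
  rw [Pi.smul_apply, smul_eq_mul, mul_comm]

theorem ev_pre (B : Vec n →L[ℂ] Vec n) (c : Tup n d) (x : Vec n) : ev (pre B c) x = ev c (B x) := by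
  funext i
  have hh := toPoly_homogeneous c i
  have he := eval_toPoly c i
  have hlin : ∀ j : Fin n, (∑ k, C (B (Pi.single k 1) j) * X k :
      MvPolynomial (Fin n) ℂ).IsHomogeneous 1 := by
    intro j
    refine IsHomogeneous.sum _ _ _ fun k _ => ?_
    have := (isHomogeneous_C (Fin n) (B (Pi.single k 1) j)).mul (isHomogeneous_X ℂ k)
    simpa using this
  have hP : ∀ i, (bind₁ (fun j => ∑ k, C (B (Pi.single k 1) j) * X k) (toPoly c i) :
      MvPolynomial (Fin n) ℂ).IsHomogeneous d := by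
    intro i
    have := (toPoly_homogeneous c i).aeval (fun j => ∑ k, C (B (Pi.single k 1) j) * X k) hlin
    simpa using this
  have h4 := ev_ofPoly _ hP x i
  have h5 : eval x (bind₁ (fun j => ∑ k, C (B (Pi.single k 1) j) * X k) (toPoly c i))
      = eval (fun j => B x j) (toPoly c i) := by
    have h6 := eval₂Hom_bind₁ (RingHom.id ℂ) x
      (fun j => ∑ k, C (B (Pi.single k 1) j) * X k) (toPoly c i)
    have h7 : ∀ j, eval₂Hom (RingHom.id ℂ) x (∑ k, C (B (Pi.single k 1) j) * X k) = B x j := by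
      intro j
      rw [lin_sum_7324 B x, map_sum]
      refine Finset.sum_congr rfl fun k _ => ?_
      simp [mul_comm]
    simp_rw [h7] at h6
    exact h6
  calc ev (pre B c) x i = eval x (bind₁ (fun j => ∑ k, C (B (Pi.single k 1) j) * X k)
        (toPoly c i)) := h4
    _ = eval (fun j => B x j) (toPoly c i) := h5
    _ = ev c (B x) i := he _

theorem ev_post (A : Vec n →L[ℂ] Vec n) (c : Tup n d) (x : Vec n) :
    ev (post A c) x = A (ev c x) := by
  funext i
  rw [lin_sum_7324 A (ev c x)]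
  simp only [ev, post]
  simp_rw [Finset.sum_mul]
  rw [Finset.sum_comm]
  refine Finset.sum_congr rfl fun k _ => ?_
  rw [Finset.mul_sum]
  refine Finset.sum_congr rfl fun a _ => ?_
  ring

theorem contDiff_pre :
    ContDiff ℂ ⊤ (fun p : (Vec n →L[ℂ] Vec n) × Tup n d => (pre p.1 p.2 : Tup n d)) := by
  obtain ⟨m, pts, R, hR⟩ := exists_reconstruct n d
  have h4 : (fun p : (Vec n →L[ℂ] Vec n) × Tup n d => (pre p.1 p.2 : Tup n d))
      = fun p => (LinearMap.toContinuousLinearMap R) (fun k => ev p.2 (p.1 (pts k))) := by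
    funext p
    have h5 := hR (pre p.1 p.2)
    simp_rw [ev_pre] at h5
    exact h5.symm
  rw [h4]
  refine (LinearMap.toContinuousLinearMap R).contDiff.comp ?_
  rw [contDiff_pi]
  intro k
  have h6 : ContDiff ℂ ⊤ (fun p : (Vec n →L[ℂ] Vec n) × Tup n d => (p.2, p.1 (pts k))) :=
    contDiff_snd.prodMk (contDiff_fst.clm_apply contDiff_const)
  exact contDiff_ev.comp h6

theorem contDiff_post :
    ContDiff ℂ ⊤ (fun p : (Vec n →L[ℂ] Vec n) × Tup n d => (post p.1 p.2 : Tup n d)) := by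
  have h1 : ∀ (k i : Fin n), ContDiff ℂ ⊤
      (fun p : (Vec n →L[ℂ] Vec n) × Tup n d => p.1 (Pi.single k 1) i) := by
    intro k i
    have h2 : ContDiff ℂ ⊤ (fun p : (Vec n →L[ℂ] Vec n) × Tup n d => p.1 (Pi.single k 1)) :=
      contDiff_fst.clm_apply contDiff_const
    exact (contDiff_pi.mp h2) i
  have h3 : ∀ (k : Fin n) (a : Expo n d), ContDiff ℂ ⊤
      (fun p : (Vec n →L[ℂ] Vec n) × Tup n d => p.2 k a) := by
    intro k a
    have h4 : ContDiff ℂ ⊤ (fun p : (Vec n →L[ℂ] Vec n) × Tup n d => p.2 k) :=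
      (contDiff_pi.mp contDiff_snd) k
    exact (contDiff_pi.mp h4) a
  rw [contDiff_pi]
  intro i
  rw [contDiff_pi]
  intro a
  exact ContDiff.sum fun k _ => (h1 k i).mul (h3 k a)


theorem pre_add (B : Vec n →L[ℂ] Vec n) (c c' : Tup n d) : pre B (c + c') = pre B c + pre B c' :=
  ev_inj fun x => by rw [ev_pre, ev_add, ev_add, ev_pre, ev_pre]

theorem pre_smul (B : Vec n →L[ℂ] Vec n) (t : ℂ) (c : Tup n d) : pre B (t • c) = t • pre B c :=
  ev_inj fun x => by rw [ev_pre, ev_smul, ev_smul, ev_pre]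

theorem post_add (A : Vec n →L[ℂ] Vec n) (c c' : Tup n d) : post A (c + c') = post A c + post A c' :=
  ev_inj fun x => by rw [ev_post, ev_add, ev_add, ev_post, ev_post, map_add]

theorem post_smul (A : Vec n →L[ℂ] Vec n) (t : ℂ) (c : Tup n d) : post A (t • c) = t • post A c :=
  ev_inj fun x => by rw [ev_post, ev_smul, ev_smul, ev_post, map_smul]

/-- conjugation of a tuple of forms by an invertible linear map -/
noncomputable def rho (n d : ℕ) : (Vec n →L[ℂ] Vec n)ˣ →* (Tup n d →L[ℂ] Tup n d) where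
  toFun g := LinearMap.toContinuousLinearMap
    { toFun := fun c => post (g : Vec n →L[ℂ] Vec n) (pre ((g⁻¹ : (Vec n →L[ℂ] Vec n)ˣ) : Vec n →L[ℂ] Vec n) c)
      map_add' := fun c c' => by rw [pre_add, post_add]
      map_smul' := fun t c => by rw [pre_smul, post_smul]; rfl }
  map_one' := by
    ext1 c
    refine ev_inj fun x => ?_
    simp only [LinearMap.coe_toContinuousLinearMap', LinearMap.coe_mk, AddHom.coe_mk, ev_post, ev_pre]
    simp
  map_mul' g h := by
    ext1 c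
    refine ev_inj fun x => ?_
    simp only [LinearMap.coe_toContinuousLinearMap', LinearMap.coe_mk, AddHom.coe_mk, ev_post, ev_pre,
      ContinuousLinearMap.mul_apply, mul_inv_rev, Units.val_mul]

theorem rho_apply (g : (Vec n →L[ℂ] Vec n)ˣ) (c : Tup n d) :
    rho n d g c = post (g : Vec n →L[ℂ] Vec n)
      (pre ((g⁻¹ : (Vec n →L[ℂ] Vec n)ˣ) : Vec n →L[ℂ] Vec n) c) := rfl

theorem unit_inv_apply (g : (Vec n →L[ℂ] Vec n)ˣ) (x : Vec n) :
    ((g⁻¹ : (Vec n →L[ℂ] Vec n)ˣ) : Vec n →L[ℂ] Vec n) ((g : Vec n →L[ℂ] Vec n) x) = x := by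
  have h : (((g⁻¹ * g : (Vec n →L[ℂ] Vec n)ˣ) : Vec n →L[ℂ] Vec n)) x = x := by simp
  rwa [Units.val_mul, ContinuousLinearMap.mul_apply] at h

theorem unit_apply_inv (g : (Vec n →L[ℂ] Vec n)ˣ) (x : Vec n) :
    (g : Vec n →L[ℂ] Vec n) (((g⁻¹ : (Vec n →L[ℂ] Vec n)ˣ) : Vec n →L[ℂ] Vec n) x) = x := by
  have h : (((g * g⁻¹ : (Vec n →L[ℂ] Vec n)ˣ) : Vec n →L[ℂ] Vec n)) x = x := by simp
  rwa [Units.val_mul, ContinuousLinearMap.mul_apply] at h

theorem ev_rho (g : (Vec n →L[ℂ] Vec n)ˣ) (c : Tup n d) (x : Vec n) :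
    ev (rho n d g c) ((g : Vec n →L[ℂ] Vec n) x) = (g : Vec n →L[ℂ] Vec n) (ev c x) := by
  rw [rho_apply, ev_post, ev_pre, unit_inv_apply]

theorem rho_eq_iff (g : (Vec n →L[ℂ] Vec n)ˣ) (c c' : Tup n d) :
    rho n d g c = c' ↔ ∀ x, ev c' ((g : Vec n →L[ℂ] Vec n) x) = (g : Vec n →L[ℂ] Vec n) (ev c x) := by
  constructor
  · rintro rfl x
    exact ev_rho g c x
  · intro h
    refine ev_inj fun x => ?_
    have h1 := ev_rho g c (((g⁻¹ : (Vec n →L[ℂ] Vec n)ˣ) : Vec n →L[ℂ] Vec n) x)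
    have h2 := h (((g⁻¹ : (Vec n →L[ℂ] Vec n)ˣ) : Vec n →L[ℂ] Vec n) x)
    rw [unit_apply_inv] at h1 h2
    rw [h1, h2]

theorem isMor_rho (g : (Vec n →L[ℂ] Vec n)ˣ) (c : Tup n d) (hc : IsMor c) : IsMor (rho n d g c) := by
  intro x hx
  have h1 := ev_rho g c (((g⁻¹ : (Vec n →L[ℂ] Vec n)ˣ) : Vec n →L[ℂ] Vec n) x)
  rw [unit_apply_inv, hx] at h1
  have h2 : ev c (((g⁻¹ : (Vec n →L[ℂ] Vec n)ˣ) : Vec n →L[ℂ] Vec n) x) = 0 := by
    rw [← unit_inv_apply g (ev c _), ← h1, map_zero]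
  have h3 := hc _ h2
  rw [← unit_apply_inv g x, h3, map_zero]

end base3

end Pool.Agent.Helper819.PiOne
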