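import Pool.Agent.Helper819.Pi.Base3

set_option autoImplicit false

open MvPolynomial

namespace Pool.Agent.Helper819.PiOne

section base4

variable {n d : ℕ}

theorem B3_unit (hn : 0 < n) (x : Vec n) : ∃ u : Vec n, u ∈ Metric.sphere (0 : Vec n) 1 ∧
    x = ((‖x‖ : ℝ) : ℂ) • u := by
  have : Nonempty (Fin n) := ⟨⟨0, hn⟩⟩
  by_cases hx : x = 0
  · refine ⟨fun _ => 1, ?_, ?_⟩
    · rw [mem_sphere_zero_iff_norm, pi_norm_const, norm_one]
    · rw [hx, norm_zero, Complex.ofReal_zero, zero_smul]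
  · have h0 : ‖x‖ ≠ 0 := norm_ne_zero_iff.2 hx
    have h1 : ((‖x‖ : ℝ) : ℂ) ≠ 0 := Complex.ofReal_ne_zero.2 h0
    refine ⟨((‖x‖ : ℝ) : ℂ)⁻¹ • x, ?_, ?_⟩
    · rw [mem_sphere_zero_iff_norm, norm_smul, norm_inv, Complex.norm_real, norm_norm,
        inv_mul_cancel₀ h0]
    · rw [smul_smul, mul_inv_cancel₀ h1, one_smul]

theorem B3_iff (c : Tup n d) : IsMor c ↔ ∀ x ∈ Metric.sphere (0 : Vec n) 1, ev c x ≠ 0 := by
  constructor
  · intro h x hx h0
    rw [mem_sphere_zero_iff_norm, h x h0, norm_zero] at hx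
    exact zero_ne_one hx
  · intro h x h0
    by_contra hx
    have hn : 0 < n := by
      rcases Nat.eq_zero_or_pos n with hn | hn
      · subst hn
        exact absurd (Subsingleton.elim x 0) hx
      · exact hn
    obtain ⟨u, hu, hxu⟩ := B3_unit hn x
    apply h u hu
    rw [hxu, ev_smul_pt] at h0
    have h1 : ((‖x‖ : ℝ) : ℂ) ^ d ≠ 0 := pow_ne_zero _ (Complex.ofReal_ne_zero.2 (norm_ne_zero_iff.2 hx))
    exact (smul_eq_zero.1 h0).resolve_left h1

theorem isOpen_isMor : IsOpen {c : Tup n d | IsMor c} := by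
  rw [isOpen_iff_eventually]
  intro c hc
  have hc' := (B3_iff c).1 hc
  have h := (isCompact_sphere (0 : Vec n) 1).eventually_forall_of_forall_eventually (x₀ := c)
    (P := fun c x => ev c x ≠ 0) (by
      intro y hy
      have := continuous_ev.continuousAt (x := (c, y))
      exact this.eventually_ne (hc' y hy))
  filter_upwards [h] with c' h'
  exact (B3_iff c').2 h'

/-- The hypothesis `hnd` excludes the case `n = 0`, `d = 0`, where the statement is false. -/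
theorem bounds (c : Tup n d) (hc : IsMor c) (hnd : 0 < n ∨ 0 < d) :
    ∃ δ : ℝ, 0 < δ ∧ ∃ a : ℝ, 0 < a ∧ ∃ A : ℝ, 0 < A ∧
    ∀ c' : Tup n d, ‖c' - c‖ < δ → ∀ x : Vec n, a * ‖x‖ ^ d ≤ ‖ev c' x‖ ∧ ‖ev c' x‖ ≤ A * ‖x‖ ^ d := by
  rcases Nat.eq_zero_or_pos n with hn | hn
  · subst hn
    have hd : 0 < d := hnd.resolve_left (lt_irrefl 0)
    refine ⟨1, one_pos, 1, one_pos, 1, one_pos, ?_⟩
    intro c' _ x
    have h1 : x = 0 := Subsingleton.elim _ _
    have h2 : ev c' x = 0 := Subsingleton.elim _ _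
    rw [h2, h1, norm_zero, zero_pow hd.ne']
    simp
  · have hcont : Continuous (fun x : Vec n => ‖ev c x‖) :=
      (continuous_ev.comp (by fun_prop : Continuous (fun x : Vec n => (c, x)))).norm
    obtain ⟨u0, hu0, -⟩ := B3_unit hn (0 : Vec n)
    have hne : (Metric.sphere (0 : Vec n) 1).Nonempty := ⟨u0, hu0⟩
    obtain ⟨x0, hx0, hmin⟩ := (isCompact_sphere (0 : Vec n) 1).exists_isMinOn hne hcont.continuousOn
    obtain ⟨x1, hx1, hmax⟩ := (isCompact_sphere (0 : Vec n) 1).exists_isMaxOn hne hcont.continuousOn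
    have hm : 0 < ‖ev c x0‖ := norm_pos_iff.2 ((B3_iff c).1 hc x0 hx0)
    have h := (isCompact_sphere (0 : Vec n) 1).eventually_forall_of_forall_eventually (x₀ := c)
      (P := fun c' x => ‖ev c x0‖ / 2 < ‖ev c' x‖ ∧ ‖ev c' x‖ < ‖ev c x1‖ + 1) (by
        intro y hy
        have h1 : ContinuousAt (fun p : Tup n d × Vec n => ‖ev p.1 p.2‖) (c, y) :=
          continuous_ev.norm.continuousAt
        have h2 : ‖ev c x0‖ ≤ ‖ev c y‖ := hmin hy
        have h3 : ‖ev c y‖ ≤ ‖ev c x1‖ := hmax hy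
        have h4 : ‖ev c x0‖ / 2 < ‖ev c y‖ := by linarith
        have h5 : ‖ev c y‖ < ‖ev c x1‖ + 1 := by linarith
        exact (h1.eventually (lt_mem_nhds h4)).and (h1.eventually (gt_mem_nhds h5)))
    obtain ⟨δ, hδ, hδ2⟩ := Metric.eventually_nhds_iff.1 h
    refine ⟨δ, hδ, ‖ev c x0‖ / 2, by positivity, ‖ev c x1‖ + 1, by positivity, ?_⟩
    intro c' hc' x
    obtain ⟨u, hu, hxu⟩ := B3_unit hn x
    obtain ⟨h1, h2⟩ := hδ2 (by rw [dist_eq_norm]; exact hc') u hu
    have h3 : ‖ev c' x‖ = ‖x‖ ^ d * ‖ev c' u‖ := by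
      conv_lhs => rw [hxu]
      rw [ev_smul_pt, norm_smul, norm_pow, Complex.norm_real, norm_norm]
    have h4 : 0 ≤ ‖x‖ ^ d := by positivity
    rw [h3]
    constructor
    · rw [mul_comm]
      exact mul_le_mul_of_nonneg_left h1.le h4
    · rw [mul_comm]
      exact mul_le_mul_of_nonneg_right h2.le h4


end base4

end Pool.Agent.Helper819.PiOne
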