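import Pool.Agent.Helper819.Pi.J2

set_option autoImplicit false

open Topology

namespace Pool.Agent.Helper819.PiOne



/-- the two boundary paths of a square are homotopic -/
theorem pe_square {M : Type} [TopologicalSpace M] (F : ℝ × ℝ → M) (hF : Continuous F)
    {a b c d : M} (p : Path a b) (r : Path b d) (u : Path a c) (v : Path c d)
    (hp : ∀ s : unitInterval, p s = F ((s : ℝ), 0)) (hr : ∀ t : unitInterval, r t = F (1, (t : ℝ)))
    (hu : ∀ t : unitInterval, u t = F (0, (t : ℝ))) (hv : ∀ s : unitInterval, v s = F ((s : ℝ), 1)) :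
    (p.trans r).Homotopic (u.trans v) := by
  have ha : F (0, 0) = a := by
    have := hp 0
    rw [p.source] at this
    simpa using this.symm
  have hb : F (1, 0) = b := by
    have := hp 1
    rw [p.target] at this
    simpa using this.symm
  have hc : F (0, 1) = c := by
    have := hu 1
    rw [u.target] at this
    simpa using this.symm
  have hd : F (1, 1) = d := by
    have := hr 1
    rw [r.target] at this
    simpa using this.symm
  subst ha hb hc hd
  let pa : Path ((0 : ℝ), (0 : ℝ)) ((1 : ℝ), (0 : ℝ)) :=
    { toFun := fun s => ((s : ℝ), 0), continuous_toFun := by fun_prop, source' := by simp,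
      target' := by simp }
  let pb : Path ((1 : ℝ), (0 : ℝ)) ((1 : ℝ), (1 : ℝ)) :=
    { toFun := fun s => (1, (s : ℝ)), continuous_toFun := by fun_prop, source' := by simp,
      target' := by simp }
  let pc : Path ((0 : ℝ), (0 : ℝ)) ((0 : ℝ), (1 : ℝ)) :=
    { toFun := fun s => (0, (s : ℝ)), continuous_toFun := by fun_prop, source' := by simp,
      target' := by simp }
  let pd : Path ((0 : ℝ), (1 : ℝ)) ((1 : ℝ), (1 : ℝ)) :=
    { toFun := fun s => ((s : ℝ), 1), continuous_toFun := by fun_prop, source' := by simp,
      target' := by simp }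
  have e1 : p = pa.map hF := by ext s; exact hp s
  have e2 : r = pb.map hF := by ext s; exact hr s
  have e3 : u = pc.map hF := by ext s; exact hu s
  have e4 : v = pd.map hF := by ext s; exact hv s
  rw [e1, e2, e3, e4, ← Path.map_trans, ← Path.map_trans]
  have h : (pa.trans pb).Homotopic (pc.trans pd) := SimplyConnectedSpace.paths_homotopic _ _
  exact h.map ⟨F, hF⟩

theorem pe_cancel {M : Type} [TopologicalSpace M] {a b : M} (p r : Path a b)
    (h : (p.trans r.symm).Homotopic (Path.refl a)) : p.Homotopic r := by
  have h1 : p.Homotopic (p.trans (Path.refl b)) := ⟨(Path.Homotopy.transRefl p).symm⟩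
  have h2 : (Path.refl b).Homotopic (r.symm.trans r) := ⟨Path.Homotopy.reflSymmTrans r⟩
  have h3 : (p.trans (r.symm.trans r)).Homotopic ((p.trans r.symm).trans r) :=
    ⟨(Path.Homotopy.transAssoc p r.symm r).symm⟩
  have h4 : ((Path.refl a).trans r).Homotopic r := ⟨Path.Homotopy.reflTrans r⟩
  exact h1.trans (((Path.Homotopic.refl p).hcomp h2).trans
    (h3.trans ((h.hcomp (Path.Homotopic.refl r)).trans h4)))

/-- if loops on complex lines through the base point are null-homotopic in `M`, then any two paths
of `U` with the same end points are homotopic in `M` -/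
theorem paths_equal (hT : TransportStmt) {V M : Type} [NormedAddCommGroup V] [NormedSpace ℂ V]
    [TopologicalSpace M] (q : V → M) (U : Set V) (hU : IsOpen U) (hq : ContinuousOn q U) (p0 : V)
    (hp0 : p0 ∈ U) (hjoin : ∀ x ∈ U, ∃ c : Path (0 : ℂ) 1, ∀ t, p0 + c t • (x - p0) ∈ U)
    (hL : ∀ (g : V) (c : Path (0 : ℂ) 0), (∀ t, p0 + c t • g ∈ U) → ∀ p : Path (q p0) (q p0),
      (∀ t, p t = q (p0 + c t • g)) → p.Homotopic (Path.refl (q p0)))
    (hq' : Continuous (fun u : U => q u)) :
    ∀ x y : U, ∀ γ γ' : Path x y, (γ.map hq').Homotopic (γ'.map hq') := by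
  have hjoin' : ∀ x : U, ∃ c : Path (0 : ℂ) 1, ∀ t, p0 + c t • ((x : V) - p0) ∈ U :=
    fun x => hjoin x x.2
  choose c hc using hjoin'
  -- the path along a line
  let ln : ∀ (e : Path (0 : ℂ) 1) (y : V), (∀ t, p0 + e t • (y - p0) ∈ U) →
      Path (q p0) (q y) := fun e y h =>
    { toFun := fun t => q (p0 + e t • (y - p0))
      continuous_toFun := hq.comp_continuous (by fun_prop) h
      source' := by simp
      target' := by simp }
  have hln : ∀ (e : Path (0 : ℂ) 1) (y : V) (h : ∀ t, p0 + e t • (y - p0) ∈ U) (t : unitInterval),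
      ln e y h t = q (p0 + e t • (y - p0)) := fun e y h t => rfl
  refine hT U M (fun u : U => q u) hq' (q p0) (fun x => ln (c x) x (hc x)) ?_
  intro x
  refine ⟨{y : U | ∀ t, p0 + c x t • ((y : V) - p0) ∈ U}, ?_, ?_⟩
  · have h1 : ∀ᶠ y : U in 𝓝 x, ∀ t ∈ (Set.univ : Set unitInterval),
        p0 + c x t • ((y : V) - p0) ∈ U := by
      refine IsCompact.eventually_forall_of_forall_eventually isCompact_univ ?_
      intro t _
      have hcont : Continuous fun w : U × unitInterval => p0 + c x w.2 • ((w.1 : V) - p0) := by
        fun_prop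
      exact hcont.continuousAt.eventually_mem (hU.mem_nhds (hc x t))
    filter_upwards [h1] with y hy t
    exact hy t (Set.mem_univ _)
  · intro y z γ hγ
    have hy : ∀ t, p0 + c x t • ((y : V) - p0) ∈ U := by
      have := hγ 0
      rw [γ.source] at this
      exact this
    have hz : ∀ t, p0 + c x t • ((z : V) - p0) ∈ U := by
      have := hγ 1
      rw [γ.target] at this
      exact this
    -- change of the path for the same end point
    have hsame : ∀ w : U, ∀ hw : (∀ t, p0 + c x t • ((w : V) - p0) ∈ U),
        (ln (c w) w (hc w)).Homotopic (ln (c x) w hw) := by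
      intro w hw
      apply pe_cancel
      refine hL ((w : V) - p0) ((c w).trans (c x).symm) ?_ _ ?_
      · intro t
        rw [Path.trans_apply]
        split_ifs
        · exact hc w _
        · rw [Path.symm_apply]
          exact hw _
      · intro t
        rw [Path.trans_apply, Path.trans_apply]
        split_ifs
        · exact hln (c w) w (hc w) _
        · rw [Path.symm_apply, Path.symm_apply]
          exact hln (c x) w hw _
    have hsq : ((ln (c x) y hy).trans (γ.map hq')).Homotopic
        ((Path.refl (q p0)).trans (ln (c x) z hz)) := by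
      refine pe_square (fun w : ℝ × ℝ => q (p0 + c x (Set.projIcc 0 1 zero_le_one w.1) •
        ((γ (Set.projIcc 0 1 zero_le_one w.2) : V) - p0))) ?_ _ _ _ _ ?_ ?_ ?_ ?_
      · refine hq.comp_continuous ?_ (fun w => hγ _ _)
        have h1 : Continuous (Set.projIcc (0 : ℝ) 1 zero_le_one) := continuous_projIcc
        fun_prop
      · intro s
        simp [hln]
      · intro t
        simp
      · intro t
        simp
      · intro s
        simp [hln]
    have h1 : ((ln (c y) y (hc y)).trans (γ.map hq')).Homotopic
        ((ln (c x) y hy).trans (γ.map hq')) :=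
      (hsame y hy).hcomp (Path.Homotopic.refl _)
    have h2 : ((Path.refl (q p0)).trans (ln (c x) z hz)).Homotopic (ln (c x) z hz) :=
      ⟨Path.Homotopy.reflTrans _⟩
    exact h1.trans (hsq.trans (h2.trans (hsame z hz).symm))

end Pool.Agent.Helper819.PiOne
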