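import Mathlib

set_option autoImplicit false

open Topology

namespace Pool.Agent.Helper819.PiOne

theorem pow_isClosedMap {n : ℕ} (hn : 0 < n) : IsClosedMap (fun z : ℂ => z ^ n) := by
  have hc : Continuous (fun z : ℂ => z ^ n) := continuous_pow n
  have hp : IsProperMap (fun z : ℂ => z ^ n) := by
    rw [isProperMap_iff_tendsto_cocompact]
    refine ⟨hc, ?_⟩
    rw [← Metric.cobounded_eq_cocompact, ← tendsto_norm_atTop_iff_cobounded]
    simp only [norm_pow]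
    exact (Filter.tendsto_pow_atTop hn.ne').comp tendsto_norm_cobounded_atTop
  exact hp.isClosedMap

/-- a function invariant under the `n`-th roots of unity descends through `z ↦ z ^ n` -/
theorem descend_pow {M : Type*} [TopologicalSpace M] {n : ℕ} (hn : 0 < n) (S : Set ℂ) (G : ℂ → M)
    (hG : ContinuousOn G {z | z ^ n ∈ S}) (hinv : ∀ z w : ℂ, z ^ n = w ^ n → G z = G w) :
    ∃ K : ℂ → M, ContinuousOn K S ∧ ∀ z : ℂ, K (z ^ n) = G z := by
  have hs : ∀ w : ℂ, ∃ z : ℂ, z ^ n = w := fun w => IsAlgClosed.exists_pow_nat_eq w hn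
  choose r hr using hs
  have hK : ∀ z : ℂ, G (r (z ^ n)) = G z := fun z => hinv _ _ (hr _)
  refine ⟨fun w => G (r w), ?_, hK⟩
  rw [continuousOn_iff_isClosed]
  intro F hF
  rw [continuousOn_iff_isClosed] at hG
  obtain ⟨F', hF', h⟩ := hG F hF
  refine ⟨(fun z : ℂ => z ^ n) '' F', pow_isClosedMap hn F' hF', ?_⟩
  ext w
  constructor
  · rintro ⟨h1, h2⟩
    have h3 : r w ∈ G ⁻¹' F ∩ {z | z ^ n ∈ S} := ⟨h1, by simpa [hr] using h2⟩
    rw [h] at h3
    exact ⟨⟨r w, h3.1, hr w⟩, h2⟩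
  · rintro ⟨⟨z, hz, rfl⟩, h2⟩
    have h3 : z ∈ F' ∩ {z | z ^ n ∈ S} := ⟨hz, h2⟩
    rw [← h] at h3
    refine ⟨?_, h2⟩
    show G (r (z ^ n)) ∈ F
    rw [hK]
    exact h3.1

end Pool.Agent.Helper819.PiOne
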