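import Pool.Agent.Helper819.Pi.J4
import Pool.Agent.Helper819.Pi.J5

set_option autoImplicit false

open Topology

namespace Pool.Agent.Helper819.PiOne





theorem E5_K {M : Type*} [TopologicalSpace M] (Q : ℂ → ℂ → M) (p : ℕ)
    (hQ : ContinuousOn (fun x : ℂ × ℂ => Q x.1 x.2) {x : ℂ × ℂ | x.1 ^ p ≠ x.2 ^ (p + 1)})
    (hinv : ∀ α β t : ℂ, t ≠ 0 → α ^ p ≠ β ^ (p + 1) → Q α β = Q (t ^ (p + 1) * α) (t ^ p * β)) :
    ∃ K : ℂ → M, ContinuousOn K {1}ᶜ ∧ ∀ b : ℂ, b ^ (p + 1) ≠ 1 → K (b ^ (p + 1)) = Q 1 b := by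
  classical
  obtain ⟨G, hG⟩ : ∃ G : ℂ → M, ∀ b, G b = if b ^ (p + 1) = 1 then Q 0 1 else Q 1 b :=
    ⟨_, fun b => rfl⟩
  obtain ⟨K, hK1, hK2⟩ := descend_pow (n := p + 1) (by omega) {1}ᶜ G (by
    have h1 : ContinuousOn (fun b : ℂ => Q 1 b) {z | z ^ (p + 1) ∈ ({1}ᶜ : Set ℂ)} := by
      have h2 : ContinuousOn (fun b : ℂ => ((1 : ℂ), b)) {z | z ^ (p + 1) ∈ ({1}ᶜ : Set ℂ)} := by
        fun_prop
      exact hQ.comp h2 (fun b hb => by
        show (1 : ℂ) ^ p ≠ b ^ (p + 1)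
        rw [one_pow]
        exact fun h => hb h.symm)
    refine h1.congr ?_
    intro b hb
    have hb' : b ^ (p + 1) ≠ 1 := hb
    rw [hG, if_neg hb']) (by
    intro b b' h
    rw [hG, hG, ← h]
    split_ifs with h1
    · rfl
    · by_cases hb : b = 0
      · have hb' : b' = 0 := by
          rw [hb, zero_pow (by omega)] at h
          exact pow_eq_zero_iff (by omega) |>.1 h.symm
        rw [hb, hb']
      · have hb' : b' ≠ 0 := by
          rintro rfl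
          rw [zero_pow (by omega)] at h
          exact hb (pow_eq_zero_iff (by omega) |>.1 h)
        have ht : b / b' ≠ 0 := div_ne_zero hb hb'
        have ht1 : (b / b') ^ (p + 1) = 1 := by
          rw [div_pow, h, div_self (pow_ne_zero _ hb')]
        have ht2 : (b / b') ^ p * b = b' := by
          have h2 : (b / b') ^ p * b = (b / b') ^ (p + 1) * b' := by
            rw [pow_succ]
            field_simp
          rw [h2, ht1, one_mul]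
        rw [hinv 1 b (b / b') ht (by rw [one_pow]; exact fun h => h1 h.symm), ht1, ht2, one_mul])
  refine ⟨K, hK1, fun b hb => ?_⟩
  rw [hK2, hG, if_neg hb]

theorem E5_K' {M : Type*} [TopologicalSpace M] (Q : ℂ → ℂ → M) (p : ℕ) (hp : 1 ≤ p)
    (hQ : ContinuousOn (fun x : ℂ × ℂ => Q x.1 x.2) {x : ℂ × ℂ | x.1 ^ p ≠ x.2 ^ (p + 1)})
    (hinv : ∀ α β t : ℂ, t ≠ 0 → α ^ p ≠ β ^ (p + 1) → Q α β = Q (t ^ (p + 1) * α) (t ^ p * β)) :
    ∃ K : ℂ → M, ContinuousOn K {(2 : ℂ) ^ (p + 1)}ᶜ ∧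
      ∀ a : ℂ, a ^ p ≠ 2 ^ (p + 1) → K (a ^ p) = Q a 2 := by
  classical
  obtain ⟨G, hG⟩ : ∃ G : ℂ → M, ∀ a, G a = if a ^ p = 2 ^ (p + 1) then Q 0 1 else Q a 2 :=
    ⟨_, fun b => rfl⟩
  obtain ⟨K, hK1, hK2⟩ := descend_pow (n := p) (by omega) {(2 : ℂ) ^ (p + 1)}ᶜ G (by
    have h1 : ContinuousOn (fun a : ℂ => Q a 2) {z | z ^ p ∈ ({(2 : ℂ) ^ (p + 1)}ᶜ : Set ℂ)} := by
      have h2 : ContinuousOn (fun a : ℂ => (a, (2 : ℂ))) {z | z ^ p ∈ ({(2 : ℂ) ^ (p + 1)}ᶜ : Set ℂ)} := by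
        fun_prop
      exact hQ.comp h2 (fun a ha => ha)
    refine h1.congr ?_
    intro b hb
    have hb' : b ^ p ≠ 2 ^ (p + 1) := hb
    rw [hG, if_neg hb']) (by
    intro a a' h
    rw [hG, hG, ← h]
    split_ifs with h1
    · rfl
    · by_cases ha : a = 0
      · have ha' : a' = 0 := by
          rw [ha, zero_pow (by omega)] at h
          exact pow_eq_zero_iff (by omega) |>.1 h.symm
        rw [ha, ha']
      · have ha' : a' ≠ 0 := by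
          rintro rfl
          rw [zero_pow (by omega)] at h
          exact ha (pow_eq_zero_iff (by omega) |>.1 h)
        have ht : a' / a ≠ 0 := div_ne_zero ha' ha
        have ht1 : (a' / a) ^ p = 1 := by
          rw [div_pow, h, div_self (pow_ne_zero _ ha')]
        have ht2 : (a' / a) ^ (p + 1) * a = a' := by
          rw [pow_succ, ht1, one_mul, div_mul_cancel₀ _ ha]
        rw [hinv a 2 (a' / a) ht h1, ht1, ht2, one_mul])
  refine ⟨K, hK1, fun b hb => ?_⟩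
  rw [hK2, hG, if_neg hb]

theorem E5_norm (p : ℕ) : ‖(2 : ℂ) ^ (p + 1)‖ = 2 ^ (p + 1) := by
  rw [norm_pow]
  simp

theorem E5_R {M : Type*} [TopologicalSpace M] (Q : ℂ → ℂ → M) (p : ℕ) (hp : 1 ≤ p)
    (hQ : ContinuousOn (fun x : ℂ × ℂ => Q x.1 x.2) {x : ℂ × ℂ | x.1 ^ p ≠ x.2 ^ (p + 1)})
    (hinv : ∀ α β t : ℂ, t ≠ 0 → α ^ p ≠ β ^ (p + 1) → Q α β = Q (t ^ (p + 1) * α) (t ^ p * β))
    (K : ℂ → M) (hK : ∀ b : ℂ, b ^ (p + 1) ≠ 1 → K (b ^ (p + 1)) = Q 1 b) :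
    NC (fun z : ℂ => K (2 ^ (p + 1) * z)) := by
  obtain ⟨K', hK'c, hK'⟩ := E5_K' Q p hp hQ hinv
  obtain ⟨R, hR⟩ : ∃ R : ℂ, R = 2 ^ (p + 1) := ⟨_, rfl⟩
  have hRn : 1 < ‖R‖ := by
    rw [hR, E5_norm]
    exact one_lt_pow₀ (by norm_num) (by omega)
  have hR0 : R ≠ 0 := by
    intro h
    rw [h, norm_zero] at hRn
    linarith
  rw [← hR] at hK'c hK' ⊢
  have h3 : ∀ w : ℂ, w ≠ 0 → w ≠ R → K' w = K (R / w) := by
    intro w hw0 hwR
    obtain ⟨a, ha⟩ := IsAlgClosed.exists_pow_nat_eq w (n := p) (by omega)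
    have ha0 : a ≠ 0 := by
      rintro rfl
      rw [zero_pow (by omega)] at ha
      exact hw0 ha.symm
    obtain ⟨t, ht⟩ := IsAlgClosed.exists_pow_nat_eq (1 / a) (n := p + 1) (by omega)
    have ht0 : t ≠ 0 := by
      rintro rfl
      rw [zero_pow (by omega)] at ht
      exact (one_div_ne_zero ha0) ht.symm
    have haR : a ^ p ≠ R := by rw [ha]; exact hwR
    have h4 : K' w = Q a 2 := by rw [← ha]; exact hK' a haR
    have h5 : Q a 2 = Q 1 (t ^ p * 2) := by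
      rw [hinv a 2 t ht0 (by rw [← hR]; exact haR), ht, one_div, inv_mul_cancel₀ ha0]
    have h6 : (t ^ p * 2) ^ (p + 1) = R / w := by
      rw [mul_pow, ← pow_mul, mul_comm p (p + 1), pow_mul, ht, ← hR, ← ha, div_pow, one_pow]
      field_simp
    have h7 : R / w ≠ 1 := by
      intro h
      rw [div_eq_one_iff_eq hw0] at h
      exact hwR h.symm
    rw [h4, h5, ← hK (t ^ p * 2) (by rw [h6]; exact h7), h6]
  have h4 : NC K' := by
    refine ⟨K', hK'c.mono ?_, fun z _ => rfl⟩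
    intro z hz hzR
    rw [mem_closedBall_zero_iff] at hz
    rw [Set.mem_singleton_iff] at hzR
    rw [hzR] at hz
    linarith
  refine NC_congr ?_ (NC_conj h4)
  intro z hz
  have hz0 : z ≠ 0 := by
    rintro rfl
    rw [norm_zero] at hz
    exact zero_ne_one hz
  have hcz : (starRingEnd ℂ) z ≠ 0 := by
    rw [Ne, map_eq_zero]
    exact hz0
  have hczR : (starRingEnd ℂ) z ≠ R := by
    intro h
    have h5 := congrArg norm h
    rw [RCLike.norm_conj, hz] at h5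
    linarith
  show K' ((starRingEnd ℂ) z) = K (R * z)
  rw [h3 _ hcz hczR]
  congr 1
  rw [div_eq_iff hcz, mul_assoc, Complex.mul_conj, Complex.normSq_eq_norm_sq, hz]
  simp

theorem E5_r {M : Type*} [TopologicalSpace M] (p : ℕ) (K : ℂ → M) (hKc : ContinuousOn K {1}ᶜ)
    (hK : NC (fun z : ℂ => K (2 ^ (p + 1) * z))) (r : ℝ) (hr : 0 < r) :
    NC (fun z : ℂ => K (1 + (r : ℂ) * z)) := by
  obtain ⟨R, hR⟩ : ∃ R : ℝ, R = 2 ^ (p + 1) := ⟨_, rfl⟩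
  have hR1 : 1 < R := by
    rw [hR]
    exact one_lt_pow₀ (by norm_num) (by omega)
  have hRc : (2 : ℂ) ^ (p + 1) = (R : ℂ) := by
    rw [hR]
    push_cast
    rfl
  rw [hRc] at hK
  have h1 : NC (fun z : ℂ => K (1 + (R : ℂ) * z)) := by
    have h2 := NC_homotopy (fun (s : ℝ) (z : ℂ) => K ((s : ℂ) + (R : ℂ) * z)) (by
      refine hKc.comp (f := fun q : ℝ × ℂ => (q.1 : ℂ) + (R : ℂ) * q.2) (by fun_prop) ?_
      rintro ⟨s, z⟩ ⟨hs, hz⟩
      rw [mem_sphere_zero_iff_norm] at hz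
      simp only [] at hs hz
      intro h
      have h3 : (s : ℂ) + (R : ℂ) * z = 1 := h
      have h4 : (R : ℂ) * z = ((1 - s : ℝ) : ℂ) := by
        push_cast
        linear_combination h3
      have h5 := congrArg norm h4
      rw [norm_mul, hz, mul_one, Complex.norm_real, Complex.norm_real,
        Real.norm_of_nonneg (by linarith), Real.norm_of_nonneg (by linarith [hs.2])] at h5
      linarith [hs.1]) (NC_congr (fun z _ => by simp) hK)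
    exact NC_congr (fun z _ => by simp) h2
  have h2 := NC_homotopy (fun (s : ℝ) (z : ℂ) => K (1 + (((1 - s) * R + s * r : ℝ) : ℂ) * z)) (by
    refine hKc.comp (f := fun q : ℝ × ℂ => 1 + (((1 - q.1) * R + q.1 * r : ℝ) : ℂ) * q.2) (by fun_prop) ?_
    rintro ⟨s, z⟩ ⟨hs, hz⟩
    rw [mem_sphere_zero_iff_norm] at hz
    simp only [] at hs hz
    intro h
    have h3 : 1 + (((1 - s) * R + s * r : ℝ) : ℂ) * z = 1 := h
    have h4 : (((1 - s) * R + s * r : ℝ) : ℂ) * z = 0 := by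
      linear_combination h3
    have h5 := congrArg norm h4
    rw [norm_mul, hz, mul_one, Complex.norm_real, norm_zero, norm_eq_zero] at h5
    have h6 : 0 ≤ (1 - s) * R := mul_nonneg (by linarith [hs.2]) (by linarith)
    have h7 : 0 ≤ s * r := mul_nonneg hs.1 hr.le
    rcases hs.1.eq_or_lt with h8 | h8
    · rw [← h8] at h5
      linarith
    · have : 0 < s * r := mul_pos h8 hr
      linarith) (NC_congr (fun z _ => by simp) h1)
  exact NC_congr (fun z _ => by simp) h2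

theorem E5_eps (n : ℕ) (hn : 1 ≤ n) : ∃ ε : ℝ, 0 < ε ∧ ∀ ζ : ℂ, ‖ζ‖ ≤ ε →
    ‖(1 + ζ) ^ n - 1 - n * ζ‖ ≤ n / 2 * ‖ζ‖ := by
  have h1 : HasDerivAt (fun x : ℂ => x ^ n) (n : ℂ) 1 := by
    have := hasDerivAt_pow n (1 : ℂ)
    rw [one_pow, mul_one] at this
    exact this
  rw [hasDerivAt_iff_isLittleO_nhds_zero] at h1
  have hnr : (0 : ℝ) < n := by exact_mod_cast hn
  have h2 := h1.def (c := (n : ℝ) / 2) (by positivity)
  obtain ⟨ε, hε, h3⟩ := (Metric.nhds_basis_closedBall.eventually_iff).1 h2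
  refine ⟨ε, hε, fun ζ hζ => ?_⟩
  have h4 := h3 (by rwa [mem_closedBall_zero_iff] : ζ ∈ Metric.closedBall (0 : ℂ) ε)
  rw [one_pow, smul_eq_mul, mul_comm ζ] at h4
  exact h4

/-- the weighted projective line argument -/
theorem weighted_null {M : Type*} [TopologicalSpace M] (Q : ℂ → ℂ → M) (p : ℕ) (hp : 1 ≤ p)
    (hQ : ContinuousOn (fun x : ℂ × ℂ => Q x.1 x.2) {x : ℂ × ℂ | x.1 ^ p ≠ x.2 ^ (p + 1)})
    (hinv : ∀ α β t : ℂ, t ≠ 0 → α ^ p ≠ β ^ (p + 1) → Q α β = Q (t ^ (p + 1) * α) (t ^ p * β)) :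
    ∃ ε : ℝ, 0 < ε ∧ (∀ ζ : ℂ, ζ ≠ 0 → ‖ζ‖ ≤ ε → (1 + ζ) ^ (p + 1) ≠ 1) ∧
      NC (fun z : ℂ => Q 1 (1 + (ε : ℂ) * z)) := by
  obtain ⟨K, hKc, hK⟩ := E5_K Q p hQ hinv
  have hR := E5_R Q p hp hQ hinv K hK
  obtain ⟨ε, hε, hε2⟩ := E5_eps (p + 1) (by omega)
  have hne : ∀ ζ : ℂ, ζ ≠ 0 → ‖ζ‖ ≤ ε → (1 + ζ) ^ (p + 1) ≠ 1 := by
    intro ζ h0 hζ h
    have h1 := hε2 ζ hζ
    rw [h, sub_self, zero_sub, norm_neg, norm_mul, Complex.norm_natCast] at h1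
    have h2 : 0 < ‖ζ‖ := norm_pos_iff.2 h0
    have h3 : (0 : ℝ) < ((p + 1 : ℕ) : ℝ) := by positivity
    nlinarith [mul_pos h3 h2]
  refine ⟨ε, hε, hne, ?_⟩
  have hn : (0 : ℝ) < ((p + 1 : ℕ) : ℝ) := by positivity
  have h1 := E5_r p K hKc hR (((p + 1 : ℕ) : ℝ) * ε) (by positivity)
  have h2 := NC_homotopy (fun (s : ℝ) (z : ℂ) => K (1 + (((p + 1 : ℕ) : ℂ) * ((ε : ℂ) * z) +
      (s : ℂ) * ((1 + (ε : ℂ) * z) ^ (p + 1) - 1 - ((p + 1 : ℕ) : ℂ) * ((ε : ℂ) * z))))) (by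
    refine hKc.comp (f := fun q : ℝ × ℂ => 1 + (((p + 1 : ℕ) : ℂ) * ((ε : ℂ) * q.2) +
      (q.1 : ℂ) * ((1 + (ε : ℂ) * q.2) ^ (p + 1) - 1 - ((p + 1 : ℕ) : ℂ) * ((ε : ℂ) * q.2))))
      (by fun_prop) ?_
    rintro ⟨s, z⟩ ⟨hs, hz⟩
    rw [mem_sphere_zero_iff_norm] at hz
    simp only [] at hs hz
    intro h
    have h3 : 1 + (((p + 1 : ℕ) : ℂ) * ((ε : ℂ) * z) +
      (s : ℂ) * ((1 + (ε : ℂ) * z) ^ (p + 1) - 1 - ((p + 1 : ℕ) : ℂ) * ((ε : ℂ) * z))) = 1 := h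
    have hεz : ‖(ε : ℂ) * z‖ = ε := by
      rw [norm_mul, hz, mul_one, Complex.norm_real, Real.norm_of_nonneg hε.le]
    have h4 := hε2 ((ε : ℂ) * z) hεz.le
    rw [hεz] at h4
    have h5 : ((p + 1 : ℕ) : ℂ) * ((ε : ℂ) * z) =
        -((s : ℂ) * ((1 + (ε : ℂ) * z) ^ (p + 1) - 1 - ((p + 1 : ℕ) : ℂ) * ((ε : ℂ) * z))) := by
      linear_combination h3
    have h6 := congrArg norm h5
    rw [norm_mul, hεz, norm_neg, norm_mul, Complex.norm_natCast, Complex.norm_real,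
      Real.norm_of_nonneg hs.1] at h6
    have h7 : s * ‖(1 + (ε : ℂ) * z) ^ (p + 1) - 1 - ((p + 1 : ℕ) : ℂ) * ((ε : ℂ) * z)‖ ≤
        1 * (((p + 1 : ℕ) : ℝ) / 2 * ε) := mul_le_mul hs.2 h4 (norm_nonneg _) zero_le_one
    have h8 := mul_pos hn hε
    linarith) (NC_congr (fun z _ => by
      congr 1
      push_cast
      ring) h1)
  refine NC_congr ?_ h2
  intro z hz
  have hz0 : (ε : ℂ) * z ≠ 0 := by
    apply mul_ne_zero
    · exact_mod_cast hε.ne'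
    · rintro rfl
      rw [norm_zero] at hz
      exact zero_ne_one hz
  have hεz : ‖(ε : ℂ) * z‖ = ε := by
    rw [norm_mul, hz, mul_one, Complex.norm_real, Real.norm_of_nonneg hε.le]
  rw [← hK (1 + (ε : ℂ) * z) (hne _ hz0 hεz.le)]
  congr 1
  push_cast
  ring

end Pool.Agent.Helper819.PiOne
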