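import Pool.Agent.Helper819.Pi.Base3

set_option autoImplicit false

open MvPolynomial

namespace Pool.Agent.Helper819.PiOne



section

variable {n d : ℕ}

variable {m : ℕ}

/-- the two parameter family -/
noncomputable def fam (m d : ℕ) (α β : ℂ) : Tup (m + 2) d := ofPoly fun i =>
  if (i : ℕ) = m + 1 then X i ^ d - C α * X ⟨m, by omega⟩ ^ d
  else X i * X (Fin.last (m + 1)) ^ (d - 1) -
    (if (i : ℕ) = 0 then C β * X ⟨m, by omega⟩ ^ d
      else X ⟨(i : ℕ) - 1, lt_of_le_of_lt (Nat.sub_le _ _) i.2⟩ ^ d)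

/-- the direction of the second parameter -/
noncomputable def vfam (m d : ℕ) : Tup (m + 2) d := top ⟨m, by omega⟩ (Pi.single 0 (-1))

theorem hom_C_mul_X_pow {N : ℕ} (a : ℂ) (i : Fin N) (d : ℕ) :
    (C a * X i ^ d : MvPolynomial (Fin N) ℂ).IsHomogeneous d := by
  have := (isHomogeneous_C (Fin N) a).mul (isHomogeneous_X_pow (R := ℂ) i d)
  rwa [zero_add] at this

theorem ev_fam (hd : 1 ≤ d) (α β : ℂ) (x : Vec (m + 2)) (i : Fin (m + 2)) :
    ev (fam m d α β) x i = if (i : ℕ) = m + 1 then x i ^ d - α * x ⟨m, by omega⟩ ^ d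
      else x i * x (Fin.last (m + 1)) ^ (d - 1) -
        (if (i : ℕ) = 0 then β * x ⟨m, by omega⟩ ^ d
          else x ⟨(i : ℕ) - 1, lt_of_le_of_lt (Nat.sub_le _ _) i.2⟩ ^ d) := by
  rw [fam, ev_ofPoly]
  · split_ifs <;> simp
  · intro i
    have h1 : (X i * X (Fin.last (m + 1)) ^ (d - 1) :
        MvPolynomial (Fin (m + 2)) ℂ).IsHomogeneous d := by
      have := (isHomogeneous_X ℂ i).mul (isHomogeneous_X_pow (R := ℂ) (Fin.last (m + 1)) (d - 1))
      rwa [Nat.add_sub_cancel' hd] at this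
    split_ifs
    · exact (isHomogeneous_X_pow i d).sub (hom_C_mul_X_pow _ _ _)
    · exact h1.sub (hom_C_mul_X_pow _ _ _)
    · exact h1.sub (isHomogeneous_X_pow _ d)

theorem fam_add (hd : 1 ≤ d) (β : ℂ) : fam m d 1 (1 + β) = fam m d 1 1 + β • vfam m d := by
  apply ev_inj
  intro x
  funext i
  rw [ev_add, ev_smul, Pi.add_apply, Pi.smul_apply, ev_fam hd, ev_fam hd, vfam, ev_top,
    Pi.smul_apply, smul_eq_mul, smul_eq_mul]
  by_cases h1 : (i : ℕ) = m + 1
  · have h2 : i ≠ 0 := by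
      intro h
      rw [h] at h1
      simp at h1
    rw [if_pos h1, if_pos h1, Pi.single_eq_of_ne h2]
    ring
  · rw [if_neg h1, if_neg h1]
    by_cases h2 : (i : ℕ) = 0
    · have h3 : i = 0 := Fin.ext h2
      rw [if_pos h2, if_pos h2, h3, Pi.single_eq_same]
      ring
    · have h3 : i ≠ 0 := fun h => h2 (by rw [h]; rfl)
      rw [if_neg h2, if_neg h2, Pi.single_eq_of_ne h3]
      ring

theorem continuous_fam : Continuous (fun p : ℂ × ℂ => fam m d p.1 p.2) := by
  refine continuous_pi fun i => continuous_pi fun a => ?_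
  unfold fam ofPoly
  by_cases h1 : (i : ℕ) = m + 1
  · simp only [if_pos h1, coeff_sub, coeff_C_mul]
    fun_prop
  · by_cases h2 : (i : ℕ) = 0
    · simp only [if_neg h1, if_pos h2, coeff_sub, coeff_C_mul]
      fun_prop
    · simp only [if_neg h1, if_neg h2, coeff_sub]
      fun_prop

end

/-- the formula for the family -/
def EvFamStmt : Prop := ∀ (m d : ℕ) (_ : 1 ≤ d) (α β : ℂ) (x : Vec (m + 2)) (i : Fin (m + 2)),
    ev (fam m d α β) x i = if (i : ℕ) = m + 1 then x i ^ d - α * x ⟨m, by omega⟩ ^ d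
      else x i * x (Fin.last (m + 1)) ^ (d - 1) -
        (if (i : ℕ) = 0 then β * x ⟨m, by omega⟩ ^ d
          else x ⟨(i : ℕ) - 1, lt_of_le_of_lt (Nat.sub_le _ _) i.2⟩ ^ d)

theorem evFamStmt : EvFamStmt := fun _ _ hd α β x i => ev_fam hd α β x i

end Pool.Agent.Helper819.PiOne
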