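import Pool.Agent.Helper819.Pi.Fam

set_option autoImplicit false

open MvPolynomial

namespace Pool.Agent.Helper819.PiOne



section

variable {n d : ℕ}

variable {m : ℕ}





/-- diagonal continuous linear map -/
noncomputable def dgl {k : ℕ} (w : Fin k → ℂ) : Vec k →L[ℂ] Vec k :=
  ContinuousLinearMap.pi fun j => w j • ContinuousLinearMap.proj (R := ℂ) (φ := fun _ : Fin k => ℂ) j

theorem dgl_apply {k : ℕ} (w : Fin k → ℂ) (x : Vec k) (j : Fin k) : dgl w x j = w j * x j := by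
  simp [dgl]

theorem dgl_mul {k : ℕ} (w v : Fin k → ℂ) (h : ∀ j, w j * v j = 1) : dgl w * dgl v = 1 := by
  ext x j
  show dgl w (dgl v x) j = x j
  rw [dgl_apply, dgl_apply, ← mul_assoc, h, one_mul]

theorem fam_conj (hE : EvFamStmt) (hd : 2 ≤ d) (α β t : ℂ) (ht : t ≠ 0) :
    ∃ g : (Vec (m + 2) →L[ℂ] Vec (m + 2))ˣ, ∀ x : Vec (m + 2),
      ev (fam m d α β) ((g : Vec (m + 2) →L[ℂ] Vec (m + 2)) x) =
        (g : Vec (m + 2) →L[ℂ] Vec (m + 2))
          (ev (fam m d (t ^ (d ^ (m + 1)) * α) (t ^ (d ^ (m + 1) - 1) * β)) x) := by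
  classical
  let w : Fin (m + 2) → ℂ := fun j => if (j : ℕ) ≤ m then t ^ (d ^ (j : ℕ)) else 1
  have hw : ∀ j, w j ≠ 0 := by
    intro j
    simp only [w]
    split_ifs
    · exact pow_ne_zero _ ht
    · exact one_ne_zero
  have hwle : ∀ (j : Fin (m + 2)), (j : ℕ) ≤ m → w j = t ^ (d ^ (j : ℕ)) := by
    intro j hj; simp only [w, if_pos hj]
  have hwlast : ∀ (j : Fin (m + 2)), ¬ (j : ℕ) ≤ m → w j = 1 := by
    intro j hj; simp only [w, if_neg hj]
  refine ⟨⟨dgl w, dgl (fun j => (w j)⁻¹), dgl_mul _ _ (fun j => mul_inv_cancel₀ (hw j)),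
    dgl_mul _ _ (fun j => inv_mul_cancel₀ (hw j))⟩, fun x => ?_⟩
  show ev (fam m d α β) (dgl w x) = dgl w _
  funext i
  rw [dgl_apply, hE m d (by omega), hE m d (by omega)]
  simp only [dgl_apply]
  have hm : w ⟨m, by omega⟩ = t ^ (d ^ m) := hwle ⟨m, by omega⟩ (le_refl m)
  have hL : w (Fin.last (m + 1)) = 1 := hwlast _ (by simp)
  have hpow : (t ^ (d ^ m)) ^ d = t ^ (d ^ (m + 1)) := by rw [← pow_mul, ← pow_succ]
  by_cases h1 : (i : ℕ) = m + 1
  · rw [if_pos h1, if_pos h1, hwlast i (by omega), hm]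
    rw [one_mul, one_mul, mul_pow, hpow]
    ring
  · have hi : (i : ℕ) ≤ m := by have := i.2; omega
    rw [if_neg h1, if_neg h1, hL, one_mul, hwle i hi]
    by_cases h0 : (i : ℕ) = 0
    · rw [if_pos h0, if_pos h0, hm, h0, mul_pow, hpow, pow_zero, pow_one]
      have hp : 0 < d ^ (m + 1) := by positivity
      have h2 : t ^ (d ^ (m + 1)) = t * t ^ (d ^ (m + 1) - 1) := by
        rw [← pow_succ']
        congr 1
        omega
      rw [h2]; ring
    · rw [if_neg h0, if_neg h0]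
      have h3 : w ⟨(i : ℕ) - 1, lt_of_le_of_lt (Nat.sub_le _ _) i.2⟩ = t ^ (d ^ ((i : ℕ) - 1)) :=
        hwle ⟨(i : ℕ) - 1, _⟩ (show (i : ℕ) - 1 ≤ m by omega)
      rw [h3, mul_pow, ← pow_mul, ← pow_succ, Nat.sub_add_cancel (by omega)]
      ring

end

end Pool.Agent.Helper819.PiOne
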