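import Pool.Agent.Helper819.Pi.Fam

set_option autoImplicit false

open MvPolynomial

namespace Pool.Agent.Helper819.PiOne



section

variable {n d : ℕ}

variable {m : ℕ}





theorem fam_inT (hE : EvFamStmt) (hd : 2 ≤ d) :
    InT (fam m d 1 1) (vfam m d) (fun _ => (1 : ℂ)) := by
  have hd1 : 1 ≤ d := by omega
  have hd0 : d ≠ 0 := by omega
  have hdm : d - 1 ≠ 0 := by omega
  have hdC : (d : ℂ) ≠ 0 := by exact_mod_cast hd0
  refine ⟨?_, ?_, ?_, ?_⟩
  · intro h
    have := congrFun h 0
    simp at this
  · funext i
    rw [hE m d hd1]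
    simp
  · intro y hy
    have hc : ∀ i : Fin (m + 2), (if (i : ℕ) = m + 1 then y i ^ d - 1 * y ⟨m, by omega⟩ ^ d
      else y i * y (Fin.last (m + 1)) ^ (d - 1) -
        (if (i : ℕ) = 0 then 1 * y ⟨m, by omega⟩ ^ d
          else y ⟨(i : ℕ) - 1, lt_of_le_of_lt (Nat.sub_le _ _) i.2⟩ ^ d)) = 0 := by
      intro i
      rw [← hE m d hd1, hy]
      rfl
    refine ⟨y (Fin.last (m + 1)), ?_⟩
    set L : ℂ := y (Fin.last (m + 1)) with hL
    have hA : y ⟨m, by omega⟩ ^ d = L ^ d := by
      have h := hc (Fin.last (m + 1))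
      rw [if_pos (by simp)] at h
      rw [hL]
      linear_combination -h
    have hB : y 0 * L ^ (d - 1) = L ^ d := by
      have h := hc 0
      rw [if_neg (by simp), if_pos (by simp)] at h
      rw [← hA]
      linear_combination h
    have hC : ∀ k : ℕ, ∀ hk : k < m, y ⟨k + 1, by omega⟩ * L ^ (d - 1) = y ⟨k, by omega⟩ ^ d := by
      intro k hk
      have h := hc ⟨k + 1, by omega⟩
      rw [if_neg (by simp only; omega), if_neg (by simp only; omega)] at h
      simp only [Nat.add_sub_cancel] at h
      linear_combination h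
    have key : ∀ k : ℕ, ∀ hk : k < m + 1, y ⟨k, by omega⟩ = L := by
      by_cases hL0 : L = 0
      · intro k hk
        rw [hL0]
        rw [hL0, zero_pow hd0] at hA
        rcases Nat.lt_or_ge k m with h | h
        · have h1 := hC k h
          rw [hL0, zero_pow hdm, mul_zero] at h1
          exact (pow_eq_zero_iff hd0).mp h1.symm
        · have hkm : k = m := by omega
          subst hkm
          exact (pow_eq_zero_iff hd0).mp hA
      · have hLp : L ^ (d - 1) ≠ 0 := pow_ne_zero _ hL0
        have hLd : L ^ d = L * L ^ (d - 1) := by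
          rw [← pow_succ', Nat.sub_add_cancel hd1]
        intro k
        induction k with
        | zero =>
          intro _
          apply mul_right_cancel₀ hLp
          rw [← hLd]
          exact hB
        | succ k ih =>
          intro hk
          have h1 := hC k (by omega)
          rw [ih (by omega), hLd] at h1
          exact mul_right_cancel₀ hLp h1
    funext i
    simp only [Pi.smul_apply, smul_eq_mul, mul_one]
    rcases Nat.lt_or_ge i.1 (m + 1) with h | h
    · exact key i.1 h
    · have : i = Fin.last (m + 1) := by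
        apply Fin.ext
        have := i.2
        simp only [Fin.val_last]
        omega
      rw [this]
  · intro y ζ hy
    have hder : HasDerivAt (fun t : ℂ => ev (fam m d 1 1) ((fun _ => (1 : ℂ)) + t • y))
        (fderiv ℂ (ev (fam m d 1 1)) (fun _ => (1 : ℂ)) y) 0 :=
      ((differentiable_ev (fam m d 1 1) (fun _ => (1 : ℂ))).hasFDerivAt).hasLineDerivAt y
    rw [hasDerivAt_pi] at hder
    set D : Vec (m + 2) := fderiv ℂ (ev (fam m d 1 1)) (fun _ => (1 : ℂ)) y with hD
    have hv : ev (vfam m d) (fun _ => (1 : ℂ)) = Pi.single 0 (-1) := by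
      rw [vfam, ev_top]
      simp
    rw [hv] at hy
    have hlin : ∀ a : ℂ, HasDerivAt (fun t : ℂ => 1 + t * a) a 0 := by
      intro a
      simpa using ((hasDerivAt_id (0 : ℂ)).mul_const a).const_add 1
    have hpow : ∀ (a : ℂ) (e : ℕ), HasDerivAt (fun t : ℂ => (1 + t * a) ^ e) (e * a) 0 := by
      intro a e
      have h := (hlin a).fun_pow e
      simpa using h
    have hcomp : ∀ (i : Fin (m + 2)) (t : ℂ),
        ev (fam m d 1 1) ((fun _ => (1 : ℂ)) + t • y) i =
        if (i : ℕ) = m + 1 then (1 + t * y i) ^ d - 1 * (1 + t * y ⟨m, by omega⟩) ^ d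
      else (1 + t * y i) * (1 + t * y (Fin.last (m + 1))) ^ (d - 1) -
        (if (i : ℕ) = 0 then 1 * (1 + t * y ⟨m, by omega⟩) ^ d
          else (1 + t * y ⟨(i : ℕ) - 1, lt_of_le_of_lt (Nat.sub_le _ _) i.2⟩) ^ d) := by
      intro i t
      rw [hE m d hd1]
      simp only [Pi.add_apply, Pi.smul_apply, smul_eq_mul]
    set L : ℂ := y (Fin.last (m + 1)) with hL
    -- component `m + 1`
    have hA : y ⟨m, by omega⟩ = L := by
      have h1 := hder (Fin.last (m + 1))
      have h2 : HasDerivAt (fun t : ℂ => ev (fam m d 1 1) ((fun _ => (1 : ℂ)) + t • y)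
          (Fin.last (m + 1))) (d * L - 1 * (d * y ⟨m, by omega⟩)) 0 := by
        have : (fun t : ℂ => ev (fam m d 1 1) ((fun _ => (1 : ℂ)) + t • y) (Fin.last (m + 1))) =
            fun t : ℂ => (1 + t * L) ^ d - 1 * (1 + t * y ⟨m, by omega⟩) ^ d := by
          funext t
          rw [hcomp, if_pos (by simp)]
        rw [this]
        exact (hpow _ d).sub ((hpow _ d).const_mul 1)
      have h3 := h1.unique h2
      have h4 := congrFun hy (Fin.last (m + 1))
      have h5 : (Pi.single (0 : Fin (m + 2)) (-1 : ℂ) : Fin (m + 2) → ℂ) (Fin.last (m + 1)) = 0 := by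
        rw [Pi.single_eq_of_ne]
        intro h
        have := congrArg Fin.val h
        simp at this
      simp only [Pi.add_apply, Pi.smul_apply, smul_eq_mul, h5, mul_zero, add_zero,
        Pi.zero_apply] at h4
      rw [h4] at h3
      have h6 : (d : ℂ) * (y ⟨m, by omega⟩ - L) = 0 := by linear_combination h3
      rcases mul_eq_zero.mp h6 with h | h
      · exact absurd h hdC
      · exact sub_eq_zero.mp h
    -- component `0`
    have hdcast : ((d - 1 : ℕ) : ℂ) = (d : ℂ) - 1 := by
      rw [Nat.cast_sub hd1, Nat.cast_one]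
    have hB : y 0 + ((d : ℂ) - 1) * L - d * y ⟨m, by omega⟩ - ζ = 0 := by
      have h1 := hder 0
      have h2 : HasDerivAt (fun t : ℂ => ev (fam m d 1 1) ((fun _ => (1 : ℂ)) + t • y)
          0) (y 0 * (1 + 0 * L) ^ (d - 1) + (1 + 0 * y 0) * (((d - 1 : ℕ) : ℂ) * L)
            - 1 * (d * y ⟨m, by omega⟩)) 0 := by
        have : (fun t : ℂ => ev (fam m d 1 1) ((fun _ => (1 : ℂ)) + t • y) 0) =
            fun t : ℂ => (1 + t * y 0) * (1 + t * L) ^ (d - 1)
              - 1 * (1 + t * y ⟨m, by omega⟩) ^ d := by
          funext t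
          rw [hcomp, if_neg (by simp), if_pos (by simp)]
        rw [this]
        exact ((hlin _).mul (hpow _ (d - 1))).sub ((hpow _ d).const_mul 1)
      have h3 := h1.unique h2
      have h4 := congrFun hy 0
      simp only [Pi.add_apply, Pi.smul_apply, smul_eq_mul, Pi.single_eq_same,
        Pi.zero_apply] at h4
      rw [h3, hdcast] at h4
      simp only [zero_mul, add_zero, one_pow, mul_one, one_mul] at h4
      linear_combination h4
    have hC : ∀ k : ℕ, ∀ hk : k < m, y ⟨k + 1, by omega⟩ + ((d : ℂ) - 1) * L
        - d * y ⟨k, by omega⟩ = 0 := by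
      intro k hk
      have h1 := hder ⟨k + 1, by omega⟩
      have h2 : HasDerivAt (fun t : ℂ => ev (fam m d 1 1) ((fun _ => (1 : ℂ)) + t • y)
          ⟨k + 1, by omega⟩) (y ⟨k + 1, by omega⟩ * (1 + 0 * L) ^ (d - 1)
            + (1 + 0 * y ⟨k + 1, by omega⟩) * (((d - 1 : ℕ) : ℂ) * L)
            - (d * y ⟨k, by omega⟩)) 0 := by
        have : (fun t : ℂ => ev (fam m d 1 1) ((fun _ => (1 : ℂ)) + t • y)
            ⟨k + 1, by omega⟩) =
            fun t : ℂ => (1 + t * y ⟨k + 1, by omega⟩) * (1 + t * L) ^ (d - 1)
              - (1 + t * y ⟨k, by omega⟩) ^ d := by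
          funext t
          rw [hcomp, if_neg (by simp only; omega), if_neg (by simp only; omega)]
          simp only [Nat.add_sub_cancel]
        rw [this]
        exact ((hlin _).mul (hpow _ (d - 1))).sub (hpow _ d)
      have h3 := h1.unique h2
      have h4 := congrFun hy ⟨k + 1, by omega⟩
      have h5 : (Pi.single (0 : Fin (m + 2)) (-1 : ℂ) : Fin (m + 2) → ℂ) ⟨k + 1, by omega⟩ = 0 := by
        rw [Pi.single_eq_of_ne]
        intro h
        have := congrArg Fin.val h
        simp at this
      simp only [Pi.add_apply, Pi.smul_apply, smul_eq_mul, h5, mul_zero, add_zero,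
        Pi.zero_apply] at h4
      rw [h3, hdcast] at h4
      simp only [zero_mul, add_zero, one_pow, mul_one, one_mul] at h4
      linear_combination h4
    have key : ∀ j : ℕ, ∀ hj : j ≤ m, y ⟨m - j, by omega⟩ = L := by
      intro j
      induction j with
      | zero =>
        intro _
        exact hA
      | succ j ih =>
        intro hj
        have h1 := hC (m - (j + 1)) (by omega)
        have h2 : (⟨m - (j + 1) + 1, by omega⟩ : Fin (m + 2)) = ⟨m - j, by omega⟩ := by
          apply Fin.ext
          simp only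
          omega
        rw [h2, ih (by omega)] at h1
        have h6 : (d : ℂ) * (y ⟨m - (j + 1), by omega⟩ - L) = 0 := by linear_combination -h1
        rcases mul_eq_zero.mp h6 with h | h
        · exact absurd h hdC
        · exact sub_eq_zero.mp h
    have h0 : y 0 = L := by
      have h := key m le_rfl
      have h2 : (⟨m - m, by omega⟩ : Fin (m + 2)) = 0 := by
        apply Fin.ext
        simp
      rwa [h2] at h
    refine ⟨?_, L, ?_⟩
    · rw [h0, hA] at hB
      linear_combination -hB
    · funext i
      simp only [Pi.smul_apply, smul_eq_mul, mul_one]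
      rcases Nat.lt_or_ge i.1 (m + 1) with h | h
      · have h1 := key (m - i.1) (by omega)
        have h2 : (⟨m - (m - i.1), by omega⟩ : Fin (m + 2)) = i := by
          apply Fin.ext
          simp only
          omega
        rwa [h2] at h1
      · have : i = Fin.last (m + 1) := by
          apply Fin.ext
          have := i.2
          simp only [Fin.val_last]
          omega
        rw [this]

end

end Pool.Agent.Helper819.PiOne
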