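import Pool.Agent.Helper819.Pi.Fam

set_option autoImplicit false

open MvPolynomial

namespace Pool.Agent.Helper819.PiOne



section

variable {n d : ℕ}

variable {m : ℕ}





theorem isMor_fam (hE : EvFamStmt) (hd : 2 ≤ d) (α β : ℂ)
    (h : α ^ (d ^ (m + 1) - 1) ≠ β ^ (d ^ (m + 1))) : IsMor (fam m d α β) := by
  classical
  intro x hx
  have hd1 : 1 ≤ d := by omega
  let f : ℕ → ℂ := fun k => if hk : k < m + 2 then x ⟨k, hk⟩ else 0
  have hf : ∀ (i : Fin (m + 2)), f (i : ℕ) = x i := by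
    intro i
    simp [f]
  have hfm : f m = x ⟨m, by omega⟩ := by simp [f]
  have hfL : f (m + 1) = x (Fin.last (m + 1)) := by
    have := hf (Fin.last (m + 1))
    simpa using this
  have E1 : f (m + 1) ^ d = α * f m ^ d := by
    have h1 := congrFun hx (Fin.last (m + 1))
    rw [hE m d hd1 α β x (Fin.last (m + 1))] at h1
    rw [if_pos (by simp)] at h1
    rw [hfL, hfm]
    exact sub_eq_zero.mp h1
  have E0 : f 0 * f (m + 1) ^ (d - 1) = β * f m ^ d := by
    have h1 := congrFun hx ⟨0, by omega⟩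
    rw [hE m d hd1 α β x ⟨0, by omega⟩] at h1
    rw [if_neg (by simp), if_pos (by simp)] at h1
    have h2 := hf ⟨0, by omega⟩
    simp only at h2
    rw [hfL, hfm, h2]
    exact sub_eq_zero.mp h1
  have Ej : ∀ j, j < m → f (j + 1) * f (m + 1) ^ (d - 1) = f j ^ d := by
    intro j hj
    have h1 := congrFun hx ⟨j + 1, by omega⟩
    rw [hE m d hd1 α β x ⟨j + 1, by omega⟩] at h1
    rw [if_neg (by simp; omega), if_neg (by simp)] at h1
    have h2 := hf ⟨j + 1, by omega⟩
    have h3 := hf ⟨j, by omega⟩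
    simp only at h2 h3
    rw [hfL, h2, h3]
    have h4 := sub_eq_zero.mp h1
    simpa using h4
  by_cases ha : f m = 0
  · -- all coordinates vanish
    have hL0 : f (m + 1) = 0 := by
      rw [ha, zero_pow (by omega), mul_zero] at E1
      exact (pow_eq_zero_iff (by omega)).mp E1
    have hall : ∀ k, k < m + 2 → f k = 0 := by
      intro k hk
      rcases Nat.lt_or_ge k m with hkm | hkm
      · have h1 := Ej k hkm
        rw [hL0, zero_pow (by omega), mul_zero] at h1
        exact (pow_eq_zero_iff (by omega)).mp h1.symm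
      · rcases Nat.eq_or_lt_of_le hkm with hkm' | hkm'
        · rw [← hkm']; exact ha
        · have : k = m + 1 := by omega
          rw [this]; exact hL0
    funext i
    rw [← hf i]
    exact hall i i.2
  · exfalso
    obtain ⟨e, rfl⟩ : ∃ e, d = e + 1 := ⟨d - 1, by omega⟩
    simp only [Nat.add_sub_cancel] at E0 Ej
    have key : ∀ j, j ≤ m → ∃ s : ℕ, e * s + 1 = (e + 1) ^ j ∧
        f 0 ^ ((e + 1) ^ j) = f j * (f (m + 1) ^ e) ^ s := by
      intro j
      induction j with
      | zero =>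
        intro _
        exact ⟨0, by simp, by simp⟩
      | succ j ih =>
        intro hj
        obtain ⟨s, hs1, hs2⟩ := ih (by omega)
        refine ⟨1 + (e + 1) * s, ?_, ?_⟩
        · rw [pow_succ, ← hs1]; ring
        · rw [pow_succ, pow_mul, hs2, mul_pow, ← Ej j (by omega)]
          ring
    obtain ⟨s, hs1, hs2⟩ := key m le_rfl
    apply h
    have ha' : f m ^ ((e + 1) ^ (m + 2)) ≠ 0 := pow_ne_zero _ ha
    apply mul_right_cancel₀ ha'
    have hpos : 1 ≤ (e + 1) ^ (m + 1) := Nat.one_le_pow _ _ (by omega)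
    obtain ⟨t, ht⟩ : ∃ t, (e + 1) ^ (m + 1) = t + 1 := ⟨(e + 1) ^ (m + 1) - 1, by omega⟩
    have hR : β ^ ((e + 1) ^ (m + 1)) * f m ^ ((e + 1) ^ (m + 2)) =
        (f 0 * f (m + 1) ^ e) ^ ((e + 1) ^ (m + 1)) := by
      rw [E0, mul_pow, ← pow_mul, ← pow_succ']
    have hexp : e * ((e + 1) * s + (e + 1) ^ (m + 1)) = (e + 1) * t := by
      have h1 : (e + 1) ^ (m + 1) = (e + 1) * (e * s + 1) := by rw [hs1]; ring
      have h2 : t = (e + 1) * (e * s + 1) - 1 := by omega
      have h3 : (e + 1) * (e * s + 1) = ((e + 1) * (e * s) + e) + 1 := by ring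
      have h4 : t = (e + 1) * (e * s) + e := by omega
      rw [h1, h4]
      ring
    have hR2 : (f 0 * f (m + 1) ^ e) ^ ((e + 1) ^ (m + 1)) =
        f m ^ (e + 1) * (f (m + 1) ^ (e + 1)) ^ t := by
      rw [mul_pow]
      have h1 : f 0 ^ ((e + 1) ^ (m + 1)) = f m ^ (e + 1) * (f (m + 1) ^ e) ^ ((e + 1) * s) := by
        rw [pow_succ (e + 1) m, pow_mul, hs2, mul_pow]
        ring
      rw [h1, mul_assoc, ← pow_add, ← pow_mul, ← pow_mul, hexp]
    rw [hR, hR2, E1, mul_pow, ht, Nat.add_sub_cancel, ← pow_mul]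
    have h5 : (e + 1) ^ (m + 2) = (e + 1) + (e + 1) * t := by
      rw [pow_succ (e + 1) (m + 1), ht]; ring
    rw [h5, pow_add]
    ring

end

end Pool.Agent.Helper819.PiOne
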