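import Pool.Agent.Helper819.Pi.Base3

set_option autoImplicit false

open MvPolynomial

namespace Pool.Agent.Helper819.PiOne



section

variable {n d : ℕ}

open MeasureTheory


/-- the exponent vector of `X_i ^ d` -/
def slot (n d : ℕ) (i : Fin n) : Expo n d :=
  ⟨fun j => if j = i then ⟨d, Nat.lt_succ_self d⟩ else 0, by
    rw [Finset.sum_eq_single i]
    · simp
    · intro b _ hb
      simp [hb]
    · intro h
      exact absurd (Finset.mem_univ i) h⟩

/-- remove the slot -/
def chat (i : Fin n) (c : Tup n d) : Tup n d := fun j a => if a = slot n d i then 0 else c j a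

/-- the point read off from the slots -/
def rx (i : Fin n) (c : Tup n d) : Vec n := fun j => if j = i then 1 else c j (slot n d i)

theorem ev_split (i : Fin n) (c : Tup n d) (x : Vec n) (j : Fin n) :
    ev c x j = c j (slot n d i) * x i ^ d + ev (chat i c) x j := by
  have h1 : ev c x j = ∑ a : Expo n d, ((if a = slot n d i then c j a * ∏ k, x k ^ (a.1 k : ℕ) else 0)
      + chat i c j a * ∏ k, x k ^ (a.1 k : ℕ)) := by
    unfold ev
    refine Finset.sum_congr rfl fun a _ => ?_
    unfold chat
    split_ifs <;> ring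
  rw [h1, Finset.sum_add_distrib, Finset.sum_ite_eq']
  rw [if_pos (Finset.mem_univ _)]
  have h2 : ∏ k, x k ^ (((slot n d i).1 k : Fin (d+1)) : ℕ) = x i ^ d := by
    rw [Finset.prod_eq_single i]
    · simp [slot]
    · intro b _ hb
      simp [slot, hb]
    · intro h
      exact absurd (Finset.mem_univ i) h
  rw [h2]
  rfl

noncomputable def Phi (xi : Tup n d) (i : Fin n) (c : Tup n d) : Tup n d :=
  fun j a => if a = slot n d i then
      - (c i (slot n d i) * ev xi (rx i c) j + ev (chat i c) (rx i c) j) else c j a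

theorem chat_congr (i : Fin n) (c c' : Tup n d) (h : ∀ j a, a ≠ slot n d i → c j a = c' j a) :
    chat i c = chat i c' := by
  funext j a
  unfold chat
  split_ifs with h1
  · rfl
  · exact h j a h1

theorem chat_Phi (xi : Tup n d) (i : Fin n) (c : Tup n d) : chat i (Phi xi i c) = chat i c := by
  apply chat_congr
  intro j a ha
  simp [Phi, ha]

theorem differentiable_rx (i : Fin n) : Differentiable ℂ (rx i : Tup n d → Vec n) := by
  rw [differentiable_pi]
  intro j
  unfold rx
  split_ifs <;> fun_prop

theorem differentiable_chat (i : Fin n) : Differentiable ℂ (chat i : Tup n d → Tup n d) := by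
  rw [differentiable_pi]
  intro j
  rw [differentiable_pi]
  intro a
  unfold chat
  split_ifs <;> fun_prop

theorem differentiable_evp : Differentiable ℂ (fun p : Tup n d × Vec n => ev p.1 p.2) :=
  contDiff_ev.differentiable (by simp)

theorem differentiable_Phi (xi : Tup n d) (i : Fin n) : Differentiable ℂ (Phi xi i) := by
  rw [differentiable_pi]
  intro j
  rw [differentiable_pi]
  intro a
  unfold Phi
  split_ifs with h
  · have h1 : Differentiable ℂ (fun c : Tup n d => ev xi (rx i c)) :=
      (differentiable_ev xi).comp (differentiable_rx i)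
    have h2 : Differentiable ℂ (fun c : Tup n d => ev (chat i c) (rx i c)) :=
      Differentiable.comp (g := fun p : Tup n d × Vec n => ev p.1 p.2)
        (f := fun c : Tup n d => (chat i c, rx i c)) differentiable_evp
        ((differentiable_chat i).prodMk (differentiable_rx i))
    have h1' : Differentiable ℂ (fun c : Tup n d => ev xi (rx i c) j) := fun c =>
      (differentiableAt_pi.mp (h1 c)) j
    have h2' : Differentiable ℂ (fun c : Tup n d => ev (chat i c) (rx i c) j) := fun c =>
      (differentiableAt_pi.mp (h2 c)) j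
    have h3 : Differentiable ℂ (fun c : Tup n d => c i (slot n d i)) := by fun_prop
    exact ((h3.mul h1').add h2').neg
  · fun_prop

theorem Phi_eq (xi : Tup n d) (i : Fin n) (g : Tup n d) (w : ℂ) (x : Vec n) (hx : x i = 1)
    (h0 : ev (g + w • xi) x = 0) (c : Tup n d) (hc1 : c i (slot n d i) = w) (hc2 : rx i c = x)
    (hc3 : ∀ j a, a ≠ slot n d i → c j a = g j a) : Phi xi i c = g := by
  funext j a
  unfold Phi
  split_ifs with h
  · subst h
    rw [hc1, hc2, chat_congr i c g hc3]
    have h1 := congrFun h0 j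
    rw [ev_add, ev_smul, Pi.add_apply, Pi.smul_apply, smul_eq_mul, ev_split i g, hx] at h1
    simp only [one_pow, mul_one, Pi.zero_apply] at h1
    linear_combination -h1
  · exact hc3 j a h

theorem fderiv_Phi_zero (xi : Tup n d) (i : Fin n) (c : Tup n d) (y : Vec n) (hy : y i = 0) (ζ : ℂ)
    (h : fderiv ℂ (ev (Phi xi i c + c i (slot n d i) • xi)) (rx i c) y + ζ • ev xi (rx i c) = 0)
    (cd : Tup n d) (hcd1 : cd i (slot n d i) = ζ) (hcd2 : ∀ j, j ≠ i → cd j (slot n d i) = y j)
    (hcd3 : ∀ j a, a ≠ slot n d i → cd j a = 0) : fderiv ℂ (Phi xi i) c cd = 0 := by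
  set g := Phi xi i c with hg
  set x := rx i c with hx
  set w := c i (slot n d i) with hw
  have hD : HasDerivAt (fun t : ℂ => Phi xi i (c + t • cd)) (fderiv ℂ (Phi xi i) c cd) 0 := by
    have h1 : HasFDerivAt (Phi xi i) (fderiv ℂ (Phi xi i) c) (c + (0:ℂ) • cd) := by
      have := (differentiable_Phi xi i c).hasFDerivAt
      simpa using this
    have h2 : HasDerivAt (fun t : ℂ => c + t • cd) cd 0 := by
      have := ((hasDerivAt_id (0:ℂ)).smul_const cd).const_add c
      simpa using this
    exact h1.comp_hasDerivAt (0:ℂ) h2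
  have hrx : ∀ t : ℂ, rx i (c + t • cd) = x + t • y := by
    intro t
    funext j
    by_cases hj : j = i
    · subst hj
      simp [rx, hx, hy]
    · simp [rx, hx, hj, hcd2 j hj]
  have hxi : ∀ t : ℂ, (x + t • y) i = 1 := by
    intro t
    simp [hx, rx, hy]
  have hct : ∀ t : ℂ, chat i (c + t • cd) = chat i g := by
    intro t
    rw [hg, chat_Phi]
    apply chat_congr
    intro j a ha
    simp [hcd3 j a ha]
  funext j a
  have hDj : HasDerivAt (fun t : ℂ => Phi xi i (c + t • cd) j a) (fderiv ℂ (Phi xi i) c cd j a) 0 := by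
    have h1 := (hasDerivAt_pi.mp hD) j
    exact (hasDerivAt_pi.mp h1) a
  by_cases ha : a = slot n d i
  · subst ha
    have hline : HasDerivAt (fun t : ℂ => x + t • y) y 0 := by
      have := ((hasDerivAt_id (0:ℂ)).smul_const y).const_add x
      simpa using this
    have hE : ∀ q : Tup n d, HasDerivAt (fun t : ℂ => ev q (x + t • y) j) (fderiv ℂ (ev q) x y j) 0 := by
      intro q
      have h1 : HasFDerivAt (ev q) (fderiv ℂ (ev q) x) (x + (0:ℂ) • y) := by
        have := (differentiable_ev q x).hasFDerivAt
        simpa using this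
      exact (hasDerivAt_pi.mp (h1.comp_hasDerivAt (0:ℂ) hline)) j
    have hfun : (fun t : ℂ => Phi xi i (c + t • cd) j (slot n d i)) =
        fun t : ℂ => g j (slot n d i) - ev g (x + t • y) j - (w + t * ζ) * ev xi (x + t • y) j := by
      funext t
      have e1 : Phi xi i (c + t • cd) j (slot n d i) =
          - ((c + t • cd) i (slot n d i) * ev xi (rx i (c + t • cd)) j +
            ev (chat i (c + t • cd)) (rx i (c + t • cd)) j) := by
        simp [Phi]
      rw [e1, hrx, hct, ev_split i g (x + t • y) j, hxi]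
      have e2 : (c + t • cd) i (slot n d i) = w + t * ζ := by
        simp [hw, hcd1]
      rw [e2]
      ring
    have hR : HasDerivAt (fun t : ℂ => Phi xi i (c + t • cd) j (slot n d i))
        (0 - fderiv ℂ (ev g) x y j - (ζ * ev xi (x + (0:ℂ) • y) j +
          (w + 0 * ζ) * fderiv ℂ (ev xi) x y j)) 0 := by
      rw [hfun]
      have hw' : HasDerivAt (fun t : ℂ => w + t * ζ) ζ 0 := by
        have := ((hasDerivAt_id (0:ℂ)).mul_const ζ).const_add w
        simpa using this
      exact ((hasDerivAt_const (0:ℂ) (g j (slot n d i))).sub (hE g)).sub (hw'.mul (hE xi))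
    rw [hDj.unique hR]
    have hsum : fderiv ℂ (ev (g + w • xi)) x = fderiv ℂ (ev g) x + w • fderiv ℂ (ev xi) x := by
      have e : ev (g + w • xi) = ev g + w • ev xi := by
        funext z
        rw [ev_add, ev_smul]
        rfl
      rw [e, fderiv_add (differentiable_ev g x) ((differentiable_ev xi x).const_smul w),
        fderiv_const_smul (differentiable_ev xi x)]
    rw [hsum] at h
    have hj := congrFun h j
    simp only [_root_.add_apply, _root_.smul_apply, Pi.add_apply,
      Pi.smul_apply, smul_eq_mul, Pi.zero_apply] at hj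
    simp only [zero_smul, add_zero, zero_mul, Pi.zero_apply]
    linear_combination -hj
  · have hfun : (fun t : ℂ => Phi xi i (c + t • cd) j a) = fun _ => c j a := by
      funext t
      simp [Phi, ha, hcd3 j a ha]
    rw [hfun] at hDj
    exact hDj.unique (hasDerivAt_const _ _)

/-- scaling the derivative of a homogeneous map -/
theorem fderiv_scale (q : Tup n d) (x y : Vec n) (t : ℂ) :
    fderiv ℂ (ev q) (t • x) (t • y) = t ^ d • fderiv ℂ (ev q) x y := by
  have h1 : HasFDerivAt (fun z : Vec n => ev q (t • z))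
      ((fderiv ℂ (ev q) (t • x)).comp (t • ContinuousLinearMap.id ℂ (Vec n))) x := by
    have h2 : HasFDerivAt (fun z : Vec n => t • z) (t • ContinuousLinearMap.id ℂ (Vec n)) x :=
      (hasFDerivAt_id x).const_smul t
    exact (differentiable_ev q (t • x)).hasFDerivAt.comp x h2
  have h3 : HasFDerivAt (fun z : Vec n => ev q (t • z)) (t ^ d • fderiv ℂ (ev q) x) x := by
    have e : (fun z : Vec n => ev q (t • z)) = fun z => t ^ d • ev q z := by
      funext z
      rw [ev_smul_pt]
    rw [e]
    exact (differentiable_ev q x).hasFDerivAt.const_smul (t ^ d)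
  have := congrArg (fun L => L y) (h1.unique h3)
  simpa using this

/-- Euler -/
theorem fderiv_euler (q : Tup n d) (x : Vec n) (h0 : ev q x = 0) :
    fderiv ℂ (ev q) x x = 0 := by
  have hline : HasDerivAt (fun t : ℂ => t • x) x 1 := by
    have := (hasDerivAt_id (1:ℂ)).smul_const x
    simpa using this
  have h1 : HasFDerivAt (ev q) (fderiv ℂ (ev q) x) ((1:ℂ) • x) := by
    have := (differentiable_ev q x).hasFDerivAt
    simpa using this
  have h2 : HasDerivAt (fun t : ℂ => ev q (t • x)) (fderiv ℂ (ev q) x x) 1 :=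
    HasFDerivAt.comp_hasDerivAt (f := fun t : ℂ => t • x) (1:ℂ) h1 hline
  have e : (fun t : ℂ => ev q (t • x)) = fun _ => 0 := by
    funext t
    rw [ev_smul_pt, h0, smul_zero]
  rw [e] at h2
  exact h2.unique (hasDerivAt_const _ _)

/-- Sard: for almost all `g` all zeros `(x, w)` of `g + w ξ` are nondegenerate -/
theorem generic_nondeg (hd : 1 ≤ d) (xi : Tup n d) :
    ∀ᵐ g : Tup n d, ∀ (w : ℂ) (x : Vec n), x ≠ 0 → ev (g + w • xi) x = 0 →
      ∀ (y : Vec n) (ζ : ℂ), fderiv ℂ (ev (g + w • xi)) x y + ζ • ev xi x = 0 →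
        ζ = 0 ∧ ∃ a : ℂ, y = a • x := by
  let F : Fin n → Tup n d → (Tup n d →L[ℝ] Tup n d) := fun i c =>
    (fderiv ℂ (Phi xi i) c).restrictScalars ℝ
  let S : Fin n → Set (Tup n d) := fun i => {c | (F i c).det = 0}
  have hnull : ∀ i, volume (Phi xi i '' S i) = 0 := by
    intro i
    have i0 : (volume : Measure ℂ).IsAddHaarMeasure := by infer_instance
    have i1 : (volume : Measure (Expo n d → ℂ)).IsAddHaarMeasure := 
      Measure.pi.isAddHaarMeasure _
    have i2 : (volume : Measure (Fin n → Expo n d → ℂ)).IsAddHaarMeasure := 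
      Measure.pi.isAddHaarMeasure _
    apply addHaar_image_eq_zero_of_det_fderivWithin_eq_zero (E := Fin n → Expo n d → ℂ) volume (f' := F i)
    · intro c _
      exact ((differentiable_Phi xi i c).hasFDerivAt.restrictScalars ℝ).hasFDerivWithinAt
    · intro c hc
      exact hc
  rw [ae_iff]
  refine measure_mono_null ?_ (measure_iUnion_null hnull)
  intro g hg
  simp only [Set.mem_ofPred_eq, not_forall] at hg
  obtain ⟨w, x, hx, h0, y, ζ, hD, hbad⟩ := hg
  obtain ⟨i, hi⟩ : ∃ i, x i ≠ 0 := by
    by_contra hcon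
    push Not at hcon
    exact hx (funext hcon)
  rw [Set.mem_iUnion]
  refine ⟨i, ?_⟩
  set t : ℂ := (x i)⁻¹ with ht
  have ht0 : t ≠ 0 := inv_ne_zero hi
  set x' : Vec n := t • x with hx'
  have hx'i : x' i = 1 := by
    simp [hx', ht, hi]
  have h0' : ev (g + w • xi) x' = 0 := by
    rw [hx', ev_smul_pt, h0, smul_zero]
  set y' : Vec n := t • y with hy'
  set y2 : Vec n := y' - y' i • x' with hy2
  have hy2i : y2 i = 0 := by
    simp [hy2, hx'i]
  have hD' : fderiv ℂ (ev (g + w • xi)) x' y2 + ζ • ev xi x' = 0 := by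
    have e1 : fderiv ℂ (ev (g + w • xi)) x' (y' i • x') = 0 := by
      rw [map_smul, fderiv_euler _ _ h0', smul_zero]
    have e2 : fderiv ℂ (ev (g + w • xi)) x' y' = t ^ d • fderiv ℂ (ev (g + w • xi)) x y :=
      fderiv_scale _ x y t
    have e3 : ev xi x' = t ^ d • ev xi x := ev_smul_pt _ _ _
    rw [hy2, map_sub, e1, sub_zero, e2, e3, smul_comm ζ, ← smul_add, hD, smul_zero]
  let c : Tup n d := fun j a => if a = slot n d i then (if j = i then w else x' j) else g j a
  have hc1 : c i (slot n d i) = w := by simp [c]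
  have hc2 : rx i c = x' := by
    funext j
    by_cases hj : j = i
    · subst hj
      simp [rx, hx'i]
    · simp [rx, c, hj]
  have hc3 : ∀ j a, a ≠ slot n d i → c j a = g j a := by
    intro j a ha
    simp [c, ha]
  have hPhi : Phi xi i c = g := Phi_eq xi i g w x' hx'i h0' c hc1 hc2 hc3
  refine ⟨c, ?_, hPhi⟩
  let cd : Tup n d := fun j a => if a = slot n d i then (if j = i then ζ else y2 j) else 0
  have hcd0 : fderiv ℂ (Phi xi i) c cd = 0 := by
    apply fderiv_Phi_zero xi i c y2 hy2i ζ
    · rw [hPhi, hc1, hc2]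
      exact hD'
    · simp [cd]
    · intro j hj
      simp [cd, hj]
    · intro j a ha
      simp [cd, ha]
  have hcdne : cd ≠ 0 := by
    intro hcd
    apply hbad
    have hζ : ζ = 0 := by
      have := congrFun (congrFun hcd i) (slot n d i)
      simpa [cd] using this
    refine ⟨hζ, ?_⟩
    have hy20 : y2 = 0 := by
      funext j
      by_cases hj : j = i
      · rw [hj, hy2i]
        rfl
      · have := congrFun (congrFun hcd j) (slot n d i)
        simpa [cd, hj] using this
    refine ⟨y' i, ?_⟩
    have e1 : y' = y' i • x' := by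
      rw [hy2] at hy20
      exact sub_eq_zero.mp hy20
    have e2 : t • y = t • (y' i • x) := by
      rw [← hy']
      nth_rewrite 1 [e1]
      rw [hx', smul_comm]
    exact smul_right_injective _ ht0 e2
  change (F i c).det = 0
  have hk : LinearMap.ker ((F i c : Tup n d →L[ℝ] Tup n d) : Tup n d →ₗ[ℝ] Tup n d) ≠ ⊥ := by
    intro hbot
    apply hcdne
    have : cd ∈ LinearMap.ker ((F i c : Tup n d →L[ℝ] Tup n d) : Tup n d →ₗ[ℝ] Tup n d) := by
      rw [LinearMap.mem_ker]
      exact hcd0
    rw [hbot] at this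
    exact (Submodule.mem_bot ℝ).mp this
  exact LinearMap.det_eq_zero_iff_ker_ne_bot.mpr hk

end

end Pool.Agent.Helper819.PiOne
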