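import Pool.Agent.Helper819.Pi.Base3

set_option autoImplicit false

open MvPolynomial

namespace Pool.Agent.Helper819.PiOne.G2x



section

variable {n d : ℕ}

open MeasureTheory

/-- monomial value -/
noncomputable def mv (e : Expo n d) (x : Vec n) : ℂ := ∏ j, x j ^ (e.1 j : ℕ)

/-- the point stored in the slots `(j, a)` -/
noncomputable def XX (a : Expo n d) (r : Fin n) (c : Tup n d) : Vec n :=
  fun j => if j = r then 1 else c j a

/-- the remaining coefficients -/
noncomputable def ch (a b : Expo n d) (c : Tup n d) : Tup n d :=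
  fun i e => if e = a ∨ e = b then 0 else c i e

theorem ev_split (a b : Expo n d) (hab : a ≠ b) (c : Tup n d) (x : Vec n) (i : Fin n) :
    ev c x i = c i a * mv a x + c i b * mv b x + ev (ch a b c) x i := by
  classical
  unfold ev ch
  have h1 : ∀ e : Expo n d, c i e * ∏ j, x j ^ (e.1 j : ℕ) =
      ((if e = a then c i a * mv a x else 0) + (if e = b then c i b * mv b x else 0)) +
        (if e = a ∨ e = b then 0 else c i e) * ∏ j, x j ^ (e.1 j : ℕ) := by
    intro e
    by_cases ha : e = a
    · subst ha
      rw [if_pos rfl, if_neg hab, if_pos (Or.inl rfl)]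
      unfold mv
      ring
    · by_cases hb : e = b
      · subst hb
        rw [if_neg ha, if_pos rfl, if_pos (Or.inr rfl)]
        unfold mv
        ring
      · rw [if_neg ha, if_neg hb, if_neg (by tauto)]
        ring
  rw [Finset.sum_congr rfl fun e _ => h1 e, Finset.sum_add_distrib, Finset.sum_add_distrib,
    Finset.sum_ite_eq' Finset.univ a, Finset.sum_ite_eq' Finset.univ b, if_pos (Finset.mem_univ a),
    if_pos (Finset.mem_univ b)]

/-- determinant -/
noncomputable def DDt (a b : Expo n d) (r s : Fin n) (c : Tup n d) : ℂ :=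
  mv a (XX a r c) * mv b (XX b s c) - mv b (XX a r c) * mv a (XX b s c)

noncomputable def uu (xi : Tup n d) (a b : Expo n d) (r : Fin n) (z : Vec n) (c : Tup n d) : Vec n :=
  - (c r a • ev xi z) - ev (ch a b c) z

/-- the parametrization of the bad set -/
noncomputable def Psi (xi : Tup n d) (a b : Expo n d) (r s : Fin n) (c : Tup n d) : Tup n d :=
  fun i e => if e = a then
      (uu xi a b r (XX a r c) c i * mv b (XX b s c) - uu xi a b r (XX b s c) c i * mv b (XX a r c)) /
        DDt a b r s c
    else if e = b then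
      (mv a (XX a r c) * uu xi a b r (XX b s c) c i - mv a (XX b s c) * uu xi a b r (XX a r c) c i) /
        DDt a b r s c
    else c i e

theorem diff_XX (a : Expo n d) (r : Fin n) : Differentiable ℂ (XX (n := n) a r) := by
  rw [differentiable_pi]
  intro j
  unfold XX
  by_cases h : j = r
  · simp only [if_pos h]
    exact differentiable_const _
  · simp only [if_neg h]
    fun_prop

theorem diff_ch (a b : Expo n d) : Differentiable ℂ (ch (n := n) a b) := by
  rw [differentiable_pi]
  intro i
  rw [differentiable_pi]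
  intro e
  unfold ch
  by_cases h : e = a ∨ e = b
  · simp only [if_pos h]
    exact differentiable_const _
  · simp only [if_neg h]
    fun_prop

theorem diff_mv (e : Expo n d) : Differentiable ℂ (mv e : Vec n → ℂ) := by
  unfold mv
  fun_prop

theorem diff_ev2 {E : Type*} [NormedAddCommGroup E] [NormedSpace ℂ E] {f : E → Tup n d}
    {g : E → Vec n} (hf : Differentiable ℂ f) (hg : Differentiable ℂ g) :
    Differentiable ℂ (fun c => ev (f c) (g c)) := by
  have h := (contDiff_ev (n := n) (d := d)).differentiable (by simp)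
  exact h.comp (hf.prodMk hg)

theorem diff_uu (xi : Tup n d) (a b : Expo n d) (r : Fin n) {z : Tup n d → Vec n}
    (hz : Differentiable ℂ z) (i : Fin n) : Differentiable ℂ (fun c => uu xi a b r (z c) c i) := by
  have h1 : Differentiable ℂ (fun c : Tup n d => ev xi (z c)) :=
    diff_ev2 (differentiable_const _) hz
  have h2 : Differentiable ℂ (fun c : Tup n d => ev (ch a b c) (z c)) := diff_ev2 (diff_ch a b) hz
  have h3 : Differentiable ℂ (fun c : Tup n d => c r a) := by fun_prop
  have h4 : Differentiable ℂ (fun c => uu xi a b r (z c) c) := by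
    unfold uu
    exact (h3.smul h1).neg.sub h2
  exact (differentiable_pi.1 h4) i

theorem diff_Psi (xi : Tup n d) (a b : Expo n d) (r s : Fin n) (c : Tup n d)
    (hc : DDt a b r s c ≠ 0) : DifferentiableAt ℂ (Psi xi a b r s) c := by
  have hX := diff_XX (n := n) a r
  have hY := diff_XX (n := n) b s
  have haX : Differentiable ℂ (fun c : Tup n d => mv a (XX a r c)) := (diff_mv a).comp hX
  have hbX : Differentiable ℂ (fun c : Tup n d => mv b (XX a r c)) := (diff_mv b).comp hX
  have haY : Differentiable ℂ (fun c : Tup n d => mv a (XX b s c)) := (diff_mv a).comp hY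
  have hbY : Differentiable ℂ (fun c : Tup n d => mv b (XX b s c)) := (diff_mv b).comp hY
  have hD : Differentiable ℂ (DDt (n := n) a b r s) := by
    unfold DDt
    exact (haX.mul hbY).sub (hbX.mul haY)
  rw [differentiableAt_pi]
  intro i
  rw [differentiableAt_pi]
  intro e
  unfold Psi
  have hu := diff_uu xi a b r hX i
  have hv := diff_uu xi a b r hY i
  by_cases h1 : e = a
  · simp only [if_pos h1, div_eq_mul_inv]
    exact (((hu.mul hbY).sub (hv.mul hbX)) c).mul ((hD c).inv hc)
  · by_cases h2 : e = b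
    · simp only [if_neg h1, if_pos h2, div_eq_mul_inv]
      exact (((haX.mul hv).sub (haY.mul hu)) c).mul ((hD c).inv hc)
    · simp only [if_neg h1, if_neg h2]
      fun_prop

theorem Psi_const (xi : Tup n d) (a b : Expo n d) (r s : Fin n) (c : Tup n d) (hab : a ≠ b) (t : ℝ) :
    Psi xi a b r s (c + t • (Pi.single s (Pi.single b (1:ℂ)) : Tup n d)) = Psi xi a b r s c := by
  classical
  set v : Tup n d := Pi.single s (Pi.single b (1:ℂ)) with hv
  have hva : ∀ i, v i a = 0 := by
    intro i
    rw [hv]
    by_cases h : i = s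
    · subst h
      rw [Pi.single_eq_same, Pi.single_eq_of_ne hab]
    · rw [Pi.single_eq_of_ne h]; rfl
  have hvb : ∀ i, i ≠ s → v i b = 0 := by
    intro i hi
    rw [hv, Pi.single_eq_of_ne hi]; rfl
  have hve : ∀ i e, e ≠ b → v i e = 0 := by
    intro i e he
    rw [hv]
    by_cases h : i = s
    · subst h
      rw [Pi.single_eq_same, Pi.single_eq_of_ne he]
    · rw [Pi.single_eq_of_ne h]; rfl
  have hX : XX a r (c + t • v) = XX a r c := by
    funext j
    unfold XX
    by_cases h : j = r
    · rw [if_pos h, if_pos h]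
    · rw [if_neg h, if_neg h]
      show c j a + t • v j a = c j a
      rw [hva, smul_zero, add_zero]
  have hY : XX b s (c + t • v) = XX b s c := by
    funext j
    unfold XX
    by_cases h : j = s
    · rw [if_pos h, if_pos h]
    · rw [if_neg h, if_neg h]
      show c j b + t • v j b = c j b
      rw [hvb j h, smul_zero, add_zero]
  have hch : ch a b (c + t • v) = ch a b c := by
    funext i e
    unfold ch
    by_cases h : e = a ∨ e = b
    · rw [if_pos h, if_pos h]
    · rw [if_neg h, if_neg h]
      show c i e + t • v i e = c i e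
      rw [hve i e (by tauto), smul_zero, add_zero]
  have hra : (c + t • v) r a = c r a := by
    show c r a + t • v r a = c r a
    rw [hva, smul_zero, add_zero]
  have huu : ∀ z, uu xi a b r z (c + t • v) = uu xi a b r z c := by
    intro z
    unfold uu
    rw [hra, hch]
  have hDD : DDt a b r s (c + t • v) = DDt a b r s c := by
    unfold DDt
    rw [hX, hY]
  funext i e
  unfold Psi
  rw [hX, hY, hDD, huu, huu]
  by_cases h1 : e = a
  · rw [if_pos h1, if_pos h1]
  · by_cases h2 : e = b
    · rw [if_neg h1, if_pos h2, if_neg h1, if_pos h2]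
    · rw [if_neg h1, if_neg h2, if_neg h1, if_neg h2]
      show c i e + t • v i e = c i e
      rw [hve i e h2, smul_zero, add_zero]

theorem haar_Tup (n d : ℕ) : (volume : Measure (Tup n d)).IsAddHaarMeasure := by
  have : ∀ _ : Fin n, (volume : Measure (Expo n d → ℂ)).IsAddHaarMeasure := fun _ => inferInstance
  exact Measure.pi.isAddHaarMeasure (fun _ : Fin n => (volume : Measure (Expo n d → ℂ)))

theorem null_Psi (xi : Tup n d) (a b : Expo n d) (r s : Fin n) :
    (volume : Measure (Tup n d)) (Psi xi a b r s '' {c | DDt a b r s c ≠ 0}) = 0 := by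
  classical
  have := haar_Tup n d
  refine addHaar_image_eq_zero_of_det_fderivWithin_eq_zero volume
    (f' := fun c => fderiv ℝ (Psi xi a b r s) c) (fun c hc => ?_) (fun c hc => ?_)
  · exact ((diff_Psi xi a b r s c hc).restrictScalars ℝ).hasFDerivAt.hasFDerivWithinAt
  · have hab : a ≠ b := by
      rintro rfl
      apply hc
      unfold DDt
      ring
    have h1 : HasFDerivAt (Psi xi a b r s) (fderiv ℝ (Psi xi a b r s) c) c :=
      ((diff_Psi xi a b r s c hc).restrictScalars ℝ).hasFDerivAt
    have h2 := h1.hasLineDerivAt (Pi.single s (Pi.single b (1:ℂ)) : Tup n d)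
    unfold HasLineDerivAt at h2
    simp only [Psi_const xi a b r s c hab] at h2
    have h3 := h2.unique (hasDerivAt_const _ _)
    have h4 : (Pi.single s (Pi.single b (1:ℂ)) : Tup n d) ≠ 0 := by
      intro h
      have h5 := congrFun (congrFun h s) b
      rw [Pi.single_eq_same, Pi.single_eq_same] at h5
      exact one_ne_zero h5
    have h6 : LinearMap.ker ((fderiv ℝ (Psi xi a b r s) c : Tup n d →L[ℝ] Tup n d) : Tup n d →ₗ[ℝ] Tup n d) ≠ ⊥ := by
      rw [Submodule.ne_bot_iff]
      exact ⟨_, LinearMap.mem_ker.2 h3, h4⟩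
    exact LinearMap.det_eq_zero_iff_ker_ne_bot.2 h6

/-- the exponents of `X_i ^ (d - 1) * X_j` -/
noncomputable def mon (hd : 1 ≤ d) (i j : Fin n) : Expo n d :=
  ⟨fun k => ⟨(if k = i then d - 1 else 0) + (if k = j then 1 else 0), by split_ifs <;> omega⟩, by
    simp only [Finset.sum_add_distrib, Finset.sum_ite_eq', Finset.mem_univ, if_true]
    omega⟩

theorem mv_mon (hd : 1 ≤ d) (i j : Fin n) (x : Vec n) : mv (mon hd i j) x = x i ^ (d - 1) * x j := by
  unfold mv mon
  simp only [pow_add, Finset.prod_mul_distrib, pow_ite, pow_zero, pow_one, Finset.prod_ite_eq',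
    Finset.mem_univ, if_true]

theorem exists_pair (hd : 1 ≤ d) (x y : Vec n) (r s : Fin n) (hx : x r = 1) (hy : y s = 1)
    (hxy : ¬ ∃ a : ℂ, y = a • x) :
    ∃ a b : Expo n d, mv a x * mv b y - mv b x * mv a y ≠ 0 := by
  by_contra hcon
  push Not at hcon
  have h1 := hcon (mon hd s s) (mon hd r r)
  simp only [mv_mon, hx, hy, one_pow, one_mul, mul_one] at h1
  have hyr : y r ≠ 0 := by
    intro h
    rw [h, mul_zero, mul_zero, zero_sub] at h1
    exact one_ne_zero (neg_eq_zero.1 h1)
  apply hxy
  refine ⟨y r, ?_⟩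
  funext j
  have h2 := hcon (mon hd r j) (mon hd r r)
  simp only [mv_mon, hx, one_pow, one_mul] at h2
  have h3 : y r ^ (d - 1) * (x j * y r - y j) = 0 := by linear_combination h2
  rcases mul_eq_zero.1 h3 with h | h
  · exact absurd h (pow_ne_zero _ hyr)
  · rw [Pi.smul_apply, smul_eq_mul]
    linear_combination -h

theorem mem_image (xi g : Tup n d) (w : ℂ) (x y : Vec n) (r s : Fin n) (hx : x r = 1) (hy : y s = 1)
    (a b : Expo n d) (hD : mv a x * mv b y - mv b x * mv a y ≠ 0)
    (gx : ev (g + w • xi) x = 0) (gy : ev (g + w • xi) y = 0) :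
    g ∈ Psi xi a b r s '' {c | DDt a b r s c ≠ 0} := by
  classical
  have hab : a ≠ b := by
    rintro rfl
    apply hD
    ring
  set c : Tup n d := fun i e => if e = a then (if i = r then w else x i) else
    if e = b then y i else g i e with hc
  have hca : ∀ i, c i a = if i = r then w else x i := fun i => by
    rw [hc]; simp only [if_true]
  have hcb : ∀ i, c i b = y i := fun i => by
    rw [hc]; simp only [if_neg hab.symm, if_true]
  have hX : XX a r c = x := by
    funext j
    unfold XX
    by_cases h : j = r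
    · rw [if_pos h, h, hx]
    · rw [if_neg h, hca, if_neg h]
  have hY : XX b s c = y := by
    funext j
    unfold XX
    by_cases h : j = s
    · rw [if_pos h, h, hy]
    · rw [if_neg h, hcb]
  have hch : ch a b c = ch a b g := by
    funext i e
    unfold ch
    by_cases h : e = a ∨ e = b
    · rw [if_pos h, if_pos h]
    · rw [if_neg h, if_neg h, hc]
      push Not at h
      simp only [if_neg h.1, if_neg h.2]
  have hDD : DDt a b r s c = mv a x * mv b y - mv b x * mv a y := by
    unfold DDt
    rw [hX, hY]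
  have hcr : c r a = w := by rw [hca, if_pos rfl]
  have key : ∀ z, ev (g + w • xi) z = 0 → ∀ i, uu xi a b r z c i = g i a * mv a z + g i b * mv b z := by
    intro z hz i
    have h1 := congrFun hz i
    rw [ev_add, ev_smul, Pi.add_apply, ev_split a b hab g z i] at h1
    unfold uu
    rw [hch, hcr]
    have h2 : (w • ev xi z) i = w • ev xi z i := rfl
    rw [h2] at h1
    show -(w • ev xi z i) - ev (ch a b g) z i = _
    have h3 : (0 : Vec n) i = 0 := rfl
    rw [h3] at h1
    linear_combination -h1
  refine ⟨c, ?_, ?_⟩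
  · show DDt a b r s c ≠ 0
    rw [hDD]
    exact hD
  · funext i e
    unfold Psi
    rw [hX, hY, hDD, key x gx i, key y gy i]
    by_cases h1 : e = a
    · rw [if_pos h1, h1, div_eq_iff hD]
      ring
    · by_cases h2 : e = b
      · rw [if_neg h1, if_pos h2, h2, div_eq_iff hD]
        ring
      · rw [if_neg h1, if_neg h2, hc]
        simp only [if_neg h1, if_neg h2]

/-- Sard: for almost all `g` each `g + w ξ` has at most one zero -/
theorem generic_unique (hd : 1 ≤ d) (xi : Tup n d) :
    ∀ᵐ g : Tup n d, ∀ (w : ℂ) (x y : Vec n), x ≠ 0 → y ≠ 0 → ev (g + w • xi) x = 0 →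
      ev (g + w • xi) y = 0 → ∃ a : ℂ, y = a • x := by
  rw [ae_iff]
  have hnull : (volume : Measure (Tup n d)) (⋃ (a : Expo n d) (b : Expo n d) (r : Fin n) (s : Fin n),
      Psi xi a b r s '' {c | DDt a b r s c ≠ 0}) = 0 := by
    rw [measure_iUnion_null_iff]
    intro a
    rw [measure_iUnion_null_iff]
    intro b
    rw [measure_iUnion_null_iff]
    intro r
    rw [measure_iUnion_null_iff]
    intro s
    exact null_Psi xi a b r s
  refine measure_mono_null ?_ hnull
  intro g hg
  have hg' : ¬ ∀ (w : ℂ) (x y : Vec n), x ≠ 0 → y ≠ 0 → ev (g + w • xi) x = 0 →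
      ev (g + w • xi) y = 0 → ∃ a : ℂ, y = a • x := hg
  push Not at hg'
  obtain ⟨w, x, y, hx, hy, gx, gy, hxy⟩ := hg'
  obtain ⟨r, hr⟩ := Function.ne_iff.1 hx
  obtain ⟨s, hs⟩ := Function.ne_iff.1 hy
  have hr' : x r ≠ 0 := hr
  have hs' : y s ≠ 0 := hs
  have hx1 : ((x r)⁻¹ • x) r = 1 := inv_mul_cancel₀ hr'
  have hy1 : ((y s)⁻¹ • y) s = 1 := inv_mul_cancel₀ hs'
  have gx1 : ev (g + w • xi) ((x r)⁻¹ • x) = 0 := by rw [ev_smul_pt, gx, smul_zero]
  have gy1 : ev (g + w • xi) ((y s)⁻¹ • y) = 0 := by rw [ev_smul_pt, gy, smul_zero]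
  have hxy1 : ¬ ∃ a : ℂ, (y s)⁻¹ • y = a • ((x r)⁻¹ • x) := by
    rintro ⟨a, ha⟩
    apply hxy (y s * (a * (x r)⁻¹))
    rw [mul_smul, mul_smul, ← ha, smul_inv_smul₀ hs']
  obtain ⟨a, b, hab⟩ := exists_pair hd _ _ r s hx1 hy1 hxy1
  have := mem_image xi g w _ _ r s hx1 hy1 a b hab gx1 gy1
  simp only [Set.mem_iUnion]
  exact ⟨a, b, r, s, this⟩

end

end Pool.Agent.Helper819.PiOne.G2x
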