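import Mathlib

set_option autoImplicit false

open Topology unitInterval

namespace Pool.Agent.Helper819.PiOne

theorem aux_sc : SimplyConnectedSpace I := by
  have h : ContractibleSpace I := (convex_Icc (0:ℝ) 1).contractibleSpace ⟨0, by simp⟩
  infer_instance

/-- the straight path in the interval -/
def segI (a b : I) : Path a b where
  toFun t := ⟨(1 - (t:ℝ)) * a + t * b, by
    have h1 := t.2.1
    have h2 := t.2.2
    have a1 := a.2.1
    have a2 := a.2.2
    have b1 := b.2.1
    have b2 := b.2.2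
    constructor
    · have : 0 ≤ 1 - (t:ℝ) := by linarith
      positivity
    · nlinarith⟩
  continuous_toFun := by
    refine Continuous.subtype_mk ?_ _
    fun_prop
  source' := by
    apply Subtype.ext
    simp
  target' := by
    apply Subtype.ext
    simp

theorem segI_mem (a b : I) (hab : a ≤ b) (t : I) : segI a b t ∈ Set.Icc a b := by
  have h1 := t.2.1
  have h2 := t.2.2
  have h3 : (a:ℝ) ≤ b := hab
  have e : ((segI a b t : I) : ℝ) = (1 - (t:ℝ)) * a + t * b := rfl
  constructor
  · show (a:ℝ) ≤ ((segI a b t : I) : ℝ)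
    rw [e]
    nlinarith
  · show ((segI a b t : I) : ℝ) ≤ b
    rw [e]
    nlinarith

section
variable {X M : Type*} [TopologicalSpace X] [TopologicalSpace M] (q : X → M)
    (hq : Continuous q) (m0 : M) (κ : ∀ x : X, Path m0 (q x)) (g : C(I, X))

/-- transport along a piece -/
def QQ (a b : I) : Prop := ∀ ss : Path a b,
  ((κ (g a)).trans ((ss.map g.continuous).map hq)).Homotopic (κ (g b))

theorem QQ_of_one (a b : I) (pp : Path a b)
    (h : ((κ (g a)).trans ((pp.map g.continuous).map hq)).Homotopic (κ (g b))) :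
    QQ q hq m0 κ g a b := by
  intro ss
  have := aux_sc
  have h1 : ss.Homotopic pp := SimplyConnectedSpace.paths_homotopic ss pp
  have h2 : (ss.map g.continuous).Homotopic (pp.map g.continuous) := h1.map g
  have h3 : ((ss.map g.continuous).map hq).Homotopic ((pp.map g.continuous).map hq) :=
    h2.map ⟨q, hq⟩
  exact (Path.Homotopic.hcomp (Path.Homotopic.refl _) h3).trans h

theorem QQ_trans (a b c : I) (h1 : QQ q hq m0 κ g a b) (h2 : QQ q hq m0 κ g b c) :
    QQ q hq m0 κ g a c := by
  apply QQ_of_one q hq m0 κ g a c ((segI a b).trans (segI b c))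
  rw [Path.map_trans, Path.map_trans]
  refine (Path.Homotopic.trans_assoc _ _ _).symm.trans ?_
  exact (Path.Homotopic.hcomp (h1 (segI a b)) (Path.Homotopic.refl _)).trans (h2 (segI b c))

theorem QQ_refl (a : I) : QQ q hq m0 κ g a a := by
  apply QQ_of_one q hq m0 κ g a a (Path.refl a)
  have e : ((Path.refl a).map g.continuous).map hq = Path.refl (q (g a)) := by
    ext t
    rfl
  rw [e]
  exact ⟨Path.Homotopy.transRefl _⟩

theorem QQ_all (hloc : ∀ x : X, ∃ O ∈ 𝓝 x, ∀ y z : X, ∀ γ : Path y z, (∀ t, γ t ∈ O) →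
      ((κ y).trans (γ.map hq)).Homotopic (κ z)) : QQ q hq m0 κ g 0 1 := by
  choose O hO hloc' using hloc
  obtain ⟨t, ht0, htm, ⟨N, hN⟩, hcov⟩ := exists_monotone_Icc_subset_open_cover_unitInterval
    (c := fun x : X => g ⁻¹' (interior (O x)))
    (fun x => isOpen_interior.preimage g.continuous)
    (fun s _ => Set.mem_iUnion.mpr ⟨g s, mem_interior_iff_mem_nhds.mpr (hO (g s))⟩)
  have hind : ∀ n, QQ q hq m0 κ g 0 (t n) := by
    intro n
    induction n with
    | zero => rw [ht0]; exact QQ_refl q hq m0 κ g 0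
    | succ n ih =>
      refine QQ_trans q hq m0 κ g 0 (t n) (t (n + 1)) ih ?_
      apply QQ_of_one q hq m0 κ g (t n) (t (n + 1)) (segI (t n) (t (n + 1)))
      obtain ⟨x, hx⟩ := hcov n
      apply hloc' x
      intro s
      have h1 := segI_mem (t n) (t (n + 1)) (htm (Nat.le_succ n)) s
      exact interior_subset (hx h1)
  have := hind N
  rwa [hN N le_rfl] at this

end

theorem transport_aux {X M : Type*} [TopologicalSpace X] [TopologicalSpace M] (q : X → M)
    (hq : Continuous q) (m0 : M) (κ : ∀ x : X, Path m0 (q x))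
    (hloc : ∀ x : X, ∃ O ∈ 𝓝 x, ∀ y z : X, ∀ γ : Path y z, (∀ t, γ t ∈ O) →
      ((κ y).trans (γ.map hq)).Homotopic (κ z)) (g : C(I, X)) (x y : X) (hx : g 0 = x)
    (hy : g 1 = y) (γ : Path x y) (hγ : ∀ t, γ t = g t) :
    ((κ x).trans (γ.map hq)).Homotopic (κ y) := by
  subst hx
  subst hy
  have h := QQ_all q hq m0 κ g hloc
  let ss : Path (0 : I) 1 :=
    { toFun := id
      continuous_toFun := continuous_id
      source' := rfl
      target' := rfl }
  have h2 := h ss
  have e : ss.map g.continuous = γ := by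
    ext t
    rw [hγ]
    rfl
  rw [e] at h2
  exact h2

theorem transport {X M : Type*} [TopologicalSpace X] [TopologicalSpace M] (q : X → M)
    (hq : Continuous q) (m0 : M) (κ : ∀ x : X, Path m0 (q x))
    (hloc : ∀ x : X, ∃ O ∈ 𝓝 x, ∀ y z : X, ∀ γ : Path y z, (∀ t, γ t ∈ O) →
      ((κ y).trans (γ.map hq)).Homotopic (κ z)) :
    ∀ x y : X, ∀ γ : Path x y, ((κ x).trans (γ.map hq)).Homotopic (κ y) := by
  intro x y γ
  exact transport_aux q hq m0 κ hloc γ.toContinuousMap x y γ.source γ.target γ (fun _ => rfl)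

theorem transport_unique {X M : Type*} [TopologicalSpace X] [TopologicalSpace M] (q : X → M)
    (hq : Continuous q) (m0 : M) (κ : ∀ x : X, Path m0 (q x))
    (hloc : ∀ x : X, ∃ O ∈ 𝓝 x, ∀ y z : X, ∀ γ : Path y z, (∀ t, γ t ∈ O) →
      ((κ y).trans (γ.map hq)).Homotopic (κ z)) :
    ∀ x y : X, ∀ γ γ' : Path x y, (γ.map hq).Homotopic (γ'.map hq) := by
  intro x y γ γ'
  have h1 := transport q hq m0 κ hloc x y γ
  have h2 := transport q hq m0 κ hloc x y γ'
  have h3 : ((κ x).trans (γ.map hq)).Homotopic ((κ x).trans (γ'.map hq)) := h1.trans h2.symm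
  have key : ∀ δ : Path (q x) (q y), δ.Homotopic ((κ x).symm.trans ((κ x).trans δ)) := by
    intro δ
    have a1 : ((Path.refl (q x)).trans δ).Homotopic δ := ⟨Path.Homotopy.reflTrans δ⟩
    have a2 : (Path.refl (q x)).Homotopic ((κ x).symm.trans (κ x)) :=
      ⟨Path.Homotopy.reflSymmTrans (κ x)⟩
    have a3 := Path.Homotopic.hcomp a2 (Path.Homotopic.refl δ)
    exact a1.symm.trans (a3.trans (Path.Homotopic.trans_assoc _ _ _))
  have h4 := Path.Homotopic.hcomp (Path.Homotopic.refl (κ x).symm) h3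
  exact (key _).trans (h4.trans (key _).symm)

end Pool.Agent.Helper819.PiOne
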