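import Mathlib

set_option autoImplicit false

open Topology unitInterval

namespace Pool.Agent.Helper819.PiOne

/-- removing finitely many punctures away from a closed set -/
theorem fill_aux {M : Type*} [TopologicalSpace M] (Kc : Set ℂ) (hKc : IsClosed Kc)
    (R : Set ℂ) (hR : R.Finite) :
    ∀ κ : ℂ → M, ContinuousOn κ Rᶜ →
    (∀ z0 ∈ R, ∀ δ : ℝ, 0 < δ → ∃ ε : ℝ, 0 < ε ∧ ε < δ ∧ ∃ Γ : ℂ → M,
      ContinuousOn Γ (Metric.closedBall z0 ε) ∧ ∀ z : ℂ, ‖z - z0‖ = ε → Γ z = κ z) →
    (∀ z ∈ Kc, z ∉ R) → ∃ K : ℂ → M, Continuous K ∧ ∀ z ∈ Kc, K z = κ z := by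
  classical
  induction R, hR using Set.Finite.induction_on with
  | empty =>
    intro κ hκ _ _
    refine ⟨κ, ?_, fun _ _ => rfl⟩
    rwa [Set.compl_empty, continuousOn_univ] at hκ
  | @insert z0 R' hz0 hR' ih =>
    intro κ hκ hfill hdisj
    have hcl : IsClosed (R' ∪ Kc) := hR'.isClosed.union hKc
    have hz0n : z0 ∈ (R' ∪ Kc)ᶜ := by
      rw [Set.mem_compl_iff, Set.mem_union, not_or]
      exact ⟨hz0, fun h => hdisj z0 h (Set.mem_insert _ _)⟩
    obtain ⟨δ, hδ, hball⟩ := Metric.isOpen_iff.mp hcl.isOpen_compl z0 hz0n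
    obtain ⟨ε, hε, hεδ, Γ, hΓ, hΓκ⟩ := hfill z0 (Set.mem_insert _ _) δ hδ
    have hout : ∀ z ∈ R' ∪ Kc, δ ≤ ‖z - z0‖ := by
      intro z hz
      by_contra hlt
      have hlt' : ‖z - z0‖ < δ := not_le.mp hlt
      have : z ∈ Metric.ball z0 δ := by
        rw [Metric.mem_ball, dist_eq_norm]
        exact hlt'
      exact hball this hz
    set κ' : ℂ → M := fun z => if ‖z - z0‖ ≤ ε then Γ z else κ z with hκ'
    have hκ'B : ∀ z : ℂ, ε ≤ ‖z - z0‖ → κ' z = κ z := by
      intro z hz
      by_cases h : ‖z - z0‖ ≤ ε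
      · have he : ‖z - z0‖ = ε := le_antisymm h hz
        simp only [hκ', if_pos h]
        exact hΓκ z he
      · simp only [hκ', if_neg h]
    have hκ'A : ∀ z : ℂ, ‖z - z0‖ ≤ ε → κ' z = Γ z := by
      intro z hz
      simp only [hκ', if_pos hz]
    have hcont : ContinuousOn κ' R'ᶜ := by
      intro z hz
      have hA : ContinuousWithinAt κ' (Metric.closedBall z0 ε) z := by
        by_cases hzA : z ∈ Metric.closedBall z0 ε
        · refine (hΓ z hzA).congr (fun w hw => ?_) ?_
          · rw [Metric.mem_closedBall, dist_eq_norm] at hw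
            exact hκ'A w hw
          · rw [Metric.mem_closedBall, dist_eq_norm] at hzA
            exact hκ'A z hzA
        · refine continuousWithinAt_of_notMem_closure ?_
          rwa [Metric.isClosed_closedBall.closure_eq]
      have hBcl : IsClosed {w : ℂ | ε ≤ ‖w - z0‖} :=
        isClosed_le continuous_const (continuous_id.sub continuous_const).norm
      have hB : ContinuousWithinAt κ' {w : ℂ | ε ≤ ‖w - z0‖} z := by
        by_cases hzB : z ∈ {w : ℂ | ε ≤ ‖w - z0‖}
        · have hzB' : ε ≤ ‖z - z0‖ := hzB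
          have hzi : z ∈ (insert z0 R')ᶜ := by
            rw [Set.mem_compl_iff, Set.mem_insert_iff, not_or]
            refine ⟨?_, hz⟩
            rintro rfl
            rw [sub_self, norm_zero] at hzB'
            linarith
          have hop : IsOpen (insert z0 R')ᶜ := (hR'.insert z0).isClosed.isOpen_compl
          have h1 : ContinuousAt κ z := hκ.continuousAt (hop.mem_nhds hzi)
          refine h1.continuousWithinAt.congr (fun w hw => hκ'B w hw) (hκ'B z hzB')
        · refine continuousWithinAt_of_notMem_closure ?_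
          rwa [hBcl.closure_eq]
      have hU := hA.union hB
      have huniv : Metric.closedBall z0 ε ∪ {w : ℂ | ε ≤ ‖w - z0‖} = Set.univ := by
        ext w
        simp only [Set.mem_union, Metric.mem_closedBall, dist_eq_norm, Set.mem_univ, iff_true]
        exact le_total _ _
      rw [huniv] at hU
      exact hU.mono (Set.subset_univ _)
    obtain ⟨K, hK, hKeq⟩ := ih κ' hcont (by
      intro z1 hz1 δ' hδ'
      have h1 : δ ≤ ‖z1 - z0‖ := hout z1 (Or.inl hz1)
      have h2 : 0 < min δ' (‖z1 - z0‖ - ε) := lt_min hδ' (by linarith)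
      obtain ⟨ε', hε', hε'δ, Γ', hΓ', hΓκ'⟩ := hfill z1 (Set.mem_insert_of_mem _ hz1) _ h2
      refine ⟨ε', hε', lt_of_lt_of_le hε'δ (min_le_left _ _), Γ', hΓ', ?_⟩
      intro z hz
      rw [hΓκ' z hz]
      have h3 : ε' < ‖z1 - z0‖ - ε := lt_of_lt_of_le hε'δ (min_le_right _ _)
      have h4 : ‖z1 - z0‖ ≤ ‖z1 - z‖ + ‖z - z0‖ := by
        have : z1 - z0 = (z1 - z) + (z - z0) := by ring
        rw [this]
        exact norm_add_le _ _
      rw [norm_sub_rev] at hz
      exact (hκ'B z (by linarith)).symm) (fun z hz h => hdisj z hz (Set.mem_insert_of_mem _ h))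
    refine ⟨K, hK, fun z hz => ?_⟩
    rw [hKeq z hz]
    have := hout z (Or.inr hz)
    exact hκ'B z (by linarith)

theorem fill_loop {M : Type*} [TopologicalSpace M] (K : ℂ → M) (hK : Continuous K)
    (a : ℂ) (c : Path a a) (b : M) (hb : b = K a) (p : Path b b) (hp : ∀ t, p t = K (c t)) :
    p.Homotopic (Path.refl b) := by
  subst hb
  have h1 : c.Homotopic (Path.refl a) := SimplyConnectedSpace.paths_homotopic c (Path.refl a)
  have h2 := h1.map ⟨K, hK⟩
  have e1 : c.map hK = p := by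
    ext t
    rw [hp t]
    rfl
  have e2 : (Path.refl a).map hK = Path.refl (K a) := by
    ext t
    rfl
  have h3 : (c.map hK).Homotopic ((Path.refl a).map hK) := h2
  rwa [e1, e2] at h3

/-- If the small circles around the finitely many punctures of `κ : ℂ \ R → M` extend over
discs, then all loops in `ℂ \ R` are null-homotopic in `M`. -/
theorem fill {M : Type*} [TopologicalSpace M] (R : Set ℂ) (hR : R.Finite) (κ : ℂ → M)
    (hκ : ContinuousOn κ Rᶜ)
    (hfill : ∀ z0 ∈ R, ∀ δ : ℝ, 0 < δ → ∃ ε : ℝ, 0 < ε ∧ ε < δ ∧ ∃ Γ : ℂ → M,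
      ContinuousOn Γ (Metric.closedBall z0 ε) ∧ ∀ z : ℂ, ‖z - z0‖ = ε → Γ z = κ z)
    (a : ℂ) (c : Path a a) (hc : ∀ t, c t ∉ R) (p : Path (κ a) (κ a)) (hp : ∀ t, p t = κ (c t)) :
    p.Homotopic (Path.refl (κ a)) := by
  have hcl : IsClosed (Set.range c) := (isCompact_range c.continuous).isClosed
  obtain ⟨K, hK, hKeq⟩ := fill_aux (Set.range c) hcl R hR κ hκ hfill (by
    rintro _ ⟨t, rfl⟩
    exact hc t)
  refine fill_loop K hK a c (κ a) ?_ p (fun t => ?_)
  · exact (hKeq a ⟨0, c.source⟩).symm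
  · rw [hp t, hKeq (c t) ⟨t, rfl⟩]


end Pool.Agent.Helper819.PiOne
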