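import Mathlib

set_option autoImplicit false

open Topology

namespace Pool.Agent.Helper819.PiOne

/-- (available: proved elsewhere) -/
def FillStmt : Prop := ∀ (M : Type) [TopologicalSpace M] (R : Set ℂ) (_ : R.Finite) (κ : ℂ → M)
    (_ : ContinuousOn κ Rᶜ)
    (_ : ∀ z0 ∈ R, ∀ δ : ℝ, 0 < δ → ∃ ε : ℝ, 0 < ε ∧ ε < δ ∧ ∃ Γ : ℂ → M,
      ContinuousOn Γ (Metric.closedBall z0 ε) ∧ ∀ z : ℂ, ‖z - z0‖ = ε → Γ z = κ z)
    (a : ℂ) (c : Path a a) (_ : ∀ t, c t ∉ R) (p : Path (κ a) (κ a)) (_ : ∀ t, p t = κ (c t)),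
    p.Homotopic (Path.refl (κ a))

/-- loops on complex lines through the base point are null-homotopic -/
theorem line_loops_null (hF : FillStmt) {V M : Type} [NormedAddCommGroup V] [NormedSpace ℂ V]
    [TopologicalSpace M] (q : V → M) (U : Set V) (hU : IsOpen U) (hq : ContinuousOn q U) (p0 : V)
    (hp0 : p0 ∈ U) (D : Set V) (hD : Dense D)
    (hfin : ∀ g ∈ D, {z : ℂ | p0 + z • g ∉ U}.Finite)
    (hfill : ∀ g ∈ D, ∀ z0 : ℂ, p0 + z0 • g ∉ U → ∀ δ : ℝ, 0 < δ → ∃ ε : ℝ, 0 < ε ∧ ε < δ ∧
      ∃ Γ : ℂ → M, ContinuousOn Γ (Metric.closedBall z0 ε) ∧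
        ∀ z : ℂ, ‖z - z0‖ = ε → Γ z = q (p0 + z • g))
    (g : V) (c : Path (0 : ℂ) 0) (hc : ∀ t, p0 + c t • g ∈ U) (p : Path (q p0) (q p0))
    (hp : ∀ t, p t = q (p0 + c t • g)) : p.Homotopic (Path.refl (q p0)) := by
  classical
  -- tube
  have hopen : IsOpen {x : unitInterval × V | p0 + c x.1 • x.2 ∈ U} := by
    apply hU.preimage
    exact continuous_const.add ((c.continuous.comp continuous_fst).smul continuous_snd)
  obtain ⟨u, v, hu, hv, hsu, htv, huv⟩ := generalized_tube_lemma (isCompact_univ (X := unitInterval))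
    (isCompact_singleton (x := g)) hopen (by
      rintro ⟨t, g'⟩ ⟨_, hg'⟩
      rw [Set.mem_singleton_iff] at hg'
      subst hg'
      exact hc t)
  have hgv : g ∈ v := htv rfl
  obtain ⟨δ, hδ, hball⟩ := Metric.isOpen_iff.mp hv g hgv
  have hin : ∀ (t : unitInterval) (g' : V), ‖g' - g‖ < δ → p0 + c t • g' ∈ U := by
    intro t g' hg'
    have h1 : (t, g') ∈ u ×ˢ v := ⟨hsu (Set.mem_univ t), hball (by rwa [Metric.mem_ball, dist_eq_norm])⟩
    exact huv h1
  obtain ⟨g2, hg2D, hg2⟩ := Metric.dense_iff.mp hD g δ hδ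
  have hg2n : ‖g2 - g‖ < δ := by
    have := hg2D
    rwa [Metric.mem_ball, dist_eq_norm] at this
  have hg2D : g2 ∈ D := hg2
  have hin2 : ∀ t, p0 + c t • g2 ∈ U := fun t => hin t g2 hg2n
  have hc0 : c 0 = 0 := c.source
  have hc1 : c 1 = 0 := c.target
  let p2 : Path (q p0) (q p0) :=
    { toFun := fun t => q (p0 + c t • g2)
      continuous_toFun := by
        apply hq.comp_continuous _ hin2
        exact continuous_const.add (c.continuous.smul continuous_const)
      source' := by simp [hc0]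
      target' := by simp [hc1] }
  have hp2 : ∀ t, p2 t = q (p0 + c t • g2) := fun t => rfl
  have hH : p.Homotopic p2 := by
    refine ⟨{ toFun := fun x => q (p0 + c x.2 • (g + (((x.1 : unitInterval) : ℝ) : ℂ) • (g2 - g)))
              continuous_toFun := ?_
              map_zero_left := ?_
              map_one_left := ?_
              prop' := ?_ }⟩
    · apply hq.comp_continuous
      · apply continuous_const.add
        apply (c.continuous.comp continuous_snd).smul
        apply continuous_const.add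
        apply Continuous.smul _ continuous_const
        exact Complex.continuous_ofReal.comp (continuous_subtype_val.comp continuous_fst)
      · intro x
        apply hin
        rw [add_sub_cancel_left, norm_smul]
        have h1 : ‖(((x.1 : unitInterval) : ℝ) : ℂ)‖ ≤ 1 := by
          rw [Complex.norm_real, Real.norm_of_nonneg x.1.2.1]
          exact x.1.2.2
        calc ‖(((x.1 : unitInterval) : ℝ) : ℂ)‖ * ‖g2 - g‖ ≤ 1 * ‖g2 - g‖ :=
              mul_le_mul_of_nonneg_right h1 (norm_nonneg _)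
          _ < δ := by rwa [one_mul]
    · intro t
      simp [hp]
    · intro t
      simp [hp2]
    · intro s t ht
      rcases ht with ht | ht
      · subst ht
        simp [hp, hc0]
      · rw [Set.mem_singleton_iff] at ht
        subst ht
        simp [hp, hc1]
  refine hH.trans ?_
  have key : ∀ (κ : ℂ → M) (_ : κ = fun z => q (p0 + z • g2)) (b : M) (_ : κ 0 = b) (P : Path b b)
      (_ : ∀ t, P t = κ (c t)), P.Homotopic (Path.refl b) := by
    rintro κ hκ b rfl P hP
    refine hF M {z : ℂ | p0 + z • g2 ∉ U} (hfin g2 hg2D) κ ?_ ?_ 0 c ?_ P hP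
    · subst hκ
      apply hq.comp
      · exact (continuous_const.add (continuous_id.smul continuous_const)).continuousOn
      · intro z hz
        simp only [Set.mem_compl_iff, Set.mem_setOf_eq, not_not] at hz
        exact hz
    · intro z0 hz0 δ' hδ'
      obtain ⟨ε, h1, h2, Γ, h3, h4⟩ := hfill g2 hg2D z0 hz0 δ' hδ'
      refine ⟨ε, h1, h2, Γ, h3, ?_⟩
      intro z hz
      rw [hκ]
      exact h4 z hz
    · intro t
      simp only [Set.mem_setOf_eq, not_not]
      exact hin2 t
  exact key (fun z => q (p0 + z • g2)) rfl (q p0) (by simp) p2 hp2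

end Pool.Agent.Helper819.PiOne
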