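import Pool.Agent.Helper819.Pi.Base3
import Pool.Agent.Helper819.Pi.Avail

set_option autoImplicit false

open MvPolynomial

namespace Pool.Agent.Helper819.PiOne



section

variable {n d : ℕ}



/-- the multiplication map in degree `k` -/
noncomputable def mulMap (n k e : ℕ) (P : Fin n → MvPolynomial (Fin n) ℂ) :
    (Fin n → homogeneousSubmodule (Fin n) ℂ e) →ₗ[ℂ] (Expo n k → ℂ) where
  toFun a m := coeff (fexp m) (∑ i, (a i : MvPolynomial (Fin n) ℂ) * P i)
  map_add' a b := by
    funext m
    simp only [Pi.add_apply, Submodule.coe_add, add_mul, Finset.sum_add_distrib, coeff_add]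
  map_smul' t a := by
    funext m
    simp only [Pi.smul_apply, SetLike.val_smul, smul_mul_assoc, ← Finset.smul_sum, coeff_smul,
      RingHom.id_apply, smul_eq_mul]

theorem mulMap_add_smul (n k e : ℕ) (P Q : Fin n → MvPolynomial (Fin n) ℂ) (z : ℂ) :
    mulMap n k e P + z • mulMap n k e Q = mulMap n k e (fun i => P i + z • Q i) := by
  apply LinearMap.ext
  intro a
  funext m
  change coeff (fexp m) (∑ i, (a i : MvPolynomial (Fin n) ℂ) * P i) +
    z • coeff (fexp m) (∑ i, (a i : MvPolynomial (Fin n) ℂ) * Q i) =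
    coeff (fexp m) (∑ i, (a i : MvPolynomial (Fin n) ℂ) * (P i + z • Q i))
  simp only [mul_add, Finset.sum_add_distrib, coeff_add, mul_smul_comm, ← Finset.smul_sum, coeff_smul]

/-- complex lines through the power map meet the resultant hypersurface in finitely many points -/
theorem line_finite (hF : FiniteNotSurjStmt) (hd : 1 ≤ d) (g : Tup n d) :
    {z : ℂ | ¬ IsMor (pw n d + z • g)}.Finite := by
  classical
  rcases Nat.eq_zero_or_pos n with hn | hn
  · subst hn
    have : {z : ℂ | ¬ IsMor (pw 0 d + z • g)} = ∅ := by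
      ext z
      simp only [Set.mem_setOf_eq, Set.mem_empty_iff_false, iff_false, not_not]
      intro x _
      exact Subsingleton.elim _ _
    rw [this]
    exact Set.finite_empty
  obtain ⟨k, hk⟩ : ∃ k, k = n * (d - 1) + 1 := ⟨_, rfl⟩
  have hdk : d ≤ k := by
    rw [hk]
    have : 1 * (d - 1) ≤ n * (d - 1) := Nat.mul_le_mul_right _ hn
    omega
  have hsurj : Function.Surjective (mulMap n k (k - d) (fun i => (X i : MvPolynomial (Fin n) ℂ) ^ d)) := by
    rw [← LinearMap.range_eq_top, eq_top_iff]
    intro w _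
    have hw : w = ∑ m : Expo n k, w m • (Pi.single m (1 : ℂ) : Expo n k → ℂ) := by
      funext m
      simp [Finset.sum_apply, Pi.single_apply]
    rw [hw]
    apply Submodule.sum_mem
    intro m _
    apply Submodule.smul_mem
    obtain ⟨i, hi⟩ : ∃ i, d ≤ (m.1 i : ℕ) := by
      by_contra hno
      push Not at hno
      have h1 : ∑ j, (m.1 j : ℕ) ≤ ∑ _j : Fin n, (d - 1) :=
        Finset.sum_le_sum (fun j _ => by have := hno j; omega)
      rw [m.2] at h1
      simp at h1
      omega
    obtain ⟨e, he⟩ : ∃ e : Fin n →₀ ℕ, e + Finsupp.single i d = fexp m := by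
      refine ⟨fexp m - Finsupp.single i d, ?_⟩
      apply tsub_add_cancel_of_le
      rw [Finsupp.single_le_iff]
      simpa [fexp] using hi
    have hdeg : (monomial e (1 : ℂ)).IsHomogeneous (k - d) := by
      apply isHomogeneous_monomial
      have h1 : (e + Finsupp.single i d).degree = (fexp m).degree := by rw [he]
      have h2 : (fexp m).degree = k := by
        rw [Finsupp.degree_eq_sum]
        simpa [fexp] using m.2
      rw [map_add, h2] at h1
      have h3 : (Finsupp.single i d).degree = d := by simp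
      rw [h3] at h1
      omega
    refine ⟨Pi.single i ⟨monomial e 1, hdeg⟩, ?_⟩
    funext m'
    change coeff (fexp m') (∑ j, ((Pi.single i (⟨monomial e 1, hdeg⟩ : homogeneousSubmodule (Fin n) ℂ (k - d)) :
      Fin n → homogeneousSubmodule (Fin n) ℂ (k - d)) j : MvPolynomial (Fin n) ℂ) * X j ^ d) = _
    rw [Finset.sum_eq_single i]
    · rw [Pi.single_eq_same]
      change coeff (fexp m') (monomial e (1 : ℂ) * X i ^ d) = _
      rw [X_pow_eq_monomial, monomial_mul, one_mul, he, coeff_monomial, Pi.single_apply]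
      by_cases h : m' = m
      · subst h; simp
      · rw [if_neg h, if_neg]
        intro h'
        exact h (fexp_inj h'.symm)
    · intro j _ hj
      rw [Pi.single_eq_of_ne hj]
      simp
    · intro h
      exact absurd (Finset.mem_univ i) h
  apply (hF _ _ (mulMap n k (k - d) (fun i => (X i : MvPolynomial (Fin n) ℂ) ^ d))
    (mulMap n k (k - d) (toPoly g)) hsurj).subset
  intro z hz hs
  apply hz
  intro x hx
  rw [mulMap_add_smul] at hs
  have hP : ∀ i, (X i ^ d + z • toPoly g i : MvPolynomial (Fin n) ℂ).IsHomogeneous d := by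
    intro i
    apply IsHomogeneous.add (isHomogeneous_X_pow i d)
    rw [smul_eq_C_mul]
    have := (isHomogeneous_C (Fin n) z).mul (toPoly_homogeneous g i)
    rwa [zero_add] at this
  have hPx : ∀ i, eval x (X i ^ d + z • toPoly g i) = 0 := by
    intro i
    have h1 := congrFun hx i
    rw [ev_add, ev_smul, Pi.add_apply, Pi.smul_apply, ev_pw] at h1
    rw [map_add, map_pow, eval_X, smul_eval, eval_toPoly]
    exact h1
  funext j
  have hm0 : ∃ m0 : Expo n k, ∀ l, (m0.1 l : ℕ) = if l = j then k else 0 := by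
    refine ⟨⟨fun l => if l = j then ⟨k, by omega⟩ else ⟨0, by omega⟩, ?_⟩, ?_⟩
    · have : ∀ l : Fin n, (((if l = j then (⟨k, by omega⟩ : Fin (k + 1)) else ⟨0, by omega⟩) : Fin (k + 1)) : ℕ) =
        if l = j then k else 0 := by
        intro l; split_ifs <;> rfl
      simp only [this]
      simp
    · intro l
      change (((if l = j then (⟨k, by omega⟩ : Fin (k + 1)) else ⟨0, by omega⟩) : Fin (k + 1)) : ℕ) = _
      split_ifs <;> rfl
  obtain ⟨m0, hm0⟩ := hm0
  obtain ⟨a, ha⟩ := hs (Pi.single m0 1)
  obtain ⟨F, hFdef⟩ : ∃ F : MvPolynomial (Fin n) ℂ,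
      F = ∑ i, (a i : MvPolynomial (Fin n) ℂ) * (X i ^ d + z • toPoly g i) := ⟨_, rfl⟩
  have hFhom : F.IsHomogeneous k := by
    rw [hFdef]
    apply IsHomogeneous.sum
    intro i _
    have := ((mem_homogeneousSubmodule _ _).1 (a i).2).mul (hP i)
    rwa [Nat.sub_add_cancel hdk] at this
  have hFx : eval x F = 0 := by
    rw [hFdef, map_sum]
    apply Finset.sum_eq_zero
    intro i _
    rw [map_mul, hPx i, mul_zero]
  have hF2 := ev_ofPoly (n := n) (d := k) (fun _ => F) (fun _ => hFhom) x j
  rw [hFx] at hF2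
  have hcoef : ∀ m : Expo n k, coeff (fexp m) F = (Pi.single m0 1 : Expo n k → ℂ) m := by
    intro m
    rw [← ha, hFdef]
    rfl
  have hF3 : ev (ofPoly (fun _ => F) : Tup n k) x j = x j ^ k := by
    change ∑ m : Expo n k, coeff (fexp m) F * ∏ l, x l ^ (m.1 l : ℕ) = _
    rw [Finset.sum_eq_single m0]
    · rw [hcoef, Pi.single_eq_same, one_mul, Finset.prod_eq_single j]
      · rw [hm0, if_pos rfl]
      · intro l _ hl
        rw [hm0, if_neg hl, pow_zero]
      · intro h
        exact absurd (Finset.mem_univ j) h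
    · intro m _ hm
      rw [hcoef, Pi.single_eq_of_ne hm, zero_mul]
    · intro h
      exact absurd (Finset.mem_univ m0) h
  rw [hF3] at hF2
  have : k ≠ 0 := by omega
  simpa using (pow_eq_zero_iff this).1 hF2

end

end Pool.Agent.Helper819.PiOne
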