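import Pool.Agent.Helper819.Pi.Null
import Pool.Agent.Helper819.Pi.Base4
import Pool.Agent.Helper819.Pi.G1
import Pool.Agent.Helper819.Pi.G2
import Pool.Agent.Helper819.Pi.M5
import Pool.Agent.Helper819.Pi.LL
import Pool.Agent.Helper819.Pi.CA
import Pool.Agent.Helper819.Pi.J1
import Pool.Agent.Helper819.Pi.J3

set_option autoImplicit false

open Topology

namespace Pool.Agent.Helper819.PiOne

variable {n d : ℕ}

/-- the generic directions -/
def GenDir (n d : ℕ) : Set (Tup n d) :=
  {g | ∀ z : ℂ, ¬ IsMor (pw n d + z • g) → ∃ x : Vec n, InT (pw n d + z • g) g x}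

theorem fderiv_ev_smul (t : ℂ) (c : Tup n d) (x y : Vec n) :
    fderiv ℂ (ev (t • c)) x y = t • fderiv ℂ (ev c) x y := by
  have : ev (t • c) = t • ev c := by
    funext y
    exact ev_smul t c y
  rw [this, fderiv_const_smul (differentiable_ev c x)]
  rfl

theorem dense_genDir (hd : 1 ≤ d) : Dense (GenDir n d) := by
  have h1 := generic_nondeg (n := n) hd (pw n d)
  have h2 := G2x.generic_unique (n := n) hd (pw n d)
  have hh := G2x.haar_Tup n d
  refine MeasureTheory.Measure.dense_of_ae (μ := (MeasureTheory.volume : MeasureTheory.Measure (Tup n d))) ?_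
  filter_upwards [h1, h2] with g k1 k2 z hz
  have hz0 : z ≠ 0 := by
    rintro rfl
    rw [zero_smul, add_zero] at hz
    exact hz (isMor_pw n d hd)
  have e1 : pw n d + z • g = z • (g + z⁻¹ • pw n d) := by
    rw [smul_add, smul_smul, mul_inv_cancel₀ hz0, one_smul, add_comm]
  have e2 : ∀ x : Vec n, ev (pw n d + z • g) x = 0 → ev (g + z⁻¹ • pw n d) x = 0 := by
    intro x hx
    rw [e1, ev_smul] at hx
    exact (smul_eq_zero.1 hx).resolve_left hz0
  simp only [IsMor, not_forall] at hz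
  obtain ⟨x, hx, hx0⟩ := hz
  refine ⟨x, hx0, hx, ?_, ?_⟩
  · intro y hy
    by_cases hy0 : y = 0
    · exact ⟨0, by rw [hy0, zero_smul]⟩
    · exact k2 z⁻¹ x y hx0 hy0 (e2 x hx) (e2 y hy)
  · intro y ζ h
    have e3 := e2 x hx
    have e4 : ev g x = -(z⁻¹ • ev (pw n d) x) := by
      rw [ev_add, ev_smul] at e3
      exact eq_neg_of_add_eq_zero_left e3
    rw [e1, fderiv_ev_smul, e4] at h
    have h3 : fderiv ℂ (ev (g + z⁻¹ • pw n d)) x y + (-(z⁻¹ * ζ * z⁻¹)) • ev (pw n d) x = 0 := by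
      have : z⁻¹ • (z • (fderiv ℂ (ev (g + z⁻¹ • pw n d)) x) y + ζ • -(z⁻¹ • ev (pw n d) x)) = 0 := by
        rw [h, smul_zero]
      rw [smul_add, smul_smul, inv_mul_cancel₀ hz0, one_smul] at this
      rw [← this]
      congr 1
      rw [smul_neg, smul_neg, smul_smul, smul_smul, neg_smul]
    obtain ⟨h4, h5⟩ := k1 z⁻¹ x hx0 e3 y _ h3
    refine ⟨?_, h5⟩
    rw [neg_eq_zero] at h4
    have hz1 := inv_ne_zero hz0
    rcases mul_eq_zero.1 h4 with h6 | h6
    · exact (mul_eq_zero.1 h6).resolve_left hz1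
    · exact absurd h6 hz1

/-- paths along complex lines through the power map -/
theorem line_join (hd : 1 ≤ d) (x : Tup n d) (hx : IsMor x) :
    ∃ c : Path (0 : ℂ) 1, ∀ t, IsMor (pw n d + c t • (x - pw n d)) := by
  have hT := line_finite (n := n) finiteNotSurjStmt hd (x - pw n d)
  have h2 : IsPathConnected {z : ℂ | ¬ IsMor (pw n d + z • (x - pw n d))}ᶜ :=
    hT.countable.isPathConnected_compl_of_one_lt_rank (by
      rw [Complex.rank_real_complex]; norm_num)
  have h0 : (0 : ℂ) ∈ {z : ℂ | ¬ IsMor (pw n d + z • (x - pw n d))}ᶜ := by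
    simpa using isMor_pw n d hd
  have h1 : (1 : ℂ) ∈ {z : ℂ | ¬ IsMor (pw n d + z • (x - pw n d))}ᶜ := by
    simpa using hx
  obtain ⟨c, hc⟩ := h2.joinedIn 0 h0 1 h1
  refine ⟨c, fun t => ?_⟩
  have := hc t
  simpa using this

theorem fillStmt : FillStmt := by
  intro M _ R hR κ hκ hfill a c hc p hp
  exact fill R hR κ hκ hfill a c hc p hp

theorem transportStmt : TransportStmt := by
  intro X M _ _ q hq m0 κ hloc
  exact transport_unique q hq m0 κ hloc

/-- two paths of morphisms with the same end points have homotopic images in the quotient -/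
theorem paths_homotopic (m d : ℕ) (hd : 2 ≤ d) {M : Type} [TopologicalSpace M]
    (q : Tup (m + 2) d → M) (hq : ContinuousOn q {c | IsMor c})
    (hinv : ∀ (g : (Vec (m + 2) →L[ℂ] Vec (m + 2))ˣ) (c : Tup (m + 2) d), IsMor c →
      q (rho (m + 2) d g c) = q c)
    (hq' : Continuous (fun u : {c : Tup (m + 2) d | IsMor c} => q u)) :
    ∀ x y : {c : Tup (m + 2) d | IsMor c}, ∀ γ γ' : Path x y,
      (γ.map hq').Homotopic (γ'.map hq') := by
  have hd1 : 1 ≤ d := by omega
  refine paths_equal transportStmt q {c | IsMor c} isOpen_isMor hq (pw (m + 2) d)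
    (isMor_pw _ _ hd1) (fun x hx => line_join hd1 x hx) ?_ hq'
  intro g c hc p hp
  refine line_loops_null fillStmt q {c | IsMor c} isOpen_isMor hq (pw (m + 2) d)
    (isMor_pw _ _ hd1) (GenDir (m + 2) d) (dense_genDir hd1) ?_ ?_ g c hc p hp
  · intro g' _
    exact line_finite finiteNotSurjStmt hd1 g'
  · intro g' hg' z0 hz0 δ hδ
    obtain ⟨x, hx⟩ := hg' z0 hz0
    have hN := null_of_InT m d hd q hq hinv _ _ x hx
    obtain ⟨ε, hε, h1, -⟩ := hN
    have hN := null_of_InT m d hd q hq hinv _ _ x hx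
    have hpos : 0 < min ε (δ / 2) := lt_min hε (by linarith)
    obtain ⟨Γ, hΓ, hΓ2⟩ := null_any q hq _ _ hN (min ε (δ / 2)) hpos
      (fun ζ hζ hζ2 => h1 ζ hζ (hζ2.trans (min_le_left _ _)))
    refine ⟨min ε (δ / 2), hpos, lt_of_le_of_lt (min_le_right _ _) (by linarith),
      fun w => Γ ((w - z0) / ((min ε (δ / 2) : ℝ) : ℂ)), ?_, ?_⟩
    · refine hΓ.comp (by fun_prop) ?_
      intro w hw
      rw [mem_closedBall_iff_norm] at hw
      rw [mem_closedBall_zero_iff, norm_div, Complex.norm_real, Real.norm_eq_abs, abs_of_pos hpos,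
        div_le_one hpos]
      exact hw
    · intro w hw
      have hne : ((min ε (δ / 2) : ℝ) : ℂ) ≠ 0 := by exact_mod_cast hpos.ne'
      show Γ ((w - z0) / ((min ε (δ / 2) : ℝ) : ℂ)) = _
      rw [hΓ2]
      · show q _ = _
        congr 1
        rw [mul_div_cancel₀ _ hne, sub_smul, add_assoc, add_sub_cancel]
      · rw [norm_div, Complex.norm_real, Real.norm_eq_abs, abs_of_pos hpos, hw, div_self hpos.ne']

end Pool.Agent.Helper819.PiOne
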