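import Pool.Agent.Helper819.Pi.Base3

set_option autoImplicit false

open MvPolynomial

namespace Pool.Agent.Helper819.PiOne



section

variable {n d : ℕ}

theorem us_ult {X : Type*} [TopologicalSpace X] {K : Set X} (hK : IsCompact K)
    (U : Ultrafilter ℕ) (u : ℕ → X) (h : ∀ᶠ k in (U : Filter ℕ), u k ∈ K) :
    ∃ x ∈ K, Filter.Tendsto u (U : Filter ℕ) (nhds x) := by
  obtain ⟨x, hx, hle⟩ := hK.ultrafilter_le_nhds (U.map u) (by
    rw [Filter.le_principal_iff]
    exact h)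
  exact ⟨x, hx, hle⟩

/-- the derivative of `ev` in the second variable -/
theorem us_fderiv (c : Tup n d) (x y : Vec n) :
    fderiv ℂ (fun p : Tup n d × Vec n => ev p.1 p.2) (c, x) (0, y) = fderiv ℂ (ev c) x y := by
  have h1 : HasFDerivAt (fun p : Tup n d × Vec n => ev p.1 p.2)
      (fderiv ℂ (fun p : Tup n d × Vec n => ev p.1 p.2) (c, x)) (c, x) :=
    ((contDiff_ev.differentiable (by simp)) (c, x)).hasFDerivAt
  have h2 : HasFDerivAt (fun z : Vec n => (c, z)) (ContinuousLinearMap.inr ℂ (Tup n d) (Vec n)) x :=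
    hasFDerivAt_prodMk_right c x
  have h3 : HasFDerivAt (ev c) ((fderiv ℂ (fun p : Tup n d × Vec n => ev p.1 p.2) (c, x)).comp
      (ContinuousLinearMap.inr ℂ (Tup n d) (Vec n))) x := h1.comp x h2
  rw [h3.fderiv]
  rfl

set_option maxHeartbeats 1600000 in
/-- transversal punctured discs of uniform radius avoid the resultant hypersurface -/
theorem uniform_small (hd : 1 ≤ d) (x : Vec n) (hp vp : ℝ → Tup n d)
    (h1 : ContinuousOn hp (Set.Icc 0 1)) (h2 : ContinuousOn vp (Set.Icc 0 1))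
    (hT : ∀ s ∈ Set.Icc (0 : ℝ) 1, InT (hp s) (vp s) x) :
    ∃ ε : ℝ, 0 < ε ∧ ∀ s ∈ Set.Icc (0 : ℝ) 1, ∀ ζ : ℂ, ζ ≠ 0 → ‖ζ‖ ≤ ε →
      IsMor (hp s + ζ • vp s) := by
  classical
  by_contra hcon
  push Not at hcon
  -- the sequences
  have hseq : ∀ k : ℕ, ∃ (s : ℝ) (ζ : ℂ) (u : Vec n), s ∈ Set.Icc (0 : ℝ) 1 ∧ ζ ≠ 0 ∧
      ‖ζ‖ ≤ 1 / ((k : ℝ) + 1) ∧ ‖u‖ = 1 ∧ ev (hp s + ζ • vp s) u = 0 := by
    intro k
    obtain ⟨s, hs, ζ, hζ, hζk, hnot⟩ := hcon (1 / ((k : ℝ) + 1)) (by positivity)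
    simp only [IsMor] at hnot
    push Not at hnot
    obtain ⟨u, hu, hu0⟩ := hnot
    have hun : ‖u‖ ≠ 0 := norm_ne_zero_iff.mpr hu0
    refine ⟨s, ζ, ((‖u‖ : ℂ)⁻¹) • u, hs, hζ, hζk, ?_, ?_⟩
    · rw [norm_smul, norm_inv, Complex.norm_real, norm_norm, inv_mul_cancel₀ hun]
    · rw [ev_smul_pt, hu, smul_zero]
  choose s ζ u hs hζ0 hζk hu1 hu0 using hseq
  set U : Ultrafilter ℕ := Filter.hyperfilter ℕ with hU
  have hUtop : (U : Filter ℕ) ≤ Filter.atTop := by
    rw [← Nat.cofinite_eq_atTop]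
    exact Filter.hyperfilter_le_cofinite
  -- limits
  obtain ⟨s0, hs0, hsl⟩ := us_ult (isCompact_Icc (a := (0 : ℝ)) (b := 1)) U s
    (Filter.Eventually.of_forall hs)
  obtain ⟨u0, hu0s, hul⟩ := us_ult (isCompact_sphere (0 : Vec n) 1) U u
    (Filter.Eventually.of_forall fun k => by rw [mem_sphere_zero_iff_norm]; exact hu1 k)
  rw [mem_sphere_zero_iff_norm] at hu0s
  have hζl : Filter.Tendsto ζ (U : Filter ℕ) (nhds 0) := by
    have h0 : Filter.Tendsto ζ Filter.atTop (nhds 0) :=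
      squeeze_zero_norm hζk tendsto_one_div_add_atTop_nhds_zero_nat
    exact h0.mono_left hUtop
  have hsw : Filter.Tendsto s (U : Filter ℕ) (nhdsWithin s0 (Set.Icc 0 1)) :=
    tendsto_nhdsWithin_iff.mpr ⟨hsl, Filter.Eventually.of_forall hs⟩
  have hhl : Filter.Tendsto (fun k => hp (s k)) (U : Filter ℕ) (nhds (hp s0)) :=
    (h1 s0 hs0).tendsto.comp hsw
  have hvl : Filter.Tendsto (fun k => vp (s k)) (U : Filter ℕ) (nhds (vp s0)) :=
    (h2 s0 hs0).tendsto.comp hsw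
  have hevc : ∀ {c : ℕ → Tup n d} {z : ℕ → Vec n} {c0 : Tup n d} {z0 : Vec n},
      Filter.Tendsto c (U : Filter ℕ) (nhds c0) → Filter.Tendsto z (U : Filter ℕ) (nhds z0) →
      Filter.Tendsto (fun k => ev (c k) (z k)) (U : Filter ℕ) (nhds (ev c0 z0)) := by
    intro c z c0 z0 hc hz
    exact (continuous_ev.tendsto (c0, z0)).comp (hc.prodMk_nhds hz)
  have hlim0 : ev (hp s0) u0 = 0 := by
    have e1 : Filter.Tendsto (fun k => hp (s k) + ζ k • vp (s k)) (U : Filter ℕ)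
        (nhds (hp s0 + (0 : ℂ) • vp s0)) := hhl.add (hζl.smul hvl)
    rw [zero_smul, add_zero] at e1
    have e2 := hevc e1 hul
    have e3 : (fun k => ev (hp (s k) + ζ k • vp (s k)) (u k)) = fun _ => 0 := by
      funext k
      exact hu0 k
    rw [e3] at e2
    exact tendsto_nhds_unique e2 tendsto_const_nhds
  obtain ⟨hx0, hx1, hx2, hx3⟩ := hT s0 hs0
  obtain ⟨a, ha⟩ := hx2 u0 hlim0
  have ha0 : a ≠ 0 := by
    rintro rfl
    rw [zero_smul] at ha
    rw [ha, norm_zero] at hu0s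
    norm_num at hu0s
  obtain ⟨i, hi⟩ : ∃ i, x i ≠ 0 := by
    by_contra hall
    push Not at hall
    exact hx0 (funext hall)
  have hu0i : u0 i = a * x i := by rw [ha]; rfl
  have hu0i0 : u0 i ≠ 0 := by rw [hu0i]; exact mul_ne_zero ha0 hi
  have huil : Filter.Tendsto (fun k => u k i) (U : Filter ℕ) (nhds (u0 i)) :=
    (tendsto_pi_nhds.mp hul) i
  have hune : ∀ᶠ k in (U : Filter ℕ), u k i ≠ 0 := huil.eventually_ne hu0i0
  -- rescaled points
  set xx : ℕ → Vec n := fun k => (x i / u k i) • u k with hxx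
  set y : ℕ → Vec n := fun k => xx k - x with hy
  have hxxl : Filter.Tendsto xx (U : Filter ℕ) (nhds x) := by
    have e1 : Filter.Tendsto xx (U : Filter ℕ) (nhds ((x i / u0 i) • u0)) :=
      (tendsto_const_nhds.div huil hu0i0).smul hul
    have e2 : (x i / u0 i) • u0 = x := by
      rw [hu0i, ha, smul_smul]
      have : x i / (a * x i) * a = 1 := by field_simp
      rw [this, one_smul]
    rwa [e2] at e1
  have hyl : Filter.Tendsto y (U : Filter ℕ) (nhds 0) := by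
    have e1 := hxxl.sub_const x
    rwa [sub_self] at e1
  have hyi : ∀ᶠ k in (U : Filter ℕ), y k i = 0 := by
    filter_upwards [hune] with k hk
    simp only [hy, hxx, Pi.sub_apply, Pi.smul_apply, smul_eq_mul]
    rw [div_mul_cancel₀ _ hk, sub_self]
  have hzero : ∀ k, ev (hp (s k)) (xx k) + ζ k • ev (vp (s k)) (xx k) = 0 := by
    intro k
    have e1 := hu0 k
    have e2 : ev (hp (s k) + ζ k • vp (s k)) (xx k) = 0 := by
      simp only [hxx]
      rw [ev_smul_pt, e1, smul_zero]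
    rwa [ev_add, ev_smul] at e2
  -- strict differentiability
  set F : Tup n d × Vec n → Vec n := fun p => ev p.1 p.2 with hF
  set L := fderiv ℂ F (hp s0, x) with hL
  have hstrict : HasStrictFDerivAt F L (hp s0, x) :=
    (contDiff_ev.contDiffAt).hasStrictFDerivAt (by simp)
  have hpair : Filter.Tendsto (fun k => ((hp (s k), xx k), (hp (s k), x))) (U : Filter ℕ)
      (nhds ((hp s0, x), (hp s0, x))) :=
    (hhl.prodMk_nhds hxxl).prodMk_nhds (hhl.prodMk_nhds tendsto_const_nhds)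
  have hlo := hstrict.isLittleO.comp_tendsto hpair
  set ρ : ℕ → ℝ := fun k => ‖y k‖ + ‖ζ k‖ with hρ
  have hρ0 : ∀ k, 0 < ρ k := by
    intro k
    have := norm_pos_iff.mpr (hζ0 k)
    have := norm_nonneg (y k)
    simp only [hρ]
    linarith
  set r : ℕ → Vec n := fun k => ev (hp (s k)) (xx k) - L (0, y k) with hr
  have hrlo : r =o[(U : Filter ℕ)] (fun k => ((ρ k : ℝ) : ℂ)) := by
    have e1 : (fun k => ((hp (s k), xx k) : Tup n d × Vec n) - (hp (s k), x)) =O[(U : Filter ℕ)]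
        (fun k => ((ρ k : ℝ) : ℂ)) := by
      refine Asymptotics.IsBigO.of_bound 1 (Filter.Eventually.of_forall fun k => ?_)
      rw [one_mul, Complex.norm_real, Real.norm_eq_abs, abs_of_pos (hρ0 k)]
      have e2 : ((hp (s k), xx k) : Tup n d × Vec n) - (hp (s k), x) = (0, y k) := by
        rw [Prod.mk_sub_mk, sub_self]
      rw [e2, Prod.norm_mk, norm_zero]
      have := norm_nonneg (ζ k)
      have := norm_nonneg (y k)
      simp only [hρ]
      rw [max_eq_right this]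
      linarith
    have e3 := hlo.trans_isBigO e1
    refine e3.congr_left (fun k => ?_)
    simp only [Function.comp_apply, hF, hr]
    have hxk : ev (hp (s k)) x = 0 := (hT (s k) (hs k)).2.1
    have e2 : ((hp (s k), xx k) : Tup n d × Vec n) - (hp (s k), x) = (0, y k) := by
      rw [Prod.mk_sub_mk, sub_self]
    rw [hxk, sub_zero, e2]
  have hr0 := hrlo.tendsto_inv_smul_nhds_zero
  -- normalised pairs
  set Y : ℕ → Vec n := fun k => ((ρ k : ℝ) : ℂ)⁻¹ • y k with hY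
  set Z : ℕ → ℂ := fun k => ((ρ k : ℝ) : ℂ)⁻¹ * ζ k with hZ
  have hYn : ∀ k, ‖Y k‖ = (ρ k)⁻¹ * ‖y k‖ := by
    intro k
    simp only [hY]
    rw [norm_smul, norm_inv, Complex.norm_real, Real.norm_eq_abs, abs_of_pos (hρ0 k)]
  have hZn : ∀ k, ‖Z k‖ = (ρ k)⁻¹ * ‖ζ k‖ := by
    intro k
    simp only [hZ]
    rw [norm_mul, norm_inv, Complex.norm_real, Real.norm_eq_abs, abs_of_pos (hρ0 k)]
  have hYZ : ∀ k, ‖Y k‖ + ‖Z k‖ = 1 := by
    intro k
    rw [hYn, hZn, ← mul_add]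
    exact inv_mul_cancel₀ (hρ0 k).ne'
  obtain ⟨Y0, -, hYl⟩ := us_ult (isCompact_closedBall (0 : Vec n) 1) U Y
    (Filter.Eventually.of_forall fun k => by
      rw [mem_closedBall_zero_iff]
      have := hYZ k
      have := norm_nonneg (Z k)
      linarith)
  obtain ⟨Z0, -, hZl⟩ := us_ult (isCompact_closedBall (0 : ℂ) 1) U Z
    (Filter.Eventually.of_forall fun k => by
      rw [mem_closedBall_zero_iff]
      have := hYZ k
      have := norm_nonneg (Y k)
      linarith)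
  have hYZ0 : ‖Y0‖ + ‖Z0‖ = 1 := by
    have e1 : Filter.Tendsto (fun k => ‖Y k‖ + ‖Z k‖) (U : Filter ℕ) (nhds (‖Y0‖ + ‖Z0‖)) :=
      hYl.norm.add hZl.norm
    have e2 : (fun k => ‖Y k‖ + ‖Z k‖) = fun _ => (1 : ℝ) := funext hYZ
    rw [e2] at e1
    exact (tendsto_nhds_unique e1 tendsto_const_nhds)
  have hY0i : Y0 i = 0 := by
    have e1 : Filter.Tendsto (fun k => Y k i) (U : Filter ℕ) (nhds (Y0 i)) :=
      (tendsto_pi_nhds.mp hYl) i
    have e2 : (fun k => Y k i) =ᶠ[(U : Filter ℕ)] fun _ => (0 : ℂ) := by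
      filter_upwards [hyi] with k hk
      simp only [hY, Pi.smul_apply, smul_eq_mul, hk, mul_zero]
    exact tendsto_nhds_unique (e1.congr' e2) tendsto_const_nhds
  have heq : L (0, Y0) + Z0 • ev (vp s0) x = 0 := by
    have e1 : Filter.Tendsto (fun k => L ((0 : Tup n d), Y k) + Z k • ev (vp (s k)) (xx k) +
        ((ρ k : ℝ) : ℂ)⁻¹ • r k) (U : Filter ℕ) (nhds (L (0, Y0) + Z0 • ev (vp s0) x + 0)) := by
      refine Filter.Tendsto.add (Filter.Tendsto.add ?_ (hZl.smul (hevc hvl hxxl))) hr0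
      exact (L.continuous.tendsto _).comp (tendsto_const_nhds.prodMk_nhds hYl)
    have e2 : (fun k => L ((0 : Tup n d), Y k) + Z k • ev (vp (s k)) (xx k) +
        ((ρ k : ℝ) : ℂ)⁻¹ • r k) = fun _ => 0 := by
      funext k
      have e3 : L ((0 : Tup n d), Y k) = ((ρ k : ℝ) : ℂ)⁻¹ • L ((0 : Tup n d), y k) := by
        rw [← map_smul]
        congr 1
        simp only [hY, Prod.smul_mk, smul_zero]
      have e4 : Z k • ev (vp (s k)) (xx k) =
          ((ρ k : ℝ) : ℂ)⁻¹ • (ζ k • ev (vp (s k)) (xx k)) := by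
        simp only [hZ, smul_smul]
      rw [e3, e4, ← smul_add, ← smul_add]
      have e5 : L ((0 : Tup n d), y k) + ζ k • ev (vp (s k)) (xx k) + r k = 0 := by
        simp only [hr]
        rw [← hzero k]
        abel
      rw [e5, smul_zero]
    rw [e2, add_zero] at e1
    exact (tendsto_nhds_unique tendsto_const_nhds e1).symm
  have hfd : L ((0 : Tup n d), Y0) = fderiv ℂ (ev (hp s0)) x Y0 := us_fderiv (hp s0) x Y0
  rw [hfd] at heq
  obtain ⟨hZ00, b, hb⟩ := hx3 Y0 Z0 heq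
  have hb0 : b = 0 := by
    have e1 : Y0 i = b * x i := by rw [hb]; rfl
    rw [hY0i] at e1
    rcases mul_eq_zero.mp e1.symm with h | h
    · exact h
    · exact absurd h hi
  rw [hZ00, hb, hb0, zero_smul, norm_zero, norm_zero] at hYZ0
  norm_num at hYZ0


end

end Pool.Agent.Helper819.PiOne
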