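import Mathlib

set_option autoImplicit false

open Topology unitInterval

namespace Pool.Agent.Helper819.PiOne

/-- (available: proved elsewhere) -/
def TransportStmt : Prop := ∀ (X M : Type) [TopologicalSpace X] [TopologicalSpace M] (q : X → M)
    (hq : Continuous q) (m0 : M) (κ : ∀ x : X, Path m0 (q x))
    (_ : ∀ x : X, ∃ O ∈ 𝓝 x, ∀ y z : X, ∀ γ : Path y z, (∀ t, γ t ∈ O) →
      ((κ y).trans (γ.map hq)).Homotopic (κ z)),
    ∀ x y : X, ∀ γ γ' : Path x y, (γ.map hq).Homotopic (γ'.map hq)

theorem j7246_pure {M : Type} [TopologicalSpace M] {a b b' c c' : M} (P : Path a b) (E : Path b b')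
    (hE : ∀ t, E t = b) (D : Path b' c') (E' : Path c' c) (hE' : ∀ t, E' t = c') (hb : b = b')
    (hc : c = c') (γ : Path b c) (hγ : γ.Homotopic (D.cast hb hc)) :
    (((P.trans E).trans D).trans E').Homotopic (P.trans γ) := by
  subst hb hc
  have e1 : E = Path.refl b := by ext t; exact hE t
  have e2 : E' = Path.refl c := by ext t; exact hE' t
  have e3 : D.cast rfl rfl = D := rfl
  rw [e3] at hγ
  rw [e1, e2]
  have h1 : (((P.trans (Path.refl b)).trans D).trans (Path.refl c)).Homotopic
      ((P.trans (Path.refl b)).trans D) := ⟨Path.Homotopy.transRefl _⟩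
  have h2 : ((P.trans (Path.refl b)).trans D).Homotopic (P.trans γ) :=
    Path.Homotopic.hcomp ⟨Path.Homotopy.transRefl _⟩ hγ.symm
  exact h1.trans h2

theorem simply_of_cover (hT : TransportStmt) {U M : Type} [TopologicalSpace U] [TopologicalSpace M]
    (q : U → M) (hq : Continuous q) (hsurj : Function.Surjective q) [PathConnectedSpace U]
    (H1 : ∀ u v : U, q u = q v → ∃ γ : Path u v, ∀ t, q (γ t) = q u)
    (H2 : ∀ u v : U, ∀ γ γ' : Path u v, (γ.map hq).Homotopic (γ'.map hq))
    (H4 : ∀ m : M, ∃ W ∈ 𝓝 m,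
      (∀ x y : M, ∀ γ γ' : Path x y, (∀ t, γ t ∈ W) → (∀ t, γ' t ∈ W) → γ.Homotopic γ') ∧
      (∀ x ∈ W, ∀ y ∈ W, ∃ u v : U, q u = x ∧ q v = y ∧ ∃ γ : Path u v, ∀ t, q (γ t) ∈ W)) :
    SimplyConnectedSpace M := by
  obtain ⟨u0⟩ : Nonempty U := inferInstance
  choose l hl using hsurj
  let κ : ∀ m : M, Path (q u0) (id m) := fun m =>
    ((PathConnectedSpace.somePath u0 (l m)).map hq).cast rfl (hl m).symm
  have key := hT M M id continuous_id (q u0) κ (by
    intro x
    obtain ⟨W, hW, hW1, hW2⟩ := H4 x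
    refine ⟨W, hW, ?_⟩
    intro y z γ hγ
    have hyW : y ∈ W := by have := hγ 0; rwa [γ.source] at this
    have hzW : z ∈ W := by have := hγ 1; rwa [γ.target] at this
    obtain ⟨u, v, hu, hv, δ, hδ⟩ := hW2 y hyW z hzW
    obtain ⟨η, hη⟩ := H1 (l y) u (by rw [hl, hu])
    obtain ⟨η', hη'⟩ := H1 v (l z) (by rw [hl, hv])
    have h1 := H2 u0 (l z) ((((PathConnectedSpace.somePath u0 (l y)).trans η).trans δ).trans η')
      (PathConnectedSpace.somePath u0 (l z))
    rw [Path.map_trans, Path.map_trans, Path.map_trans] at h1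
    have hb : q (l y) = q u := by rw [hl, hu]
    have hc : q (l z) = q v := by rw [hl, hv]
    have h2 := j7246_pure ((PathConnectedSpace.somePath u0 (l y)).map hq) (η.map hq)
      (fun t => hη t) (δ.map hq) (η'.map hq) (fun t => hη' t) hb hc
      (γ.cast (hl y) (hl z)) (by
        refine hW1 _ _ _ _ ?_ ?_
        · intro t; exact hγ t
        · intro t; exact hδ t)
    have h3 := h2.symm.trans h1
    have h4 : ((κ y).trans (γ.map continuous_id)) =
      (((PathConnectedSpace.somePath u0 (l y)).map hq).trans (γ.cast (hl y) (hl z))).cast rfl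
        (hl z).symm := by
      ext t
      simp only [κ, Path.trans_apply, Path.cast_coe]
      rfl
    rw [h4]
    exact h3)
  rw [simply_connected_iff_paths_homotopic']
  refine ⟨?_, ?_⟩
  · exact Function.Surjective.pathConnectedSpace (fun m => ⟨l m, hl m⟩) hq
  · intro x y p₁ p₂
    have := key x y p₁ p₂
    rwa [Path.map_id, Path.map_id] at this

end Pool.Agent.Helper819.PiOne
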