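import Mathlib

set_option autoImplicit false

open Topology

namespace Pool.Agent.Helper819.PiOne

/-- the loop `γ` (restricted to the unit circle) extends continuously over the closed unit disc -/
def NC {M : Type*} [TopologicalSpace M] (γ : ℂ → M) : Prop :=
  ∃ Γ : ℂ → M, ContinuousOn Γ (Metric.closedBall 0 1) ∧ ∀ z : ℂ, ‖z‖ = 1 → Γ z = γ z

theorem NC_congr {M : Type*} [TopologicalSpace M] {γ γ' : ℂ → M} (h : ∀ z : ℂ, ‖z‖ = 1 → γ z = γ' z)
    (hγ : NC γ) : NC γ' := by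
  obtain ⟨Γ, h1, h2⟩ := hγ
  exact ⟨Γ, h1, fun z hz => (h2 z hz).trans (h z hz)⟩

open Classical in
/-- homotopy invariance -/
theorem NC_homotopy {M : Type*} [TopologicalSpace M] (H : ℝ → ℂ → M)
    (hH : ContinuousOn (fun p : ℝ × ℂ => H p.1 p.2) (Set.Icc 0 1 ×ˢ Metric.sphere 0 1))
    (h0 : NC (H 0)) : NC (H 1) := by
  obtain ⟨Γ0, hΓ0, h1⟩ := h0
  have hHc : ContinuousOn (fun z : ℂ => H (2 * ‖z‖ - 1) (z / (‖z‖ : ℂ)))
      {z : ℂ | 1 / 2 ≤ ‖z‖ ∧ ‖z‖ ≤ 1} := by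
    have hmap : ContinuousOn (fun z : ℂ => ((2 * ‖z‖ - 1, z / (‖z‖ : ℂ)) : ℝ × ℂ))
        {z : ℂ | 1 / 2 ≤ ‖z‖ ∧ ‖z‖ ≤ 1} := by
      apply ContinuousOn.prodMk
      · fun_prop
      · apply ContinuousOn.div continuousOn_id (by fun_prop)
        rintro z ⟨hz, -⟩ h0
        have : ‖z‖ = 0 := by exact_mod_cast h0
        linarith
    refine hH.comp hmap ?_
    rintro z ⟨hz1, hz2⟩
    refine ⟨⟨by linarith, by linarith⟩, ?_⟩
    rw [mem_sphere_zero_iff_norm, norm_div, Complex.norm_real, norm_norm, div_self]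
    linarith
  have hΓc : ContinuousOn (fun z : ℂ => Γ0 (2 * z)) (Metric.closedBall 0 (1 / 2)) := by
    refine hΓ0.comp (by fun_prop) ?_
    intro z hz
    rw [mem_closedBall_zero_iff] at hz ⊢
    rw [norm_mul]
    have : ‖(2 : ℂ)‖ = 2 := by simp
    rw [this]
    linarith
  refine ⟨fun z => if ‖z‖ ≤ 1 / 2 then Γ0 (2 * z) else H (2 * ‖z‖ - 1) (z / (‖z‖ : ℂ)), ?_, ?_⟩
  · have hunion : Metric.closedBall (0 : ℂ) 1 =
        Metric.closedBall 0 (1 / 2) ∪ {z : ℂ | 1 / 2 ≤ ‖z‖ ∧ ‖z‖ ≤ 1} := by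
      ext z
      simp only [mem_closedBall_zero_iff, Set.mem_union, Set.mem_ofPred_eq]
      constructor
      · intro h
        rcases le_total ‖z‖ (1 / 2) with h2 | h2
        · exact Or.inl h2
        · exact Or.inr ⟨h2, h⟩
      · rintro (h | h)
        · linarith
        · exact h.2
    rw [hunion]
    have hclosed : IsClosed {z : ℂ | 1 / 2 ≤ ‖z‖ ∧ ‖z‖ ≤ 1} :=
      (isClosed_le continuous_const continuous_norm).inter
        (isClosed_le continuous_norm continuous_const)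
    apply ContinuousOn.union_of_isClosed _ _ Metric.isClosed_closedBall hclosed
    · refine hΓc.congr ?_
      intro z hz
      rw [mem_closedBall_zero_iff] at hz
      show (if ‖z‖ ≤ 1 / 2 then Γ0 (2 * z) else H (2 * ‖z‖ - 1) (z / (‖z‖ : ℂ))) = Γ0 (2 * z)
      rw [if_pos hz]
    · refine hHc.congr ?_
      rintro z ⟨hz1, hz2⟩
      show (if ‖z‖ ≤ 1 / 2 then Γ0 (2 * z) else H (2 * ‖z‖ - 1) (z / (‖z‖ : ℂ))) =
        H (2 * ‖z‖ - 1) (z / (‖z‖ : ℂ))
      split_ifs with h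
      · have he : ‖z‖ = 1 / 2 := le_antisymm h hz1
        have h2 : ‖2 * z‖ = 1 := by
          rw [norm_mul, he]
          simp
        rw [h1 _ h2, he]
        have e1 : (2 : ℝ) * (1 / 2) - 1 = 0 := by norm_num
        have e2 : z / (((1 / 2 : ℝ)) : ℂ) = 2 * z := by
          push_cast
          ring
        rw [e1, e2]
      · rfl
  · intro z hz
    show (if ‖z‖ ≤ 1 / 2 then Γ0 (2 * z) else H (2 * ‖z‖ - 1) (z / (‖z‖ : ℂ))) = H 1 z
    rw [if_neg (by rw [hz]; norm_num), hz]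
    have e1 : (2 : ℝ) * 1 - 1 = 1 := by norm_num
    rw [e1]
    simp

/-- reversing the circle -/
theorem NC_conj {M : Type*} [TopologicalSpace M] {γ : ℂ → M} (h : NC γ) :
    NC (fun z => γ (starRingEnd ℂ z)) := by
  obtain ⟨Γ, h1, h2⟩ := h
  refine ⟨fun z => Γ (starRingEnd ℂ z), h1.comp Complex.continuous_conj.continuousOn ?_, ?_⟩
  · intro z hz
    rw [mem_closedBall_zero_iff] at hz ⊢
    rwa [RCLike.norm_conj]
  · intro z hz
    exact h2 _ (by rwa [RCLike.norm_conj])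

/-- rotating the circle -/
theorem NC_rot {M : Type*} [TopologicalSpace M] {γ : ℂ → M} (u : ℂ) (hu : ‖u‖ = 1) (h : NC γ) :
    NC (fun z => γ (u * z)) := by
  obtain ⟨Γ, h1, h2⟩ := h
  refine ⟨fun z => Γ (u * z), h1.comp (by fun_prop) ?_, ?_⟩
  · intro z hz
    rw [mem_closedBall_zero_iff] at hz ⊢
    rwa [norm_mul, hu, one_mul]
  · intro z hz
    exact h2 _ (by rw [norm_mul, hu, hz, one_mul])

end Pool.Agent.Helper819.PiOne
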