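import Mathlib

set_option autoImplicit false

open Topology

namespace Pool.Agent.Helper819.PiOne

theorem finite_not_surj {E W : Type*} [AddCommGroup E] [Module ℂ E] [AddCommGroup W] [Module ℂ W]
    [FiniteDimensional ℂ W] (A B : E →ₗ[ℂ] W) (hA : Function.Surjective A) :
    {z : ℂ | ¬ Function.Surjective (A + z • B)}.Finite := by
  obtain ⟨s, hs⟩ := A.exists_rightInverse_of_surjective (LinearMap.range_eq_top.2 hA)
  have hfin : (spectrum ℂ (B ∘ₗ s : Module.End ℂ W)).Finite := Module.End.finite_spectrum _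
  refine (hfin.image (fun μ : ℂ => -μ⁻¹)).subset ?_
  intro z hz
  have hz' : ¬ Function.Surjective (A + z • B) := hz
  have hz0 : z ≠ 0 := by
    rintro rfl
    apply hz'
    simpa using hA
  refine ⟨-z⁻¹, ?_, by simp⟩
  rw [spectrum.mem_iff]
  intro hu
  apply hz'
  have e : algebraMap ℂ (Module.End ℂ W) (-z⁻¹) - (B ∘ₗ s) =
      (-z⁻¹) • ((A + z • B) ∘ₗ s : Module.End ℂ W) := by
    have hAs : ∀ w, A (s w) = w := fun w => by
      have := LinearMap.congr_fun hs w
      simpa using this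
    ext w
    simp only [LinearMap.sub_apply, Module.algebraMap_end_apply, LinearMap.comp_apply,
      LinearMap.smul_apply, LinearMap.add_apply, hAs, smul_add, smul_smul]
    rw [neg_mul, inv_mul_cancel₀ hz0]
    simp [sub_eq_add_neg]
  rw [e] at hu
  have hb : Function.Surjective ((-z⁻¹) • ((A + z • B) ∘ₗ s : Module.End ℂ W)) :=
    ((Module.End.isUnit_iff _).1 hu).2
  intro w
  obtain ⟨v, hv⟩ := hb w
  refine ⟨(-z⁻¹) • s v, ?_⟩
  rw [map_smul]
  exact hv

/-- the unit group of a finite-dimensional complex algebra is path connected -/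
theorem units_joined {A : Type*} [NormedRing A] [NormedAlgebra ℂ A] [FiniteDimensional ℂ A]
    [CompleteSpace A] (B : Aˣ) : Joined (1 : Aˣ) B := by
  set b : ℂ → A := fun z => 1 + z • ((B : A) - 1) with hb
  have hT1 := finite_not_surj (LinearMap.id : A →ₗ[ℂ] A) (LinearMap.mulLeft ℂ ((B : A) - 1))
    Function.surjective_id
  have hT2 := finite_not_surj (LinearMap.id : A →ₗ[ℂ] A) (LinearMap.mulRight ℂ ((B : A) - 1))
    Function.surjective_id
  set T1 := {z : ℂ | ¬ Function.Surjective
    ((LinearMap.id : A →ₗ[ℂ] A) + z • LinearMap.mulLeft ℂ ((B : A) - 1))} with hT1d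
  set T2 := {z : ℂ | ¬ Function.Surjective
    ((LinearMap.id : A →ₗ[ℂ] A) + z • LinearMap.mulRight ℂ ((B : A) - 1))} with hT2d
  have hl : ∀ z (y : A), ((LinearMap.id : A →ₗ[ℂ] A) + z • LinearMap.mulLeft ℂ ((B : A) - 1)) y =
      b z * y := by
    intro z y
    simp [hb, add_mul]
  have hr : ∀ z (y : A), ((LinearMap.id : A →ₗ[ℂ] A) + z • LinearMap.mulRight ℂ ((B : A) - 1)) y =
      y * b z := by
    intro z y
    simp [hb, mul_add]
  have hunit : ∀ z, z ∉ T1 ∪ T2 → IsUnit (b z) := by
    intro z hz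
    rw [Set.mem_union, not_or] at hz
    obtain ⟨h1, h2⟩ := hz
    simp only [hT1d, hT2d, Set.mem_setOf_eq, not_not] at h1 h2
    obtain ⟨y, hy⟩ := h1 1
    obtain ⟨x, hx⟩ := h2 1
    rw [hl] at hy
    rw [hr] at hx
    have hxy : x = y := left_inv_eq_right_inv hx hy
    exact ⟨⟨b z, y, hy, by rw [← hxy]; exact hx⟩, rfl⟩
  have hb0 : b 0 = 1 := by simp [hb]
  have hb1 : b 1 = B := by simp [hb]
  have hn0 : (0 : ℂ) ∉ T1 ∪ T2 := by
    rw [Set.mem_union, not_or]
    refine ⟨fun h => h ?_, fun h => h ?_⟩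
    · intro y
      exact ⟨y, by rw [hl, hb0, one_mul]⟩
    · intro y
      exact ⟨y, by rw [hr, hb0, mul_one]⟩
  have hn1 : (1 : ℂ) ∉ T1 ∪ T2 := by
    rw [Set.mem_union, not_or]
    refine ⟨fun h => h ?_, fun h => h ?_⟩
    · intro y
      exact ⟨(↑B⁻¹ : A) * y, by rw [hl, hb1, Units.mul_inv_cancel_left]⟩
    · intro y
      exact ⟨y * (↑B⁻¹ : A), by rw [hr, hb1, Units.inv_mul_cancel_right]⟩
  have hpc : IsPathConnected (T1 ∪ T2)ᶜ := by
    apply Set.Countable.isPathConnected_compl_of_one_lt_rank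
    · rw [Complex.rank_real_complex]
      norm_num
    · exact (hT1.union hT2).countable
  obtain ⟨γ, hγ⟩ := hpc.joinedIn 0 hn0 1 hn1
  have hU : ∀ t, IsUnit (b (γ t)) := fun t => hunit _ (hγ t)
  have hbc : Continuous fun t => b (γ t) := by
    have := γ.continuous
    simp only [hb]
    fun_prop
  have hcont : Continuous fun t => (hU t).unit := by
    rw [Units.continuous_iff]
    refine ⟨hbc, ?_⟩
    have e : (fun t => ((((hU t).unit)⁻¹ : Aˣ) : A)) = fun t => Ring.inverse (b (γ t)) := by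
      funext t
      exact (Ring.inverse_unit (hU t).unit).symm
    rw [e, continuous_iff_continuousAt]
    intro t
    have h1 : ContinuousAt Ring.inverse (b (γ t)) :=
      NormedRing.inverse_continuousAt (hU t).unit
    exact ContinuousAt.comp (f := fun t => b (γ t)) h1 hbc.continuousAt
  refine ⟨⟨⟨fun t => (hU t).unit, hcont⟩, ?_, ?_⟩⟩
  · apply Units.ext
    show b (γ 0) = 1
    rw [γ.source, hb0]
  · apply Units.ext
    show b (γ 1) = B
    rw [γ.target, hb1]

theorem exp_bounded {A : Type*} [NormedRing A] [NormedAlgebra ℂ A] [CompleteSpace A] (X : A) (C : ℝ)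
    (h : ∀ t : ℂ, ‖NormedSpace.exp (t • X)‖ ≤ C) : X = 0 := by
  have hd : ∀ t : ℂ, HasDerivAt (fun u : ℂ => NormedSpace.exp (u • X))
      (NormedSpace.exp (t • X) * X) t := fun t => hasDerivAt_exp_smul_const X t
  have hdiff : Differentiable ℂ (fun u : ℂ => NormedSpace.exp (u • X)) :=
    fun t => (hd t).differentiableAt
  have hbd : Bornology.IsBounded (Set.range (fun u : ℂ => NormedSpace.exp (u • X))) := by
    rw [isBounded_iff_forall_norm_le]
    refine ⟨C, ?_⟩
    rintro _ ⟨t, rfl⟩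
    exact h t
  have hconst := hdiff.apply_eq_apply_of_bounded hbd
  have hd0 := hd 0
  have hc0 : HasDerivAt (fun u : ℂ => NormedSpace.exp (u • X)) 0 0 := by
    have : (fun u : ℂ => NormedSpace.exp (u • X)) = fun _ => NormedSpace.exp ((0 : ℂ) • X) := by
      funext u
      exact hconst u 0
    rw [this]
    exact hasDerivAt_const _ _
  have := hd0.unique hc0
  simpa using this

end Pool.Agent.Helper819.PiOne
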