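import Pool.Agent.Helper819.Pi.SliceDef

set_option autoImplicit false

open Topology

namespace Pool.Agent.Helper819.PiOne

variable {A V : Type*} [NormedRing A] [NormedAlgebra ℂ A] [FiniteDimensional ℂ A] [CompleteSpace A]
  [NormedAddCommGroup V] [NormedSpace ℂ V] [FiniteDimensional ℂ V]




theorem F_strict (ρ : Aˣ →* (V →L[ℂ] V)) (f : V) (d : SliceData ρ f) :
    HasStrictFDerivAt (fun a : A => d.Ψ (a, f)) d.D 1 := by
  have h := (hasStrictFDerivAt_id (𝕜 := ℂ) (1 : A)).prodMk (hasStrictFDerivAt_const f (1 : A))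
  have h2 := d.hs.comp (1 : A) h
  have e : (d.D.coprod (ContinuousLinearMap.id ℂ V)).comp
      ((ContinuousLinearMap.id ℂ A).prod (0 : A →L[ℂ] V)) = d.D := by
    ext x
    simp
  rw [e] at h2
  exact h2

theorem F_one (ρ : Aˣ →* (V →L[ℂ] V)) (f : V) (d : SliceData ρ f) : d.Ψ (1, f) = f := by
  have h := d.hΨ 1 f
  rw [map_one] at h
  rw [Units.val_one] at h
  rw [h]
  rfl

theorem isolated (ρ : Aˣ →* (V →L[ℂ] V)) (f : V) (d : SliceData ρ f) :
    ∃ δ : ℝ, 0 < δ ∧ ∀ a : A, ‖a - 1‖ < δ → d.Ψ (a, f) = f → a = 1 := by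
  obtain ⟨K, hK, hanti⟩ := (d.D : A →ₗ[ℂ] V).exists_antilipschitzWith
    (LinearMap.ker_eq_bot.mpr d.hD)
  have hF := (F_strict ρ f d).isLittleO
  have hKpos : (0:ℝ) < K := by exact_mod_cast hK
  have hF2 := hF.def (c := 1 / (2 * K)) (by positivity)
  rw [Metric.eventually_nhds_iff] at hF2
  obtain ⟨δ, hδ, hF3⟩ := hF2
  refine ⟨δ, hδ, fun a ha hfa => ?_⟩
  have h1 := @hF3 (a, 1) (by
    rw [Prod.dist_eq, dist_self, dist_eq_norm]
    exact max_lt ha hδ)
  simp only at h1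
  rw [hfa, F_one, sub_self, zero_sub, norm_neg] at h1
  have h2 := hanti.le_mul_dist a 1
  rw [dist_eq_norm, dist_eq_norm] at h2
  have h3 : (d.D : A →ₗ[ℂ] V) a - (d.D : A →ₗ[ℂ] V) 1 = d.D (a - 1) := by
    rw [map_sub]; rfl
  rw [h3] at h2
  have h4 : (K:ℝ) * ‖d.D (a - 1)‖ ≤ K * (1 / (2 * K) * ‖a - 1‖) :=
    mul_le_mul_of_nonneg_left h1 hKpos.le
  have h5 : (K:ℝ) * (1 / (2 * K) * ‖a - 1‖) = ‖a - 1‖ / 2 := by
    field_simp
  have h6 : ‖a - 1‖ ≤ 0 := by linarith [norm_nonneg (a - 1)]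
  exact sub_eq_zero.mp (norm_le_zero_iff.mp h6)

/-- the stabiliser is finite -/
theorem stab_finite (ρ : Aˣ →* (V →L[ℂ] V)) (f : V) (d : SliceData ρ f) :
    {g : Aˣ | ρ g f = f}.Finite := by
  have hprop : ProperSpace A := FiniteDimensional.proper ℂ A
  obtain ⟨δ, hδ, hiso⟩ := isolated ρ f d
  have hfO : f ∈ d.O := mem_of_mem_nhds d.hO
  have hbd : ∀ g : Aˣ, ρ g f = f → ‖(g : A)‖ ≤ d.C ∧ ‖((g⁻¹ : Aˣ) : A)‖ ≤ d.C := by
    intro g hg
    exact d.hb g f hfO (by rw [hg]; exact hfO)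
  have hinv : ∀ g : Aˣ, ρ g f = f → ρ g⁻¹ f = f := by
    intro g hg
    have h1 : ρ g⁻¹ (ρ g f) = f := by
      rw [← ContinuousLinearMap.mul_apply, ← map_mul, inv_mul_cancel, map_one]
      rfl
    rwa [hg] at h1
  have hC0 : 0 ≤ d.C := by
    have h := (hbd 1 (by rw [map_one]; rfl)).1
    exact (norm_nonneg _).trans h
  have hsep : ∀ g h : Aˣ, ρ g f = f → ρ h f = f → ‖(h : A) - g‖ < δ / (d.C + 1) → g = h := by
    intro g h hg hh hlt
    have h1 : ρ (g⁻¹ * h) f = f := by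
      rw [map_mul, ContinuousLinearMap.mul_apply, hh, hinv g hg]
    have h2 : ((g⁻¹ * h : Aˣ) : A) - 1 = ((g⁻¹ : Aˣ) : A) * ((h : A) - g) := by
      rw [mul_sub, Units.inv_mul, Units.val_mul]
    have h3 : ‖((g⁻¹ * h : Aˣ) : A) - 1‖ < δ := by
      rw [h2]
      refine lt_of_le_of_lt (norm_mul_le _ _) ?_
      have h4 := (hbd g hg).2
      have h5 : ‖((g⁻¹ : Aˣ) : A)‖ * ‖(h : A) - g‖ ≤ (d.C + 1) * ‖(h : A) - g‖ :=
        mul_le_mul_of_nonneg_right (by linarith) (norm_nonneg _)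
      refine lt_of_le_of_lt h5 ?_
      rw [lt_div_iff₀ (by linarith)] at hlt
      linarith
    have h4 := hiso _ h3 (by rw [d.hΨ]; exact h1)
    have h5 : g⁻¹ * h = 1 := Units.ext h4
    exact (inv_mul_eq_one.mp h5)
  have hinj : Function.Injective (fun g : Aˣ => (g : A)) := Units.val_injective
  refine Set.Finite.of_finite_image (f := fun g : Aˣ => (g : A)) ?_ hinj.injOn
  by_contra hinf
  have hinf' : Set.Infinite ((fun g : Aˣ => (g : A)) '' {g : Aˣ | ρ g f = f}) := hinf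
  obtain ⟨a, _, hacc⟩ := hinf'.exists_accPt_of_subset_isCompact
    (isCompact_closedBall (0:A) d.C) (by
      rintro x ⟨g, hg, rfl⟩
      rw [mem_closedBall_zero_iff]
      exact (hbd g hg).1)
  rw [accPt_iff_frequently] at hacc
  have hpos : 0 < δ / (d.C + 1) := by positivity
  have hpos2 : 0 < δ / (d.C + 1) / 2 := by positivity
  obtain ⟨y1, ⟨hy1a, g, hg, hgy⟩, hy1⟩ := (hacc.and_eventually (Metric.ball_mem_nhds a hpos2)).exists
  have hd1 : 0 < dist y1 a := dist_pos.mpr hy1a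
  obtain ⟨y2, ⟨hy2a, h, hh, hhy⟩, hy2⟩ := (hacc.and_eventually
    (Metric.ball_mem_nhds a (lt_min hpos2 hd1))).exists
  have hgy' : (g : A) = y1 := hgy
  have hhy' : (h : A) = y2 := hhy
  have e1 : dist y1 a < δ / (d.C + 1) / 2 := hy1
  have e2 : dist y2 a < min (δ / (d.C + 1) / 2) (dist y1 a) := hy2
  have e3 : dist y2 a < δ / (d.C + 1) / 2 := lt_of_lt_of_le e2 (min_le_left _ _)
  have e4 : dist y2 a < dist y1 a := lt_of_lt_of_le e2 (min_le_right _ _)
  have e5 : ‖(h : A) - g‖ < δ / (d.C + 1) := by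
    rw [← dist_eq_norm, hgy', hhy']
    have := dist_triangle_right y2 y1 a
    linarith
  have e6 := hsep g h hg hh e5
  rw [← hgy', ← hhy', e6] at e4
  exact lt_irrefl _ e4

/-- the tangent space of the orbit is invariant under the stabiliser -/
theorem range_invariant (ρ : Aˣ →* (V →L[ℂ] V)) (f : V) (d : SliceData ρ f) (g : Aˣ)
    (hg : ρ g f = f) (X : A) : ρ g (d.D X) = d.D ((g : A) * X * ((g⁻¹ : Aˣ) : A)) := by
  have hF := (F_strict ρ f d).hasFDerivAt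
  have hcurve : ∀ Y : A, HasDerivAt (fun t : ℂ => d.Ψ (1 + t • Y, f)) (d.D Y) 0 := by
    intro Y
    have h1 : HasDerivAt (fun t : ℂ => (1 : A) + t • Y) Y 0 := by
      have h := ((hasDerivAt_id (0:ℂ)).smul_const Y).const_add (1 : A)
      rw [one_smul] at h
      exact h
    have hF' : HasFDerivAt (fun a : A => d.Ψ (a, f)) d.D ((1 : A) + (0:ℂ) • Y) := by
      rw [zero_smul, add_zero]; exact hF
    exact hF'.comp_hasDerivAt (0:ℂ) h1
  have hL : HasDerivAt (fun t : ℂ => ρ g (d.Ψ (1 + t • X, f))) (ρ g (d.D X)) 0 :=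
    (ρ g).hasFDerivAt.comp_hasDerivAt (0:ℂ) (hcurve X)
  have hR := hcurve ((g : A) * X * ((g⁻¹ : Aˣ) : A))
  have hopen : ∀ᶠ t : ℂ in 𝓝 0, IsUnit ((1 : A) + t • X) := by
    have hc : Continuous (fun t : ℂ => (1 : A) + t • X) := by fun_prop
    have h0 : (fun t : ℂ => (1 : A) + t • X) 0 ∈ {x : A | IsUnit x} := by
      show IsUnit ((1 : A) + (0:ℂ) • X)
      rw [zero_smul, add_zero]; exact isUnit_one
    exact hc.continuousAt.eventually (Units.isOpen.mem_nhds h0)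
  have heq : (fun t : ℂ => ρ g (d.Ψ (1 + t • X, f))) =ᶠ[𝓝 0]
      (fun t : ℂ => d.Ψ (1 + t • ((g : A) * X * ((g⁻¹ : Aˣ) : A)), f)) := by
    filter_upwards [hopen] with t ht
    obtain ⟨u, hu⟩ := ht
    rw [← hu, d.hΨ]
    have h1 : ((g * u * g⁻¹ : Aˣ) : A) = 1 + t • ((g : A) * X * ((g⁻¹ : Aˣ) : A)) := by
      rw [Units.val_mul, Units.val_mul, hu, mul_add, add_mul, mul_one, Units.mul_inv,
        mul_smul_comm, smul_mul_assoc]
    rw [← h1, d.hΨ, map_mul, map_mul, ContinuousLinearMap.mul_apply, ContinuousLinearMap.mul_apply]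
    have h2 : ρ g⁻¹ f = f := by
      have h1 : ρ g⁻¹ (ρ g f) = f := by
        rw [← ContinuousLinearMap.mul_apply, ← map_mul, inv_mul_cancel, map_one]
        rfl
      rwa [hg] at h1
    rw [h2]
  exact (hL.unique (hR.congr_of_eventuallyEq heq))

end Pool.Agent.Helper819.PiOne
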