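import Mathlib

set_option autoImplicit false

namespace Pool.Agent.Helper819.PiOne

/-- invariant complements for finite groups of linear maps -/
theorem invariant_complement {G V : Type*} [Group G] [AddCommGroup V] [Module ℂ V]
    (ρ : G →* (V →ₗ[ℂ] V)) (H : Subgroup G) (hH : (H : Set G).Finite) (T : Submodule ℂ V)
    (hT : ∀ g ∈ H, ∀ t ∈ T, ρ g t ∈ T) :
    ∃ S : Submodule ℂ V, IsCompl T S ∧ ∀ g ∈ H, ∀ s ∈ S, ρ g s ∈ S := by
  classical
  haveI : Finite H := hH
  haveI : Fintype H := Fintype.ofFinite H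
  obtain ⟨T', hT'⟩ := Submodule.exists_isCompl T
  set P : V →ₗ[ℂ] V := T.subtype ∘ₗ (T.linearProjOfIsCompl T' hT') with hP
  have hPT : ∀ v, P v ∈ T := fun v => (T.linearProjOfIsCompl T' hT' v).2
  have hPid : ∀ t ∈ T, P t = t := by
    intro t ht
    have := Submodule.linearProjOfIsCompl_apply_left hT' ⟨t, ht⟩
    simp only [hP, LinearMap.comp_apply, Submodule.subtype_apply]
    exact congrArg Subtype.val this
  set Q : V →ₗ[ℂ] V := ((Fintype.card H : ℂ)⁻¹) • ∑ h : H, ρ (h : G)⁻¹ ∘ₗ P ∘ₗ ρ (h : G) with hQ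
  have hcard : (Fintype.card H : ℂ) ≠ 0 := by
    exact_mod_cast Fintype.card_ne_zero
  have hinv : ∀ g : G, ∀ v, ρ g⁻¹ (ρ g v) = v := by
    intro g v
    have := congrArg (fun f : V →ₗ[ℂ] V => f v) (map_mul ρ g⁻¹ g)
    simp only [inv_mul_cancel, map_one, Module.End.mul_apply, Module.End.one_apply] at this
    exact this.symm
  have hQapp : ∀ v, Q v = ((Fintype.card H : ℂ)⁻¹) • ∑ h : H, ρ (h : G)⁻¹ (P (ρ (h : G) v)) := by
    intro v
    simp [hQ, LinearMap.sum_apply]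
  have hQT : ∀ v, Q v ∈ T := by
    intro v
    rw [hQapp]
    refine T.smul_mem _ (T.sum_mem fun h _ => hT _ (H.inv_mem h.2) _ (hPT _))
  have hQid : ∀ t ∈ T, Q t = t := by
    intro t ht
    rw [hQapp]
    have : ∀ h : H, ρ (h : G)⁻¹ (P (ρ (h : G) t)) = t := by
      intro h
      rw [hPid _ (hT _ h.2 _ ht), hinv]
    simp only [this, Finset.sum_const, Finset.card_univ, ← Nat.cast_smul_eq_nsmul ℂ, smul_smul]
    rw [inv_mul_cancel₀ hcard, one_smul]
  have hQcomm : ∀ g ∈ H, ∀ v, Q (ρ g v) = ρ g (Q v) := by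
    intro g hg v
    rw [hQapp, hQapp, map_smul, map_sum]
    congr 1
    refine Fintype.sum_equiv (Equiv.mulRight (⟨g, hg⟩ : H)) _ _ ?_
    intro h
    simp only [Equiv.coe_mulRight, Subgroup.coe_mul]
    have h1 : ρ (h : G) (ρ g v) = ρ ((h : G) * g) v := by rw [map_mul]; rfl
    have h2 : ∀ w, ρ g (ρ ((h : G) * g)⁻¹ w) = ρ (h : G)⁻¹ w := by
      intro w
      have h3 : ρ g (ρ ((h : G) * g)⁻¹ w) = ρ (g * ((h : G) * g)⁻¹) w := by rw [map_mul]; rfl
      rw [h3]
      congr 2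
      group
    rw [h1, h2]
  refine ⟨LinearMap.ker Q, ?_, ?_⟩
  · constructor
    · rw [Submodule.disjoint_def]
      intro t ht ht2
      rw [LinearMap.mem_ker, hQid t ht] at ht2
      exact ht2
    · rw [codisjoint_iff, eq_top_iff]
      intro v _
      rw [Submodule.mem_sup]
      refine ⟨Q v, hQT v, v - Q v, ?_, by abel⟩
      rw [LinearMap.mem_ker, map_sub, hQid _ (hQT v), sub_self]
  · intro g hg s hs
    rw [LinearMap.mem_ker] at hs ⊢
    rw [hQcomm g hg, hs, map_zero]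

end Pool.Agent.Helper819.PiOne
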