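import Pool.Agent.Helper819.Pi.SliceDef

set_option autoImplicit false

open Topology

namespace Pool.Agent.Helper819.PiOne

variable {A V : Type*} [NormedRing A] [NormedAlgebra ℂ A] [FiniteDimensional ℂ A] [CompleteSpace A]
  [NormedAddCommGroup V] [NormedSpace ℂ V] [FiniteDimensional ℂ V]




/-- the slice map -/
def slTh (Ψ : A × V → V) (f : V) (S : Submodule ℂ V) (x : A × S) : V := Ψ (x.1, f + (x.2 : V))

theorem slTh_local (ρ : Aˣ →* (V →L[ℂ] V)) (f : V) (d : SliceData ρ f) (S : Submodule ℂ V)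
    (hS : IsCompl (LinearMap.range (d.D : A →ₗ[ℂ] V)) S) :
    ∃ N : Set (A × S), IsOpen N ∧ ((1 : A), (0 : S)) ∈ N ∧ Set.InjOn (slTh d.Ψ f S) N ∧
      ∀ W ⊆ N, IsOpen W → IsOpen (slTh d.Ψ f S '' W) := by
  have hin : HasStrictFDerivAt (fun x : A × S => ((x.1, f + (x.2 : V)) : A × V))
      ((ContinuousLinearMap.fst ℂ A S).prod (S.subtypeL.comp (ContinuousLinearMap.snd ℂ A S)))
      ((1 : A), (0 : S)) := by
    refine (ContinuousLinearMap.fst ℂ A S).hasStrictFDerivAt.prodMk ?_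
    exact (S.subtypeL.comp (ContinuousLinearMap.snd ℂ A S)).hasStrictFDerivAt.const_add f
  have hout : HasStrictFDerivAt d.Ψ (d.D.coprod (ContinuousLinearMap.id ℂ V))
      ((fun x : A × S => ((x.1, f + (x.2 : V)) : A × V)) ((1 : A), (0 : S))) := by
    have := d.hs
    simpa using this
  have hcomp := hout.comp ((1 : A), (0 : S)) hin
  set L : A × S →L[ℂ] V := (d.D.coprod (ContinuousLinearMap.id ℂ V)).comp
    ((ContinuousLinearMap.fst ℂ A S).prod (S.subtypeL.comp (ContinuousLinearMap.snd ℂ A S))) with hL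
  have hLa : ∀ x : A × S, L x = d.D x.1 + (x.2 : V) := by
    intro x
    rw [hL]
    simp
  have hinj : Function.Injective L := by
    rw [injective_iff_map_eq_zero]
    intro x hx
    rw [hLa] at hx
    have h1 : d.D x.1 ∈ LinearMap.range (d.D : A →ₗ[ℂ] V) := ⟨x.1, rfl⟩
    have h2 : d.D x.1 ∈ S := by
      have : d.D x.1 = -(x.2 : V) := eq_neg_of_add_eq_zero_left hx
      rw [this]
      exact S.neg_mem x.2.2
    have h3 : d.D x.1 = 0 := by
      have := hS.disjoint.le_bot ⟨h1, h2⟩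
      exact this
    have h4 : x.1 = 0 := d.hD (by rw [h3, map_zero])
    have h5 : (x.2 : V) = 0 := by rw [h3, zero_add] at hx; exact hx
    exact Prod.ext h4 (Subtype.ext h5)
  have hsurj : Function.Surjective L := by
    intro v
    have hv : v ∈ LinearMap.range (d.D : A →ₗ[ℂ] V) ⊔ S := by
      rw [hS.sup_eq_top]; trivial
    obtain ⟨y, ⟨X, rfl⟩, z, hz, hyz⟩ := Submodule.mem_sup.1 hv
    refine ⟨(X, ⟨z, hz⟩), ?_⟩
    rw [hLa]
    exact hyz
  have hcS : CompleteSpace S := FiniteDimensional.complete ℂ S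
  have hcV : CompleteSpace V := FiniteDimensional.complete ℂ V
  set e : (A × S) ≃L[ℂ] V := ContinuousLinearEquiv.ofBijective L (LinearMap.ker_eq_bot.2 hinj)
    (LinearMap.range_eq_top.2 hsurj) with he
  have hcoe : (e : A × S →L[ℂ] V) = L := by
    ext x <;> rfl
  have hst : HasStrictFDerivAt (slTh d.Ψ f S) (e : A × S →L[ℂ] V) ((1 : A), (0 : S)) := by
    rw [hcoe]
    exact hcomp
  refine ⟨(hst.toOpenPartialHomeomorph (slTh d.Ψ f S)).source,
    (hst.toOpenPartialHomeomorph (slTh d.Ψ f S)).open_source,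
    hst.mem_toOpenPartialHomeomorph_source, ?_, ?_⟩
  · have := (hst.toOpenPartialHomeomorph (slTh d.Ψ f S)).injOn
    exact this
  · intro W hW hWo
    have := (hst.toOpenPartialHomeomorph (slTh d.Ψ f S)).isOpen_image_of_subset_source hWo hW
    exact this

theorem slTh_unit (ρ : Aˣ →* (V →L[ℂ] V)) (f : V) (d : SliceData ρ f) (S : Submodule ℂ V)
    (g : Aˣ) (s : S) : slTh d.Ψ f S ((g : A), s) = ρ g (f + (s : V)) := d.hΨ g _

theorem slice_open (ρ : Aˣ →* (V →L[ℂ] V)) (f : V) (d : SliceData ρ f) (S : Submodule ℂ V)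
    (hS : IsCompl (LinearMap.range (d.D : A →ₗ[ℂ] V)) S) :
    ∃ r : ℝ, 0 < r ∧
      (∀ O : Set V, IsOpen O → O ⊆ Metric.ball 0 r →
        IsOpen {v : V | ∃ g : Aˣ, ∃ s ∈ S, s ∈ O ∧ ρ g (f + s) = v}) := by
  obtain ⟨N, hNo, hN1, -, hNimg⟩ := slTh_local ρ f d S hS
  have hc : Continuous (fun s : S => ((1 : A), s)) := by fun_prop
  have hpre : (fun s : S => ((1 : A), s)) ⁻¹' N ∈ 𝓝 (0 : S) :=
    (hNo.preimage hc).mem_nhds hN1
  obtain ⟨r, hr, hrb⟩ := Metric.mem_nhds_iff.1 hpre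
  refine ⟨r, hr, ?_⟩
  intro O hO hOr
  rw [isOpen_iff_mem_nhds]
  rintro v0 ⟨g0, s0, hs0, hs0O, hv0⟩
  set W : Set (A × S) := N ∩ {x | IsUnit x.1 ∧ (x.2 : V) ∈ O} with hW
  have hWo : IsOpen W := by
    refine hNo.inter (IsOpen.inter ?_ ?_)
    · exact (Units.isOpen (R := A)).preimage continuous_fst
    · exact hO.preimage (continuous_subtype_val.comp continuous_snd)
  have hWi := hNimg W Set.inter_subset_left hWo
  have hT : IsOpen ((fun v => ρ g0⁻¹ v) ⁻¹' (slTh d.Ψ f S '' W)) :=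
    hWi.preimage (ρ g0⁻¹).continuous
  have hinv : ∀ v, ρ g0⁻¹ (ρ g0 v) = v := by
    intro v
    have : (ρ g0⁻¹ * ρ g0) v = v := by
      rw [← map_mul, inv_mul_cancel, map_one]; rfl
    exact this
  have hinv' : ∀ v, ρ g0 (ρ g0⁻¹ v) = v := by
    intro v
    have : (ρ g0 * ρ g0⁻¹) v = v := by
      rw [← map_mul, mul_inv_cancel, map_one]; rfl
    exact this
  refine Filter.mem_of_superset (hT.mem_nhds ?_) ?_
  · show ρ g0⁻¹ v0 ∈ slTh d.Ψ f S '' W
    refine ⟨((1 : A), ⟨s0, hs0⟩), ⟨?_, isUnit_one, hs0O⟩, ?_⟩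
    · apply hrb
      rw [mem_ball_zero_iff]
      have := hOr hs0O
      rw [mem_ball_zero_iff] at this
      exact this
    · rw [← hv0, hinv]
      have := slTh_unit ρ f d S 1 ⟨s0, hs0⟩
      rw [Units.val_one, map_one] at this
      exact this
  · rintro v ⟨⟨a, s⟩, ⟨-, ha, hsO⟩, hav⟩
    obtain ⟨u, rfl⟩ := ha
    rw [slTh_unit] at hav
    refine ⟨g0 * u, s, s.2, hsO, ?_⟩
    rw [map_mul]
    show ρ g0 (ρ u (f + s)) = v
    rw [hav]
    exact hinv' v

theorem slice_free (ρ : Aˣ →* (V →L[ℂ] V)) (f : V) (d : SliceData ρ f) (S : Submodule ℂ V)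
    (hS : IsCompl (LinearMap.range (d.D : A →ₗ[ℂ] V)) S)
    (hSinv : ∀ g : Aˣ, ρ g f = f → ∀ s ∈ S, ρ g s ∈ S) :
    ∃ r : ℝ, 0 < r ∧
      (∀ g : Aˣ, ∀ s ∈ S, ∀ s' ∈ S, ‖s‖ < r → ‖s'‖ < r → ρ g (f + s) = f + s' → ρ g f = f) := by
  obtain ⟨N, hNo, hN1, hNinj, -⟩ := slTh_local ρ f d S hS
  by_contra hcon
  push Not at hcon
  have hpos : ∀ n : ℕ, (0 : ℝ) < 1 / ((n : ℝ) + 1) := fun n => by positivity
  choose g s hs s' hs' hsn hs'n hgs hgf using fun n : ℕ => hcon (1 / ((n : ℝ) + 1)) (hpos n)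
  have hlim := tendsto_one_div_add_atTop_nhds_zero_nat (𝕜 := ℝ)
  have hs0 : Filter.Tendsto s Filter.atTop (𝓝 0) :=
    squeeze_zero_norm (fun n => (hsn n).le) hlim
  have hs'0 : Filter.Tendsto s' Filter.atTop (𝓝 0) :=
    squeeze_zero_norm (fun n => (hs'n n).le) hlim
  have hfs : Filter.Tendsto (fun n => f + s n) Filter.atTop (𝓝 f) := by
    simpa using hs0.const_add f
  have hfs' : Filter.Tendsto (fun n => f + s' n) Filter.atTop (𝓝 f) := by
    simpa using hs'0.const_add f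
  have hev : ∀ᶠ n in Filter.atTop, ((g n : A), ((g n)⁻¹ : Aˣ).val) ∈
      Metric.closedBall (0 : A) d.C ×ˢ Metric.closedBall (0 : A) d.C := by
    filter_upwards [hfs.eventually_mem d.hO, hfs'.eventually_mem d.hO] with n h1 h2
    have := d.hb (g n) (f + s n) h1 (by rw [hgs n]; exact h2)
    exact ⟨mem_closedBall_zero_iff.2 this.1, mem_closedBall_zero_iff.2 this.2⟩
  have hprop : ProperSpace A := FiniteDimensional.proper ℂ A
  have hcomp : IsCompact (Metric.closedBall (0 : A) d.C ×ˢ Metric.closedBall (0 : A) d.C) :=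
    (isCompact_closedBall _ _).prod (isCompact_closedBall _ _)
  obtain ⟨⟨a, b⟩, -, φ, hφ, hφt⟩ := hcomp.tendsto_subseq' hev.frequently
  have hφ' : Filter.Tendsto φ Filter.atTop Filter.atTop := hφ.tendsto_atTop
  have hga : Filter.Tendsto (fun n => ((g (φ n) : Aˣ) : A)) Filter.atTop (𝓝 a) :=
    (continuous_fst.tendsto (a, b)).comp hφt
  have hgb : Filter.Tendsto (fun n => (((g (φ n))⁻¹ : Aˣ) : A)) Filter.atTop (𝓝 b) :=
    (continuous_snd.tendsto (a, b)).comp hφt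
  have hab : a * b = 1 := by
    have h1 := hga.mul hgb
    have h2 : (fun n => ((g (φ n) : Aˣ) : A) * (((g (φ n))⁻¹ : Aˣ) : A)) = fun _ => 1 := by
      funext n; exact Units.mul_inv _
    rw [h2] at h1
    exact (tendsto_nhds_unique h1 tendsto_const_nhds)
  have hba : b * a = 1 := by
    have h1 := hgb.mul hga
    have h2 : (fun n => (((g (φ n))⁻¹ : Aˣ) : A) * ((g (φ n) : Aˣ) : A)) = fun _ => 1 := by
      funext n; exact Units.inv_mul _
    rw [h2] at h1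
    exact (tendsto_nhds_unique h1 tendsto_const_nhds)
  set G : Aˣ := ⟨a, b, hab, hba⟩ with hG
  have hGa : (G : A) = a := rfl
  have hGb : ((G⁻¹ : Aˣ) : A) = b := rfl
  -- the limit fixes f
  have hfix : ρ G f = f := by
    have hcw : ContinuousWithinAt d.Ψ ({a : A | IsUnit a} ×ˢ Set.univ) (a, f) :=
      d.hcont (a, f) ⟨G.isUnit, Set.mem_univ _⟩
    have ht : Filter.Tendsto (fun n => (((g (φ n) : Aˣ) : A), f + s (φ n))) Filter.atTop
        (𝓝[({a : A | IsUnit a} ×ˢ Set.univ)] (a, f)) := by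
      refine tendsto_nhdsWithin_iff.2 ⟨?_, ?_⟩
      · exact hga.prodMk_nhds (hfs.comp hφ')
      · exact Filter.Eventually.of_forall (fun n => ⟨(g (φ n)).isUnit, Set.mem_univ _⟩)
    have h1 := hcw.tendsto.comp ht
    have h2 : (d.Ψ ∘ fun n => (((g (φ n) : Aˣ) : A), f + s (φ n))) = fun n => f + s' (φ n) := by
      funext n
      show d.Ψ (((g (φ n) : Aˣ) : A), f + s (φ n)) = _
      rw [d.hΨ, hgs]
    rw [h2] at h1
    have h3 := tendsto_nhds_unique h1 (hfs'.comp hφ')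
    have h4 := d.hΨ G f
    rw [hGa] at h4
    rw [← h4]
    exact h3
  have hinv : ∀ v, ρ G⁻¹ (ρ G v) = v := by
    intro v
    have : (ρ G⁻¹ * ρ G) v = v := by
      rw [← map_mul, inv_mul_cancel, map_one]; rfl
    exact this
  have hfix' : ρ G⁻¹ f = f := by
    have := hinv f
    rw [hfix] at this
    exact this
  -- two sequences
  have hSm : ∀ n, ρ G⁻¹ (s' (φ n)) ∈ S := fun n => hSinv G⁻¹ hfix' _ (hs' _)
  have t1 : Filter.Tendsto (fun n => ((((G⁻¹ * g (φ n) : Aˣ) : A), (⟨s (φ n), hs (φ n)⟩ : S)) : A × S))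
      Filter.atTop (𝓝 ((1 : A), (0 : S))) := by
    refine Filter.Tendsto.prodMk_nhds ?_ ?_
    · have h1 : Filter.Tendsto (fun n => b * ((g (φ n) : Aˣ) : A)) Filter.atTop (𝓝 (b * a)) :=
        hga.const_mul b
      rw [hba] at h1
      exact h1
    · rw [tendsto_subtype_rng]
      exact hs0.comp hφ'
  have t2 : Filter.Tendsto (fun n => (((1 : A), (⟨ρ G⁻¹ (s' (φ n)), hSm n⟩ : S)) : A × S))
      Filter.atTop (𝓝 ((1 : A), (0 : S))) := by
    refine Filter.Tendsto.prodMk_nhds tendsto_const_nhds ?_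
    rw [tendsto_subtype_rng]
    have h1 : Filter.Tendsto (fun n => ρ G⁻¹ (s' (φ n))) Filter.atTop (𝓝 (ρ G⁻¹ 0)) :=
      ((ρ G⁻¹).continuous.tendsto 0).comp (hs'0.comp hφ')
    rw [map_zero] at h1
    exact h1
  have hmem := hNo.mem_nhds hN1
  obtain ⟨n, hn1, hn2⟩ := ((t1.eventually_mem hmem).and (t2.eventually_mem hmem)).exists
  have hval : slTh d.Ψ f S ((((G⁻¹ * g (φ n) : Aˣ) : A), (⟨s (φ n), hs (φ n)⟩ : S)))
      = slTh d.Ψ f S (((1 : A), (⟨ρ G⁻¹ (s' (φ n)), hSm n⟩ : S))) := by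
    rw [slTh_unit]
    have e1 := slTh_unit ρ f d S 1 ⟨ρ G⁻¹ (s' (φ n)), hSm n⟩
    rw [Units.val_one, map_one] at e1
    rw [e1, map_mul]
    show ρ G⁻¹ (ρ (g (φ n)) (f + s (φ n))) = f + ρ G⁻¹ (s' (φ n))
    rw [hgs, map_add, hfix']
  have heq := hNinj hn1 hn2 hval
  have h1 : ((G⁻¹ * g (φ n) : Aˣ) : A) = 1 := congrArg Prod.fst heq
  have h2 : G⁻¹ * g (φ n) = 1 := Units.ext h1
  have h3 : g (φ n) = G := by
    have := eq_of_inv_mul_eq_one h2
    exact this.symm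
  exact hgf (φ n) (by rw [h3]; exact hfix)

/-- local structure of the action near the slice `f + S` -/
theorem slice_local (ρ : Aˣ →* (V →L[ℂ] V)) (f : V) (d : SliceData ρ f) (S : Submodule ℂ V)
    (hS : IsCompl (LinearMap.range (d.D : A →ₗ[ℂ] V)) S)
    (hSinv : ∀ g : Aˣ, ρ g f = f → ∀ s ∈ S, ρ g s ∈ S) :
    ∃ r : ℝ, 0 < r ∧
      (∀ O : Set V, IsOpen O → O ⊆ Metric.ball 0 r →
        IsOpen {v : V | ∃ g : Aˣ, ∃ s ∈ S, s ∈ O ∧ ρ g (f + s) = v}) ∧
      (∀ g : Aˣ, ∀ s ∈ S, ∀ s' ∈ S, ‖s‖ < r → ‖s'‖ < r → ρ g (f + s) = f + s' → ρ g f = f) := by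
  obtain ⟨r1, h1, h1'⟩ := slice_open ρ f d S hS
  obtain ⟨r2, h2, h2'⟩ := slice_free ρ f d S hS hSinv
  refine ⟨min r1 r2, lt_min h1 h2, ?_, ?_⟩
  · intro O hO hOr
    exact h1' O hO (hOr.trans (Metric.ball_subset_ball (min_le_left _ _)))
  · intro g s hs s' hs' hsr hs'r h
    exact h2' g s hs s' hs' (hsr.trans_le (min_le_right _ _)) (hs'r.trans_le (min_le_right _ _)) h

end Pool.Agent.Helper819.PiOne
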