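import Mathlib

set_option autoImplicit false

open Topology

namespace Pool.Agent.Helper819.PiOne

variable {G V M : Type*} [Group G] [NormedAddCommGroup V] [NormedSpace ℂ V]
  [TopologicalSpace M]

/-- the image of a small slice neighbourhood in the quotient is contractible -/
theorem slice_contract (ρ : G →* (V →L[ℂ] V)) (U : Set V) (hU : IsOpen U) (q : V → M)
    (hq : ContinuousOn q U) (hqo : ∀ O : Set V, O ⊆ U → IsOpen O → IsOpen (q '' O))
    (hUinv : ∀ g : G, ∀ u ∈ U, ρ g u ∈ U)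
    (hqr : ∀ u ∈ U, ∀ v ∈ U, (q u = q v ↔ ∃ g : G, ρ g u = v))
    (f : V) (hf : f ∈ U) (hfin : {g : G | ρ g f = f}.Finite) (S : Submodule ℂ V)
    (hSinv : ∀ g : G, ρ g f = f → ∀ s ∈ S, ρ g s ∈ S) (r : ℝ) (hr : 0 < r)
    (h1 : ∀ O : Set V, IsOpen O → O ⊆ Metric.ball 0 r →
        IsOpen {v : V | ∃ g : G, ∃ s ∈ S, s ∈ O ∧ ρ g (f + s) = v})
    (h2 : ∀ g : G, ∀ s ∈ S, ∀ s' ∈ S, ‖s‖ < r → ‖s'‖ < r → ρ g (f + s) = f + s' → ρ g f = f) :
    ∃ W : Set M, IsOpen W ∧ q f ∈ W ∧ ContractibleSpace W ∧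
      ∀ x ∈ W, ∀ y ∈ W, ∃ u ∈ U, ∃ v ∈ U, q u = x ∧ q v = y ∧
        ∀ p ∈ segment ℝ u v, p ∈ U ∧ q p ∈ W := by
  classical
  obtain ⟨r1, hr1, hr1U⟩ := Metric.isOpen_iff.1 hU f hf
  set r' := min r r1 with hr'
  have hr'0 : 0 < r' := lt_min hr hr1
  have hballU : ∀ s : V, ‖s‖ < r' → f + s ∈ U := by
    intro s hs
    apply hr1U
    rw [Metric.mem_ball, dist_eq_norm, add_sub_cancel_left]
    exact lt_of_lt_of_le hs (min_le_right _ _)
  set O' : Set V := {s | ∀ g : G, ρ g f = f → ‖ρ g s‖ < r'} with hO'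
  have hO'open : IsOpen O' := by
    have : O' = ⋂ g ∈ {g : G | ρ g f = f}, {s : V | ‖ρ g s‖ < r'} := by
      ext s; simp [hO']
    rw [this]
    exact hfin.isOpen_biInter (fun g _ => isOpen_lt ((ρ g).continuous.norm) continuous_const)
  have hO'ball : ∀ s ∈ O', ‖s‖ < r' := by
    intro s hs
    have := hs 1 (by simp)
    simpa using this
  have hO'conv : Convex ℝ O' := by
    intro x hx y hy a b ha hb hab g hg
    have e1 : ρ g (a • x + b • y) = a • ρ g x + b • ρ g y := by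
      rw [map_add, map_real_smul (ρ g) (ρ g).continuous, map_real_smul (ρ g) (ρ g).continuous]
    rw [e1]
    have n1 := hx g hg
    have n2 := hy g hg
    calc ‖a • ρ g x + b • ρ g y‖ ≤ ‖a • ρ g x‖ + ‖b • ρ g y‖ := norm_add_le _ _
      _ = a * ‖ρ g x‖ + b * ‖ρ g y‖ := by
          rw [norm_smul, norm_smul, Real.norm_of_nonneg ha, Real.norm_of_nonneg hb]
      _ < r' := by
          rcases eq_or_lt_of_le ha with h | h
          · subst h
            have hb1 : b = 1 := by linarith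
            subst hb1
            linarith
          · nlinarith
  have h0O' : (0 : V) ∈ O' := by
    intro g _
    simpa using hr'0
  let B : Set V := {s | s ∈ S ∧ s ∈ O'}
  have hBconv : Convex ℝ B := by
    intro x hx y hy a b ha hb hab
    refine ⟨?_, hO'conv hx.2 hy.2 ha hb hab⟩
    exact (S.restrictScalars ℝ).add_mem ((S.restrictScalars ℝ).smul_mem a hx.1)
      ((S.restrictScalars ℝ).smul_mem b hy.1)
  have h0B : (0 : V) ∈ B := ⟨S.zero_mem, h0O'⟩
  have hBt : ∀ t : ℝ, 0 ≤ t → t ≤ 1 → ∀ s ∈ B, t • s ∈ B := by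
    intro t ht0 ht1 s hs
    have := hBconv h0B hs (sub_nonneg.2 ht1) ht0 (by ring)
    simpa using this
  have hBU : ∀ s ∈ B, f + s ∈ U := fun s hs => hballU s (hO'ball s hs.2)
  have hT : ∀ O : Set V, IsOpen O → O ⊆ O' →
      IsOpen ((fun s => q (f + s)) '' {s | s ∈ S ∧ s ∈ O}) := by
    intro O hO hOO
    have hop := h1 O hO (fun s hs => by
      rw [mem_ball_zero_iff]
      exact lt_of_lt_of_le (hO'ball s (hOO hs)) (min_le_left _ _))
    have hsub : {v : V | ∃ g : G, ∃ s ∈ S, s ∈ O ∧ ρ g (f + s) = v} ⊆ U := by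
      rintro v ⟨g, s, hsS, hsO, rfl⟩
      exact hUinv g _ (hballU _ (hO'ball _ (hOO hsO)))
    have := hqo _ hsub hop
    convert this using 1
    ext x
    constructor
    · rintro ⟨s, ⟨hsS, hsO⟩, rfl⟩
      exact ⟨f + s, ⟨1, s, hsS, hsO, by simp⟩, rfl⟩
    · rintro ⟨v, ⟨g, s, hsS, hsO, rfl⟩, rfl⟩
      refine ⟨s, ⟨hsS, hsO⟩, ?_⟩
      have hu := hballU _ (hO'ball _ (hOO hsO))
      exact (hqr _ hu _ (hUinv g _ hu)).2 ⟨g, rfl⟩
  let W : Set M := (fun s => q (f + s)) '' B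
  have hWopen : IsOpen W := hT O' hO'open (Set.Subset.refl _)
  let π : B → W := fun s => ⟨q (f + s), s, s.2, rfl⟩
  have hπc : Continuous π := by
    refine Continuous.subtype_mk ?_ _
    exact hq.comp_continuous (by fun_prop) (fun s => hBU _ s.2)
  have hπs : Function.Surjective π := by
    rintro ⟨x, s, hs, rfl⟩
    exact ⟨⟨s, hs⟩, rfl⟩
  have hπo : IsOpenMap π := by
    intro A hA
    obtain ⟨O, hO, rfl⟩ := isOpen_induced_iff.1 hA
    have := hT (O' ∩ O) (hO'open.inter hO) Set.inter_subset_left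
    refine isOpen_induced_iff.2 ⟨_, this, ?_⟩
    ext w
    constructor
    · rintro ⟨s, ⟨hsS, hsO', hsO⟩, hw⟩
      exact ⟨⟨s, hsS, hsO'⟩, hsO, Subtype.ext hw⟩
    · rintro ⟨s, hsO, rfl⟩
      exact ⟨s, ⟨s.2.1, s.2.2, hsO⟩, rfl⟩
  let K : unitInterval × B → W := fun p => π ⟨(p.1 : ℝ) • (p.2 : V), hBt _ p.1.2.1 p.1.2.2 _ p.2.2⟩
  have hKc : Continuous K := by
    refine hπc.comp (Continuous.subtype_mk ?_ _)
    fun_prop
  have hKf : ∀ (t : unitInterval) (s s' : B), π s = π s' → K (t, s) = K (t, s') := by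
    intro t s s' h
    have h' : q (f + s) = q (f + s') := congrArg Subtype.val h
    obtain ⟨g, hg⟩ := (hqr _ (hBU _ s.2) _ (hBU _ s'.2)).1 h'
    have hgf := h2 g s s.2.1 s' s'.2.1
      (lt_of_lt_of_le (hO'ball _ s.2.2) (min_le_left _ _))
      (lt_of_lt_of_le (hO'ball _ s'.2.2) (min_le_left _ _)) hg
    have hgs : ρ g (s : V) = (s' : V) := by
      rw [map_add, hgf] at hg
      exact add_left_cancel hg
    apply Subtype.ext
    show q (f + (t : ℝ) • (s : V)) = q (f + (t : ℝ) • (s' : V))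
    refine (hqr _ (hBU _ (hBt _ t.2.1 t.2.2 _ s.2)) _ (hBU _ (hBt _ t.2.1 t.2.2 _ s'.2))).2 ⟨g, ?_⟩
    rw [map_add, hgf, map_real_smul (ρ g) (ρ g).continuous, hgs]
  have hQ : IsOpenQuotientMap (Prod.map id π : unitInterval × B → unitInterval × W) :=
    IsOpenQuotientMap.prodMap IsOpenQuotientMap.id ⟨hπs, hπc, hπo⟩
  let sec : W → B := Function.surjInv hπs
  have hsec : ∀ w, π (sec w) = w := Function.surjInv_eq hπs
  let H : unitInterval × W → W := fun p => K (p.1, sec p.2)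
  have hHc : Continuous H := by
    rw [hQ.isQuotientMap.continuous_iff]
    have : H ∘ (Prod.map id π) = K := by
      funext p
      exact hKf p.1 (sec (π p.2)) p.2 (hsec _)
    rw [this]
    exact hKc
  refine ⟨W, hWopen, ⟨0, h0B, by simp⟩, ?_, ?_⟩
  · rw [contractible_iff_id_nullhomotopic]
    refine ⟨π ⟨0, h0B⟩, ContinuousMap.Homotopic.symm ⟨⟨⟨H, hHc⟩, ?_, ?_⟩⟩⟩
    · intro w
      show K (0, sec w) = π ⟨0, h0B⟩
      show π _ = π _
      congr 1
      apply Subtype.ext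
      simp
    · intro w
      show K (1, sec w) = w
      conv_rhs => rw [← hsec w]
      show π _ = π _
      congr 1
      apply Subtype.ext
      simp
  · rintro x ⟨s, hs, rfl⟩ y ⟨s', hs', rfl⟩
    refine ⟨f + s, hBU s hs, f + s', hBU s' hs', rfl, rfl, ?_⟩
    rintro p ⟨a, b, ha, hb, hab, rfl⟩
    have hmem := hBconv hs hs' ha hb hab
    have e : a • (f + s) + b • (f + s') = f + (a • s + b • s') := by
      rw [smul_add, smul_add, add_add_add_comm, ← add_smul, hab, one_smul]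
    rw [e]
    exact ⟨hBU _ hmem, _, hmem, rfl⟩

end Pool.Agent.Helper819.PiOne
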