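import Pool.Agent.Helper819.Pi.Base4

set_option autoImplicit false

open MvPolynomial

namespace Pool.Agent.Helper819.PiOne



theorem conj_aux7525 {n d : ℕ} (hd : 2 ≤ d) {a A : ℝ} (ha : 0 < a) (hA : 0 < A)
    (g : (Vec n →L[ℂ] Vec n)ˣ) (u : Tup n d)
    (h1 : ∀ x : Vec n, ‖ev u x‖ ≤ A * ‖x‖ ^ d)
    (h2 : ∀ x : Vec n, a * ‖x‖ ^ d ≤ ‖ev (rho n d g u) x‖) :
    ‖(g : Vec n →L[ℂ] Vec n)‖ ≤ max 1 (A / a) := by
  obtain ⟨N, hN⟩ : ∃ N, N = ‖(g : Vec n →L[ℂ] Vec n)‖ := ⟨_, rfl⟩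
  have hN0 : 0 ≤ N := by rw [hN]; exact norm_nonneg _
  have hB0 : 0 ≤ A / a := by positivity
  have hd0 : d ≠ 0 := by omega
  obtain ⟨r, hr0, hr⟩ : ∃ r : ℝ, 0 ≤ r ∧ r ^ d = A / a * N := by
    refine ⟨(A / a * N) ^ ((d : ℝ)⁻¹), Real.rpow_nonneg (by positivity) _, ?_⟩
    exact Real.rpow_inv_natCast_pow (by positivity) hd0
  have h3 : N ≤ r := by
    rw [hN]
    apply ContinuousLinearMap.opNorm_le_bound _ hr0
    intro x
    have h4 := h2 ((g : Vec n →L[ℂ] Vec n) x)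
    rw [ev_rho] at h4
    have h5 : ‖(g : Vec n →L[ℂ] Vec n) (ev u x)‖ ≤ N * (A * ‖x‖ ^ d) := by
      refine (ContinuousLinearMap.le_opNorm _ _).trans ?_
      rw [hN]
      exact mul_le_mul_of_nonneg_left (h1 x) (norm_nonneg _)
    have h6 : ‖(g : Vec n →L[ℂ] Vec n) x‖ ^ d ≤ (r * ‖x‖) ^ d := by
      rw [mul_pow, hr]
      have h7 : a * ‖(g : Vec n →L[ℂ] Vec n) x‖ ^ d ≤ a * (A / a * N * ‖x‖ ^ d) := by
        have h8 : a * (A / a * N * ‖x‖ ^ d) = N * (A * ‖x‖ ^ d) := by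
          field_simp
        rw [h8]
        exact h4.trans h5
      exact le_of_mul_le_mul_left h7 ha
    exact (pow_le_pow_iff_left₀ (norm_nonneg _) (by positivity) hd0).1 h6
  have h4 : N ^ d ≤ A / a * N := by rw [← hr]; exact pow_le_pow_left₀ hN0 h3 d
  rw [← hN]
  by_contra hcon
  rw [not_le, max_lt_iff] at hcon
  obtain ⟨hc1, hc2⟩ := hcon
  have hN1 : 0 < N := by linarith
  have h5 : N ^ (d - 1) * N ≤ A / a * N := by
    rw [← pow_succ, Nat.sub_add_cancel (by omega)]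
    exact h4
  have h6 : N ^ (d - 1) ≤ A / a := le_of_mul_le_mul_right h5 hN1
  have h7 : N ≤ N ^ (d - 1) := le_self_pow₀ hc1.le (by omega)
  linarith

theorem conj_bounded {n d : ℕ} (hn : 0 < n) (hd : 2 ≤ d) (c : Tup n d) (hc : IsMor c) :
    ∃ C : ℝ, ∃ O ∈ nhds c, ∀ g : (Vec n →L[ℂ] Vec n)ˣ, ∀ u ∈ O, rho n d g u ∈ O →
      ‖(g : Vec n →L[ℂ] Vec n)‖ ≤ C ∧ ‖((g⁻¹ : (Vec n →L[ℂ] Vec n)ˣ) : Vec n →L[ℂ] Vec n)‖ ≤ C := by
  obtain ⟨δ, hδ, a, ha, A, hA, hb⟩ := bounds c hc (Or.inl hn)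
  refine ⟨max 1 (A / a), Metric.ball c δ, Metric.ball_mem_nhds c hδ, ?_⟩
  intro g u hu hgu
  rw [Metric.mem_ball, dist_eq_norm] at hu hgu
  constructor
  · exact conj_aux7525 hd ha hA g u (fun x => (hb u hu x).2) (fun x => (hb _ hgu x).1)
  · apply conj_aux7525 hd ha hA g⁻¹ (rho n d g u) (fun x => (hb _ hgu x).2)
    have h1 : rho n d g⁻¹ (rho n d g u) = u := by
      rw [← ContinuousLinearMap.mul_apply, ← map_mul, inv_mul_cancel, map_one]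
      rfl
    rw [h1]
    exact fun x => (hb u hu x).1

end Pool.Agent.Helper819.PiOne
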