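import Pool.Agent.Helper819.Pi.SliceDef
import Pool.Agent.Helper819.Pi.Base4

set_option autoImplicit false

open MvPolynomial

namespace Pool.Agent.Helper819.PiOne



/-- (available: proved elsewhere) -/
def ExpBoundedStmt : Prop := ∀ (A : Type) [NormedRing A] [NormedAlgebra ℂ A] [CompleteSpace A] (X : A)
    (C : ℝ) (_ : ∀ t : ℂ, ‖NormedSpace.exp (t • X)‖ ≤ C), X = 0



theorem cd_7526 {A V : Type*} [NormedRing A] [NormedAlgebra ℂ A] [CompleteSpace A]
    [NormedAddCommGroup V] [NormedSpace ℂ V] {P Q : A × V → V} (hP : ContDiff ℂ 1 P)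
    (hQ : ContDiff ℂ 1 Q) (g : Aˣ) (v : V) :
    ContDiffAt ℂ 1 (fun p : A × V => P (p.1, Q (Ring.inverse p.1, p.2))) ((g : A), v) := by
  have h0 : ContDiffAt ℂ 1 Ring.inverse (Prod.fst (((g : A), v) : A × V)) :=
    contDiffAt_ringInverse ℂ g
  have h1 : ContDiffAt ℂ 1 (fun p : A × V => Ring.inverse p.1) ((g : A), v) :=
    ContDiffAt.comp ((g : A), v) h0 contDiffAt_fst
  have h2 : ContDiffAt ℂ 1 (fun p : A × V => Q (Ring.inverse p.1, p.2)) ((g : A), v) :=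
    hQ.contDiffAt.comp ((g : A), v) (h1.prodMk contDiffAt_snd)
  exact hP.contDiffAt.comp ((g : A), v) (contDiffAt_fst.prodMk h2)

theorem stab_7526 {A V : Type*} [NormedRing A] [NormedAlgebra ℂ A] [CompleteSpace A]
    [NormedAddCommGroup V] [NormedSpace ℂ V] (ρ : Aˣ →* (V →L[ℂ] V)) (Ψ : A × V → V)
    (hΨ : ∀ (g : Aˣ) (v : V), Ψ ((g : A), v) = ρ g v) (c : V) (L : A × V →L[ℂ] V)
    (hL : HasFDerivAt Ψ L ((1 : A), c)) (X : A) (hX : L (X, 0) = 0) (t : ℂ) :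
    ∃ u : Aˣ, (u : A) = NormedSpace.exp (t • X) ∧ ρ u c = c := by
  have hexp : ∀ s t : ℂ, NormedSpace.exp ((s + t) • X) =
      NormedSpace.exp (s • X) * NormedSpace.exp (t • X) := by
    intro s t
    rw [add_smul]
    exact NormedSpace.exp_add_of_commute_of_mem_ball (𝕂 := ℂ)
      (((Commute.refl X).smul_left s).smul_right t)
      ((NormedSpace.expSeries_radius_eq_top ℂ A).symm ▸ edist_lt_top _ _)
      ((NormedSpace.expSeries_radius_eq_top ℂ A).symm ▸ edist_lt_top _ _)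
  have hexp0 : NormedSpace.exp ((0 : ℂ) • X) = 1 := by rw [zero_smul, NormedSpace.exp_zero]
  obtain ⟨u, hu⟩ : ∃ u : ℂ → Aˣ, ∀ t, (u t : A) = NormedSpace.exp (t • X) := by
    refine ⟨fun t => ⟨NormedSpace.exp (t • X), NormedSpace.exp ((-t) • X), ?_, ?_⟩, fun t => rfl⟩
    · rw [← hexp, add_neg_cancel, hexp0]
    · rw [← hexp, neg_add_cancel, hexp0]
  have hG : HasDerivAt (fun s : ℂ => Ψ (NormedSpace.exp (s • X), c)) 0 0 := by
    have h1 : HasDerivAt (fun s : ℂ => NormedSpace.exp (s • X)) X 0 := by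
      have := hasDerivAt_exp_smul_const X (0 : ℂ)
      rwa [hexp0, one_mul] at this
    have h2 : HasDerivAt (fun s : ℂ => ((NormedSpace.exp (s • X), c) : A × V)) (X, 0) 0 :=
      h1.prodMk (hasDerivAt_const _ _)
    have h3 : HasFDerivAt Ψ L ((NormedSpace.exp ((0 : ℂ) • X), c) : A × V) := by
      rw [hexp0]; exact hL
    have h4 := HasFDerivAt.comp_hasDerivAt (l := Ψ)
      (f := fun s : ℂ => ((NormedSpace.exp (s • X), c) : A × V)) (0 : ℂ) h3 h2
    rw [hX] at h4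
    exact h4
  have hF : ∀ t : ℂ, HasDerivAt (fun s : ℂ => ρ (u s) c) 0 t := by
    intro t
    have h1 : (fun s : ℂ => ρ (u s) c) =
        fun s => ρ (u t) (Ψ (NormedSpace.exp ((s - t) • X), c)) := by
      funext s
      have h2 : u s = u t * u (s - t) := by
        apply Units.ext
        rw [Units.val_mul, hu, hu, hu, ← hexp]
        congr 2
        ring
      rw [h2, map_mul, ← hu, hΨ]
      rfl
    rw [h1]
    have h3 : HasDerivAt (fun s : ℂ => Ψ (NormedSpace.exp ((s - t) • X), c)) 0 t := by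
      have h4 : HasDerivAt (fun s : ℂ => Ψ (NormedSpace.exp (s • X), c)) 0 (t - t) := by
        rw [sub_self]; exact hG
      exact HasDerivAt.comp_sub_const t t h4
    have h5 := (ρ (u t)).hasFDerivAt.comp_hasDerivAt t h3
    rw [map_zero] at h5
    exact h5
  refine ⟨u t, hu t, ?_⟩
  have h1 := is_const_of_deriv_eq_zero (f := fun s : ℂ => ρ (u s) c)
    (fun s => (hF s).differentiableAt) (fun s => (hF s).deriv) t 0
  have h2 : u 0 = 1 := by
    apply Units.ext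
    rw [hu, hexp0, Units.val_one]
  simp only [h2, map_one] at h1
  exact h1

theorem nonempty_sliceData {n d : ℕ} (hE : ExpBoundedStmt) (hn : 0 < n) (hd : 2 ≤ d) (c : Tup n d)
    (hc : IsMor c)
    (hb : ∃ C : ℝ, ∃ O ∈ nhds c, ∀ g : (Vec n →L[ℂ] Vec n)ˣ, ∀ u ∈ O, rho n d g u ∈ O →
      ‖(g : Vec n →L[ℂ] Vec n)‖ ≤ C ∧ ‖((g⁻¹ : (Vec n →L[ℂ] Vec n)ˣ) : Vec n →L[ℂ] Vec n)‖ ≤ C) :
    Nonempty (SliceData (rho n d) c) := by
  obtain ⟨C, O, hO, hb⟩ := hb
  obtain ⟨Ψ, hΨd⟩ : ∃ Ψ : (Vec n →L[ℂ] Vec n) × Tup n d → Tup n d,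
      Ψ = fun p => post p.1 (pre (Ring.inverse p.1) p.2) := ⟨_, rfl⟩
  have hΨ : ∀ (g : (Vec n →L[ℂ] Vec n)ˣ) (v : Tup n d),
      Ψ ((g : Vec n →L[ℂ] Vec n), v) = rho n d g v := by
    intro g v
    rw [hΨd, rho_apply]
    simp only [Ring.inverse_unit]
  have hcd : ∀ (g : (Vec n →L[ℂ] Vec n)ˣ) (v : Tup n d),
      ContDiffAt ℂ 1 Ψ ((g : Vec n →L[ℂ] Vec n), v) := by
    intro g v
    rw [hΨd]
    have h3 := (contDiff_pre (n := n) (d := d)).of_le (m := 1) le_top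
    have h4 := (contDiff_post (n := n) (d := d)).of_le (m := 1) le_top
    exact cd_7526 h4 h3 g v
  have h1c : ((1 : (Vec n →L[ℂ] Vec n)ˣ) : Vec n →L[ℂ] Vec n) = 1 := Units.val_one
  have hcd1 : ContDiffAt ℂ 1 Ψ ((1 : Vec n →L[ℂ] Vec n), c) := by
    have := hcd 1 c
    rwa [h1c] at this
  have hstr : HasStrictFDerivAt Ψ (fderiv ℂ Ψ ((1 : Vec n →L[ℂ] Vec n), c))
      ((1 : Vec n →L[ℂ] Vec n), c) := hcd1.hasStrictFDerivAt one_ne_zero
  generalize fderiv ℂ Ψ ((1 : Vec n →L[ℂ] Vec n), c) = L at hstr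
  have hΨ1 : ∀ v : Tup n d, Ψ ((1 : Vec n →L[ℂ] Vec n), v) = v := by
    intro v
    have := hΨ 1 v
    rw [h1c, map_one] at this
    exact this
  have hL2 : ∀ v : Tup n d, L (0, v) = v := by
    intro v
    have h2 : HasFDerivAt (fun v : Tup n d => (((1 : Vec n →L[ℂ] Vec n), v) :
        (Vec n →L[ℂ] Vec n) × Tup n d))
        (ContinuousLinearMap.inr ℂ (Vec n →L[ℂ] Vec n) (Tup n d)) c :=
      hasFDerivAt_prodMk_right _ _
    have h3 := HasFDerivAt.comp c hstr.hasFDerivAt h2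
    have h4 : (Ψ ∘ fun v : Tup n d => (((1 : Vec n →L[ℂ] Vec n), v) :
        (Vec n →L[ℂ] Vec n) × Tup n d)) = id := by
      funext v
      exact hΨ1 v
    rw [h4] at h3
    have h5 := h3.unique (hasFDerivAt_id c)
    have h6 := congrArg (fun T : Tup n d →L[ℂ] Tup n d => T v) h5
    simpa using h6
  obtain ⟨D, hD⟩ : ∃ D : (Vec n →L[ℂ] Vec n) →L[ℂ] Tup n d,
      D = L.comp (ContinuousLinearMap.inl ℂ (Vec n →L[ℂ] Vec n) (Tup n d)) := ⟨_, rfl⟩
  have hLD : L = D.coprod (ContinuousLinearMap.id ℂ (Tup n d)) := by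
    apply ContinuousLinearMap.ext
    rintro ⟨X, v⟩
    have e1 : ((X, v) : (Vec n →L[ℂ] Vec n) × Tup n d) = (X, 0) + (0, v) := by simp
    rw [e1, map_add, hL2, hD]
    simp [hL2]
  have hinj : ∀ X : Vec n →L[ℂ] Vec n, D X = 0 → X = 0 := by
    intro X hX
    refine hE _ X C fun t => ?_
    obtain ⟨u, hu, hu2⟩ := stab_7526 (rho n d) Ψ hΨ c L hstr.hasFDerivAt X (by
      rw [hD] at hX; exact hX) t
    rw [← hu]
    have hcO := mem_of_mem_nhds hO
    exact (hb u c hcO (by rw [hu2]; exact hcO)).1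
  refine ⟨⟨Ψ, hΨ, D, ?_, ?_, ?_, C, O, hO, hb⟩⟩
  · intro X Y hXY
    have := hinj (X - Y) (by rw [map_sub, hXY, sub_self])
    exact sub_eq_zero.1 this
  · rw [← hLD]; exact hstr
  · rintro ⟨a, v⟩ ⟨⟨g, hg⟩, -⟩
    have := (hcd g v).continuousAt
    simp only at hg
    rw [hg] at this
    exact this.continuousWithinAt

end Pool.Agent.Helper819.PiOne
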