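import Pool.Agent.Helper819.Pi.Mod
import Pool.Agent.Helper819.Pi.SA
import Pool.Agent.Helper819.Pi.SB
import Pool.Agent.Helper819.Pi.SC
import Pool.Agent.Helper819.Pi.SD
import Pool.Agent.Helper819.Pi.SE1
import Pool.Agent.Helper819.Pi.SE2

set_option autoImplicit false

open Topology

namespace Pool.Agent.Helper819.PiOne

variable {N d : ℕ}

theorem expBoundedStmt : ExpBoundedStmt := by
  intro A _ _ _ X C h
  exact exp_bounded X C h

/-- the stabiliser as a subgroup -/
noncomputable def stabG (f : Tup (N + 1) d) : Subgroup (Vec (N + 1) →L[ℂ] Vec (N + 1))ˣ where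
  carrier := {g | rho (N + 1) d g f = f}
  mul_mem' {a b} ha hb := by
    have ha' : rho (N + 1) d a f = f := ha
    have hb' : rho (N + 1) d b f = f := hb
    show rho (N + 1) d (a * b) f = f
    rw [map_mul]
    show rho (N + 1) d a (rho (N + 1) d b f) = f
    rw [hb', ha']
  one_mem' := by
    show rho (N + 1) d 1 f = f
    rw [map_one]
    rfl
  inv_mem' {a} ha := by
    have ha' : rho (N + 1) d a f = f := ha
    show rho (N + 1) d a⁻¹ f = f
    conv_lhs => rw [← ha']
    have : (rho (N + 1) d a⁻¹ * rho (N + 1) d a) f = f := by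
      rw [← map_mul, inv_mul_cancel, map_one]
      rfl
    exact this

/-- the representation as linear maps -/
noncomputable def rhoLin (N d : ℕ) : (Vec (N + 1) →L[ℂ] Vec (N + 1))ˣ →*
    (Tup (N + 1) d →ₗ[ℂ] Tup (N + 1) d) where
  toFun g := (rho (N + 1) d g : Tup (N + 1) d →ₗ[ℂ] Tup (N + 1) d)
  map_one' := by
    rw [map_one]
    rfl
  map_mul' a b := by
    rw [map_mul]
    rfl

/-- points of the moduli space have contractible neighbourhoods with liftable paths -/
theorem local_structure (hd : 2 ≤ d) (f : Tup (N + 1) d) (hf : IsMor f) :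
    ∃ W : Set (ModuliSpace N d), IsOpen W ∧ qV N d hd f ∈ W ∧ ContractibleSpace W ∧
      ∀ x ∈ W, ∀ y ∈ W, ∃ u ∈ {c : Tup (N + 1) d | IsMor c}, ∃ v ∈ {c : Tup (N + 1) d | IsMor c},
        qV N d hd u = x ∧ qV N d hd v = y ∧
        ∀ p ∈ segment ℝ u v, p ∈ {c : Tup (N + 1) d | IsMor c} ∧ qV N d hd p ∈ W := by
  obtain ⟨D⟩ := nonempty_sliceData (n := N + 1) expBoundedStmt (by omega) hd f hf
    (conj_bounded (by omega) hd f hf)
  have hfin := stab_finite (rho (N + 1) d) f D
  obtain ⟨S, hS, hSinv⟩ := invariant_complement (rhoLin N d) (stabG f) hfin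
    (LinearMap.range (D.D : (Vec (N + 1) →L[ℂ] Vec (N + 1)) →ₗ[ℂ] Tup (N + 1) d)) (by
      intro g hg t ht
      obtain ⟨X, rfl⟩ := ht
      have := range_invariant (rho (N + 1) d) f D g hg X
      exact ⟨_, this.symm⟩)
  have hSinv' : ∀ g : (Vec (N + 1) →L[ℂ] Vec (N + 1))ˣ, rho (N + 1) d g f = f →
      ∀ s ∈ S, rho (N + 1) d g s ∈ S := fun g hg s hs => hSinv g hg s hs
  obtain ⟨r, hr, h1, h2⟩ := slice_local (rho (N + 1) d) f D S hS hSinv'
  exact slice_contract (rho (N + 1) d) {c | IsMor c} isOpen_isMor (qV N d hd)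
    (continuousOn_qV hd) (fun O hO hO2 => qV_open hd O hO hO2)
    (fun g u hu => isMor_rho g u hu) (fun u hu v hv => qV_eq_iff hd u v hu hv) f hf hfin S hSinv'
    r hr h1 h2

theorem homotopic_of_contractible {M : Type} [TopologicalSpace M] (W : Set M)
    (hW : ContractibleSpace W) (x y : M) (γ γ' : Path x y) (h : ∀ t, γ t ∈ W)
    (h' : ∀ t, γ' t ∈ W) : γ.Homotopic γ' := by
  have hx : x ∈ W := by have := h 0; rwa [γ.source] at this
  have hy : y ∈ W := by have := h 1; rwa [γ.target] at this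
  let δ : Path (⟨x, hx⟩ : W) ⟨y, hy⟩ :=
    ⟨⟨fun t => ⟨γ t, h t⟩, γ.continuous.subtype_mk _⟩, Subtype.ext γ.source, Subtype.ext γ.target⟩
  let δ' : Path (⟨x, hx⟩ : W) ⟨y, hy⟩ :=
    ⟨⟨fun t => ⟨γ' t, h' t⟩, γ'.continuous.subtype_mk _⟩, Subtype.ext γ'.source, Subtype.ext γ'.target⟩
  have hsc : SimplyConnectedSpace W := inferInstance
  have h1 : δ.Homotopic δ' := SimplyConnectedSpace.paths_homotopic δ δ'
  exact h1.map ⟨Subtype.val, continuous_subtype_val⟩

end Pool.Agent.Helper819.PiOne
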