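import Pool.Agent.Helper819.Pi.Loc
import Pool.Agent.Helper819.Pi.Gen

set_option autoImplicit false

open Topology

namespace Pool.Agent.Helper819.PiOne

variable {N d : ℕ}

theorem pathConnectedSpace_lifts (n d : ℕ) (hd : 1 ≤ d) : PathConnectedSpace (Lifts n d) := by
  have hj : ∀ x : Lifts n d, Joined (⟨pw n d, isMor_pw n d hd⟩ : Lifts n d) x := by
    intro x
    obtain ⟨c, hc⟩ := line_join hd x.1 x.2
    refine ⟨⟨⟨fun t => ⟨pw n d + c t • (x.1 - pw n d), hc t⟩, ?_⟩, ?_, ?_⟩⟩
    · exact Continuous.subtype_mk (by fun_prop) _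
    · apply Subtype.ext
      simp
    · apply Subtype.ext
      simp
  exact ⟨⟨⟨pw n d, isMor_pw n d hd⟩⟩, fun x y => (hj x).symm.trans (hj y)⟩

theorem simplyConnected_moduli (m d : ℕ) (hd : 2 ≤ d) :
    SimplyConnectedSpace (ModuliSpace (m + 1) d) := by
  have hpc : PathConnectedSpace (Lifts (m + 1 + 1) d) := pathConnectedSpace_lifts _ d (by omega)
  refine simply_of_cover transportStmt (qm (m + 1) d) continuous_qm surjective_qm
    (fun u v h => fibre_joined hd u v h) ?_ ?_
  · intro u v γ γ'
    have hq' : Continuous (fun u : {c : Tup (m + 2) d | IsMor c} => qV (m + 1) d hd u) := by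
      have : (fun u : {c : Tup (m + 2) d | IsMor c} => qV (m + 1) d hd u) = qm (m + 1) d := by
        funext c
        exact qV_coe hd c
      rw [this]
      exact continuous_qm
    have h := paths_homotopic m d hd (qV (m + 1) d hd) (continuousOn_qV hd)
      (fun g c hc => qV_rho hd g c hc) hq' u v γ γ'
    have e1 : (γ.map continuous_qm) = (γ.map hq').cast (qV_coe hd u).symm (qV_coe hd v).symm := by
      ext t
      exact (qV_coe hd (γ t)).symm
    have e2 : (γ'.map continuous_qm) = (γ'.map hq').cast (qV_coe hd u).symm (qV_coe hd v).symm := by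
      ext t
      exact (qV_coe hd (γ' t)).symm
    rw [e1, e2]
    obtain ⟨H⟩ := h
    exact ⟨H.cast rfl rfl⟩
  · intro x
    obtain ⟨f, rfl⟩ := surjective_qm x
    obtain ⟨W, hW, hfW, hWc, hseg⟩ := local_structure hd f.1 f.2
    rw [qV_coe] at hfW
    refine ⟨W, hW.mem_nhds hfW, ?_, ?_⟩
    · intro x y γ γ' h h'
      exact homotopic_of_contractible W hWc x y γ γ' h h'
    · intro x hx y hy
      obtain ⟨u, hu, v, hv, hux, hvy, hs⟩ := hseg x hx y hy
      have hmem : ∀ t : unitInterval, AffineMap.lineMap (k := ℝ) u v (t : ℝ) ∈ segment ℝ u v := by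
        intro t
        rw [segment_eq_image_lineMap]
        exact ⟨t, t.2, rfl⟩
      refine ⟨⟨u, hu⟩, ⟨v, hv⟩, ?_, ?_, ⟨⟨fun t => ⟨AffineMap.lineMap (k := ℝ) u v (t : ℝ),
        (hs _ (hmem t)).1⟩, ?_⟩, ?_, ?_⟩, ?_⟩
      · rw [← qV_coe hd]; exact hux
      · rw [← qV_coe hd]; exact hvy
      · refine Continuous.subtype_mk ?_ _
        exact AffineMap.lineMap_continuous.comp continuous_subtype_val
      · apply Subtype.ext
        simp
      · apply Subtype.ext
        simp
      · intro t
        rw [← qV_coe hd]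
        exact (hs _ (hmem t)).2

end Pool.Agent.Helper819.PiOne
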