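import Pool.Agent.Helper819.Pi.Base4
import Pool.Agent.Helper819.Pi.J6

set_option autoImplicit false

open Topology

namespace Pool.Agent.Helper819.PiOne

/-- the lifts `(F_0, …, F_{n-1})` of the morphisms `ℙ^{n-1} → ℙ^{n-1}` of degree `d` -/
abbrev Lifts (n d : ℕ) : Type := {c : Tup n d // IsMor c}

/-- the morphisms given by `c` and `c'` are conjugate under `PGL_n` -/
def Conjugate {n d : ℕ} (c c' : Lifts n d) : Prop :=
  ∃ (g : Vec n ≃ₗ[ℂ] Vec n) (l : ℂ), l ≠ 0 ∧ ∀ x : Vec n, ev c'.1 (g x) = l • g (ev c.1 x)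

/-- conjugacy as an equivalence relation -/
def conjSetoid (n d : ℕ) : Setoid (Lifts n d) where
  r := Conjugate
  iseqv := by
    refine ⟨fun c => ⟨LinearEquiv.refl ℂ _, 1, one_ne_zero, fun x => by simp⟩, ?_, ?_⟩
    · rintro c c' ⟨g, l, hl, h⟩
      refine ⟨g.symm, l⁻¹, inv_ne_zero hl, fun x => ?_⟩
      have h1 := h (g.symm x)
      rw [LinearEquiv.apply_symm_apply] at h1
      rw [h1, map_smul, LinearEquiv.symm_apply_apply, smul_smul, inv_mul_cancel₀ hl, one_smul]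
    · rintro c c' c'' ⟨g, l, hl, h⟩ ⟨g', l', hl', h'⟩
      refine ⟨g.trans g', l' * l, mul_ne_zero hl' hl, fun x => ?_⟩
      rw [LinearEquiv.trans_apply, LinearEquiv.trans_apply, h', h, map_smul, smul_smul]

/-- the moduli space `M_d^N(ℂ)` with the quotient topology -/
def ModuliSpace (N d : ℕ) : Type := Quotient (conjSetoid (N + 1) d)

instance (N d : ℕ) : TopologicalSpace (ModuliSpace N d) :=
  inferInstanceAs (TopologicalSpace (Quotient (conjSetoid (N + 1) d)))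

variable {N n d : ℕ}

theorem conjugate_iff (hd : 2 ≤ d) (c c' : Lifts n d) :
    Conjugate c c' ↔ ∃ g : (Vec n →L[ℂ] Vec n)ˣ, rho n d g c.1 = c'.1 := by
  constructor
  · rintro ⟨g, l, hl, h⟩
    obtain ⟨s, hs⟩ := IsAlgClosed.exists_pow_nat_eq l⁻¹ (show 0 < d - 1 by omega)
    have hs0 : s ≠ 0 := by
      rintro rfl
      rw [zero_pow (by omega)] at hs
      exact inv_ne_zero hl hs.symm
    let g' : Vec n ≃ₗ[ℂ] Vec n := (LinearEquiv.smulOfNeZero ℂ (Vec n) s hs0).trans g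
    refine ⟨g'.toContinuousLinearEquiv.toUnit, ?_⟩
    rw [rho_eq_iff]
    intro x
    have e : ∀ y : Vec n, ((g'.toContinuousLinearEquiv.toUnit : (Vec n →L[ℂ] Vec n)ˣ) :
        Vec n →L[ℂ] Vec n) y = s • g y := by
      intro y
      show g (s • y) = s • g y
      rw [map_smul]
    rw [e, e, ev_smul_pt, h, smul_smul]
    congr 1
    have : s ^ d = s ^ (d - 1) * s := by
      rw [← pow_succ]; congr 1; omega
    rw [this, hs]
    field_simp
  · rintro ⟨g, hg⟩
    rw [rho_eq_iff] at hg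
    refine ⟨(ContinuousLinearEquiv.ofUnit g).toLinearEquiv, 1, one_ne_zero, fun x => ?_⟩
    rw [one_smul]
    exact hg x

/-- the quotient map -/
def qm (N d : ℕ) (c : Lifts (N + 1) d) : ModuliSpace N d := Quotient.mk (conjSetoid (N + 1) d) c

theorem continuous_qm : Continuous (qm N d) := continuous_quotient_mk'

theorem surjective_qm : Function.Surjective (qm N d) := Quotient.mk_surjective

theorem qm_eq_iff (hd : 2 ≤ d) (c c' : Lifts (N + 1) d) :
    qm N d c = qm N d c' ↔ ∃ g : (Vec (N + 1) →L[ℂ] Vec (N + 1))ˣ, rho (N + 1) d g c.1 = c'.1 := by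
  rw [← conjugate_iff hd]
  exact Quotient.eq

theorem isOpen_moduli (O : Set (ModuliSpace N d)) : IsOpen O ↔ IsOpen (qm N d ⁻¹' O) := Iff.rfl

open Classical in
/-- the quotient map, extended to all tuples -/
noncomputable def qV (N d : ℕ) (hd : 2 ≤ d) (c : Tup (N + 1) d) : ModuliSpace N d :=
  if h : IsMor c then qm N d ⟨c, h⟩ else qm N d ⟨pw (N + 1) d, isMor_pw _ d (by omega)⟩

theorem qV_coe (hd : 2 ≤ d) (c : Lifts (N + 1) d) : qV N d hd c.1 = qm N d c := by
  unfold qV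
  rw [dif_pos c.2]

theorem continuousOn_qV (hd : 2 ≤ d) : ContinuousOn (qV N d hd) {c | IsMor c} := by
  rw [continuousOn_iff_continuous_domRestrict]
  have : Set.domRestrict {c | IsMor c} (qV N d hd) = qm N d := by
    funext c
    exact qV_coe hd c
  rw [this]
  exact continuous_qm

theorem qV_eq_iff (hd : 2 ≤ d) (u v : Tup (N + 1) d) (hu : IsMor u) (hv : IsMor v) :
    qV N d hd u = qV N d hd v ↔
      ∃ g : (Vec (N + 1) →L[ℂ] Vec (N + 1))ˣ, rho (N + 1) d g u = v := by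
  have h1 := qV_coe hd (⟨u, hu⟩ : Lifts (N + 1) d)
  have h2 := qV_coe hd (⟨v, hv⟩ : Lifts (N + 1) d)
  simp only at h1 h2
  rw [h1, h2, qm_eq_iff hd]

theorem qV_open (hd : 2 ≤ d) (O : Set (Tup (N + 1) d)) (hO : O ⊆ {c | IsMor c}) (hO2 : IsOpen O) :
    IsOpen (qV N d hd '' O) := by
  rw [isOpen_moduli]
  have : qm N d ⁻¹' (qV N d hd '' O) =
      ⋃ g : (Vec (N + 1) →L[ℂ] Vec (N + 1))ˣ, {v : Lifts (N + 1) d | rho (N + 1) d g v.1 ∈ O} := by
    ext v
    simp only [Set.mem_preimage, Set.mem_image, Set.mem_iUnion, Set.mem_ofPred_eq]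
    constructor
    · rintro ⟨u, hu, huv⟩
      rw [← qV_coe hd v, eq_comm, qV_eq_iff hd _ _ v.2 (hO hu)] at huv
      obtain ⟨g, hg⟩ := huv
      exact ⟨g, by rw [hg]; exact hu⟩
    · rintro ⟨g, hg⟩
      refine ⟨_, hg, ?_⟩
      rw [← qV_coe hd v, eq_comm, qV_eq_iff hd _ _ v.2 (hO hg)]
      exact ⟨g, rfl⟩
  rw [this]
  exact isOpen_iUnion fun g => hO2.preimage ((rho (N + 1) d g).continuous.comp continuous_subtype_val)

theorem qV_rho (hd : 2 ≤ d) (g : (Vec (N + 1) →L[ℂ] Vec (N + 1))ˣ) (c : Tup (N + 1) d)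
    (hc : IsMor c) : qV N d hd (rho (N + 1) d g c) = qV N d hd c := by
  rw [eq_comm, qV_eq_iff hd _ _ hc (isMor_rho g c hc)]
  exact ⟨g, rfl⟩

/-- points of a fibre are joined inside the fibre -/
theorem fibre_joined (hd : 2 ≤ d) (u v : Lifts (N + 1) d) (h : qm N d u = qm N d v) :
    ∃ γ : Path u v, ∀ t, qm N d (γ t) = qm N d u := by
  obtain ⟨g, hg⟩ := (qm_eq_iff hd u v).1 h
  obtain ⟨γ⟩ := units_joined g
  have hc : Continuous (fun t => rho (N + 1) d (γ t) u.1) := by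
    have e : (fun t => rho (N + 1) d (γ t) u.1) = fun t =>
        post ((γ t : (Vec (N + 1) →L[ℂ] Vec (N + 1))ˣ) : Vec (N + 1) →L[ℂ] Vec (N + 1))
          (pre (((γ t)⁻¹ : (Vec (N + 1) →L[ℂ] Vec (N + 1))ˣ) : Vec (N + 1) →L[ℂ] Vec (N + 1)) u.1) := by
      funext t
      exact rho_apply _ _
    rw [e]
    have c1 : Continuous (fun t => ((γ t : (Vec (N + 1) →L[ℂ] Vec (N + 1))ˣ) :
        Vec (N + 1) →L[ℂ] Vec (N + 1))) := Units.continuous_val.comp γ.continuous
    have c2 : Continuous (fun t => (((γ t)⁻¹ : (Vec (N + 1) →L[ℂ] Vec (N + 1))ˣ) :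
        Vec (N + 1) →L[ℂ] Vec (N + 1))) := Units.continuous_val.comp γ.continuous.inv
    exact contDiff_post.continuous.comp (c1.prodMk
      (contDiff_pre.continuous.comp (c2.prodMk continuous_const)))
  refine ⟨⟨⟨fun t => ⟨rho (N + 1) d (γ t) u.1, isMor_rho _ _ u.2⟩, hc.subtype_mk _⟩, ?_, ?_⟩, ?_⟩
  · apply Subtype.ext
    simp
  · apply Subtype.ext
    simpa using hg
  · intro t
    rw [eq_comm, qm_eq_iff hd]
    exact ⟨γ t, rfl⟩

end Pool.Agent.Helper819.PiOne
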