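import Pool.Agent.Helper819.Pi.AncDef

set_option autoImplicit false

open MvPolynomial

namespace Pool.Agent.Helper819.PiOne



section

variable {n d : ℕ}

variable {m : ℕ}



theorem pc_joined_line {E : Type*} [TopologicalSpace E] (f : ℂ → E) (hf : Continuous f) (S : Set E)
    (T : Set ℂ) (hT : T.Countable) (hS : ∀ c, c ∉ T → f c ∈ S) (h0 : (0 : ℂ) ∉ T) (h1 : (1 : ℂ) ∉ T) :
    JoinedIn S (f 0) (f 1) := by
  have h2 : IsPathConnected Tᶜ := hT.isPathConnected_compl_of_one_lt_rank (by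
    rw [Complex.rank_real_complex]; norm_num)
  refine ((h2.joinedIn 0 h0 1 h1).map hf).mono ?_
  rintro _ ⟨c, hc, rfl⟩
  exact hS c hc

theorem pc_fderiv_add (x : Vec n) (h h' : Tup n d) :
    fderiv ℂ (ev (h + h')) x = fderiv ℂ (ev h) x + fderiv ℂ (ev h') x := by
  have : ev (h + h') = ev h + ev h' := by
    funext y
    exact ev_add h h' y
  rw [this, fderiv_add (differentiable_ev h x) (differentiable_ev h' x)]

theorem pc_fderiv_smul (x : Vec n) (t : ℂ) (h : Tup n d) :
    fderiv ℂ (ev (t • h)) x = t • fderiv ℂ (ev h) x := by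
  have : ev (t • h) = t • ev h := by
    funext y
    exact ev_smul t h y
  rw [this, fderiv_const_smul (differentiable_ev h x)]

/-- matrix of the derivative -/
noncomputable def pcM (x : Vec n) : Tup n d →ₗ[ℂ] Matrix (Fin n) (Fin n) ℂ where
  toFun h := LinearMap.toMatrix' (fderiv ℂ (ev h) x : Vec n →ₗ[ℂ] Vec n)
  map_add' h h' := by
    rw [pc_fderiv_add, ← map_add]
    rfl
  map_smul' t h := by
    rw [pc_fderiv_smul]
    simp only [RingHom.id_apply]
    rw [← map_smul]
    rfl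

theorem pcM_mulVec (x : Vec n) (h : Tup n d) (y : Vec n) :
    (pcM x h).mulVec y = fderiv ℂ (ev h) x y :=
  LinearMap.toMatrix'_mulVec _ _

theorem pc_euler (hd : 0 < d) (x : Vec n) (h : Tup n d) (hx : ev h x = 0) :
    fderiv ℂ (ev h) x x = 0 := by
  have h1 : HasFDerivAt (ev h) (fderiv ℂ (ev h) x) ((1 : ℂ) • x) := by
    rw [one_smul]
    exact (differentiable_ev h x).hasFDerivAt
  have h2 : HasDerivAt (fun t : ℂ => t • x) x 1 := by
    simpa using (hasDerivAt_id (1 : ℂ)).smul_const x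
  have h3 : HasDerivAt (fun t : ℂ => ev h (t • x)) (fderiv ℂ (ev h) x x) 1 :=
    HasFDerivAt.comp_hasDerivAt (f := fun t : ℂ => t • x) (1 : ℂ) h1 h2
  have h4 : (fun t : ℂ => ev h (t • x)) = fun _ => 0 := by
    funext t
    rw [ev_smul_pt, hx, smul_zero]
  rw [h4] at h3
  exact h3.unique (hasDerivAt_const _ _)

/-- the determinant with last column replaced -/
noncomputable def pcD (h : Tup (m + 2) d) : Vec (m + 2) →ₗ[ℂ] ℂ where
  toFun w := ((pcM (eL m) h).updateCol (Fin.last (m + 1)) w).det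
  map_add' w w' := Matrix.det_updateCol_add _ _ _ _
  map_smul' t w := by
    rw [Matrix.det_updateCol_smul]
    rfl

theorem eL_last : eL m (Fin.last (m + 1)) = 1 := by
  unfold eL
  exact Pi.single_eq_same _ _

theorem pc_mulVec (hd : 0 < d) (h : Tup (m + 2) d) (h0 : ev h (eL m) = 0) (w x : Vec (m + 2)) :
    ((pcM (eL m) h).updateCol (Fin.last (m + 1)) w).mulVec x =
      fderiv ℂ (ev h) (eL m) x + x (Fin.last (m + 1)) • w := by
  rw [← pcM_mulVec]
  have hz : ∀ i, pcM (eL m) h i (Fin.last (m + 1)) = 0 := by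
    intro i
    have h1 := pcM_mulVec (eL m) h (eL m)
    rw [pc_euler hd _ _ h0] at h1
    have h2 := congrFun h1 i
    unfold eL at h2
    rw [Matrix.mulVec_single_one] at h2
    exact h2
  funext i
  rw [Pi.add_apply, Pi.smul_apply, smul_eq_mul]
  simp only [Matrix.mulVec, dotProduct]
  have h3 : ∀ j, (pcM (eL m) h).updateCol (Fin.last (m + 1)) w i j * x j =
      pcM (eL m) h i j * x j + (if j = Fin.last (m + 1) then x j * w i else 0) := by
    intro j
    by_cases hj : j = Fin.last (m + 1)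
    · subst hj
      rw [Matrix.updateCol_self, hz, if_pos rfl]
      ring
    · rw [Matrix.updateCol_ne hj, if_neg hj, add_zero]
  rw [Finset.sum_congr rfl (fun j _ => h3 j), Finset.sum_add_distrib, Finset.sum_ite_eq']
  simp

theorem pcD_ne_iff (hd : 0 < d) (h : Tup (m + 2) d) (h0 : ev h (eL m) = 0) (w : Vec (m + 2)) :
    pcD h w ≠ 0 ↔ ∀ (y : Vec (m + 2)) (ζ : ℂ), fderiv ℂ (ev h) (eL m) y + ζ • w = 0 →
      ζ = 0 ∧ ∃ a : ℂ, y = a • eL m := by
  have hinj : pcD h w ≠ 0 ↔ ∀ x : Vec (m + 2),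
      fderiv ℂ (ev h) (eL m) x + x (Fin.last (m + 1)) • w = 0 → x = 0 := by
    change ((pcM (eL m) h).updateCol (Fin.last (m + 1)) w).det ≠ 0 ↔ _
    constructor
    · intro hdet x hx
      by_contra hne
      exact hdet (Matrix.exists_mulVec_eq_zero_iff.1 ⟨x, hne, by rw [pc_mulVec hd h h0, hx]⟩)
    · intro hall hdet
      obtain ⟨x, hne, hx⟩ := Matrix.exists_mulVec_eq_zero_iff.2 hdet
      rw [pc_mulVec hd h h0] at hx
      exact hne (hall x hx)
  rw [hinj]
  have heul := pc_euler hd (eL m) h h0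
  constructor
  · intro hall y ζ hy
    have h1 : y + (ζ - y (Fin.last (m + 1))) • eL m = 0 := by
      apply hall
      rw [map_add, map_smul, heul, smul_zero, add_zero, Pi.add_apply, Pi.smul_apply, eL_last]
      simp only [smul_eq_mul, mul_one, add_sub_cancel]
      exact hy
    have h2 := congrFun h1 (Fin.last (m + 1))
    rw [Pi.add_apply, Pi.smul_apply, eL_last] at h2
    simp only [smul_eq_mul, mul_one, add_sub_cancel, Pi.zero_apply] at h2
    refine ⟨h2, y (Fin.last (m + 1)), ?_⟩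
    rw [h2, zero_sub, neg_smul, ← sub_eq_add_neg, sub_eq_zero] at h1
    exact h1
  · intro hall x hx
    obtain ⟨h1, a, h2⟩ := hall x _ hx
    rw [h2, Pi.smul_apply, eL_last, smul_eq_mul, mul_one] at h1
    rw [h2, h1, zero_smul]

theorem pcD_exists (hd : 0 < d) (h : Tup (m + 2) d) (h0 : ev h (eL m) = 0)
    (hk : ∀ y : Vec (m + 2), fderiv ℂ (ev h) (eL m) y = 0 → ∃ a : ℂ, y = a • eL m) :
    ∃ k, pcD h (Pi.single k 1) ≠ 0 := by
  by_contra hcon
  push Not at hcon
  have hzero : pcD h = 0 := by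
    apply LinearMap.pi_ext'
    intro k
    ext
    simpa using hcon k
  have hni : ¬ Function.Injective (fderiv ℂ (ev h) (eL m) : Vec (m + 2) →ₗ[ℂ] Vec (m + 2)) := by
    intro hi
    have h1 : (fderiv ℂ (ev h) (eL m) : Vec (m + 2) →ₗ[ℂ] Vec (m + 2)) (eL m) =
        (fderiv ℂ (ev h) (eL m) : Vec (m + 2) →ₗ[ℂ] Vec (m + 2)) 0 := by
      rw [map_zero]
      exact pc_euler hd (eL m) h h0
    have h2 := congrFun (hi h1) (Fin.last (m + 1))
    rw [eL_last] at h2
    exact one_ne_zero h2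
  rw [LinearMap.injective_iff_surjective] at hni
  unfold Function.Surjective at hni
  push Not at hni
  obtain ⟨w, hw⟩ := hni
  have h3 : pcD h w ≠ 0 := by
    rw [pcD_ne_iff hd h h0]
    intro y ζ hy
    by_cases hζ : ζ = 0
    · rw [hζ, zero_smul, add_zero] at hy
      exact ⟨hζ, hk y hy⟩
    · exfalso
      apply hw (-ζ⁻¹ • y)
      change fderiv ℂ (ev h) (eL m) (-ζ⁻¹ • y) = w
      rw [map_smul, eq_neg_of_add_eq_zero_left hy, smul_neg, neg_smul, neg_neg, smul_smul,
        inv_mul_cancel₀ hζ, one_smul]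
  rw [hzero] at h3
  exact h3 rfl

/-- the distinguished second component -/
noncomputable def pcV (h : Tup (m + 2) d) : Tup (m + 2) d :=
  top (Fin.last (m + 1)) (fun k => (starRingEnd ℂ) (pcD h (Pi.single k 1)))

theorem ev_pcV (h : Tup (m + 2) d) :
    ev (pcV h) (eL m) = fun k => (starRingEnd ℂ) (pcD h (Pi.single k 1)) := by
  unfold pcV
  rw [ev_top, eL_last, one_pow, one_smul]

theorem pcD_pcV (h : Tup (m + 2) d) (hk : ∃ k, pcD h (Pi.single k 1) ≠ 0) :
    pcD h (ev (pcV h) (eL m)) ≠ 0 := by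
  rw [ev_pcV, LinearMap.pi_apply_eq_sum_univ]
  have h1 : ∀ k : Fin (m + 2), (starRingEnd ℂ) (pcD h (Pi.single k 1)) •
      pcD h (fun j => if k = j then 1 else 0) = ((Complex.normSq (pcD h (Pi.single k 1)) : ℝ) : ℂ) := by
    intro k
    have h2 : (fun j => if k = j then (1 : ℂ) else 0) = Pi.single k 1 := by
      funext j
      rw [Pi.single_apply]
      simp only [eq_comm]
    rw [h2, smul_eq_mul, mul_comm, Complex.mul_conj]
  rw [Finset.sum_congr rfl (fun k _ => h1 k), ← Complex.ofReal_sum]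
  obtain ⟨k, hk⟩ := hk
  have h3 : 0 < ∑ k : Fin (m + 2), Complex.normSq (pcD h (Pi.single k 1)) :=
    Finset.sum_pos' (fun _ _ => Complex.normSq_nonneg _) ⟨k, Finset.mem_univ _, Complex.normSq_pos.2 hk⟩
  exact_mod_cast h3.ne'

theorem continuous_pcV : Continuous (pcV : Tup (m + 2) d → Tup (m + 2) d) := by
  have h1 : Continuous (fun h : Tup (m + 2) d => pcM (eL m) h) :=
    (pcM (eL m)).continuous_of_finiteDimensional
  have h2 : ∀ k, Continuous (fun h : Tup (m + 2) d => pcD h (Pi.single k 1)) := by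
    intro k
    change Continuous (fun h : Tup (m + 2) d =>
      ((pcM (eL m) h).updateCol (Fin.last (m + 1)) (Pi.single k 1)).det)
    exact (h1.matrix_updateCol _ continuous_const).matrix_det
  refine continuous_pi (fun k => continuous_pi (fun a => ?_))
  change Continuous (fun h : Tup (m + 2) d => coeff (fexp a)
    (C ((starRingEnd ℂ) (pcD h (Pi.single k 1))) * X (Fin.last (m + 1)) ^ d))
  simp only [coeff_C_mul]
  exact (Complex.continuous_conj.comp (h2 k)).mul continuous_const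

/-- path connectedness of the set of transversal pairs at `eL`, given an anchor -/
theorem inT_connected (hd : 2 ≤ d) (anc : Tup (m + 2) d) (hanc0 : ev anc (eL m) = 0)
    (hline : ∀ h : Tup (m + 2) d, ev h (eL m) = 0 →
      {z : ℂ | ¬ ((∀ y : Vec (m + 2), ev (anc + z • (h - anc)) y = 0 → ∃ a : ℂ, y = a • eL m) ∧
      (∀ y : Vec (m + 2), fderiv ℂ (ev (anc + z • (h - anc))) (eL m) y = 0 →
        ∃ a : ℂ, y = a • eL m))}.Finite)
    (hanc : (∀ y : Vec (m + 2), ev anc y = 0 → ∃ a : ℂ, y = a • eL m) ∧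
      (∀ y : Vec (m + 2), fderiv ℂ (ev anc) (eL m) y = 0 → ∃ a : ℂ, y = a • eL m)) :
    IsPathConnected {p : Tup (m + 2) d × Tup (m + 2) d | InT p.1 p.2 (eL m)} := by
  have hd0 : 0 < d := by omega
  have hene : eL m ≠ 0 := by
    intro h
    have := congrFun h (Fin.last (m + 1))
    rw [eL_last] at this
    exact one_ne_zero this
  -- good tuples give members
  have hgood : ∀ h : Tup (m + 2) d, ev h (eL m) = 0 →
      (∀ y : Vec (m + 2), ev h y = 0 → ∃ a : ℂ, y = a • eL m) →
      (∀ y : Vec (m + 2), fderiv ℂ (ev h) (eL m) y = 0 → ∃ a : ℂ, y = a • eL m) →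
      (h, pcV h) ∈ {p : Tup (m + 2) d × Tup (m + 2) d | InT p.1 p.2 (eL m)} := by
    intro h h0 h1 h2
    exact ⟨hene, h0, h1, (pcD_ne_iff hd0 h h0 _).1 (pcD_pcV h (pcD_exists hd0 h h0 h2))⟩
  refine ⟨(anc, pcV anc), hgood anc hanc0 hanc.1 hanc.2, ?_⟩
  rintro ⟨h, v⟩ hp
  obtain ⟨_, h0, h1, h2⟩ := hp
  have h3 : ∀ y : Vec (m + 2), fderiv ℂ (ev h) (eL m) y = 0 → ∃ a : ℂ, y = a • eL m := by
    intro y hy
    exact (h2 y 0 (by rw [hy, zero_smul, add_zero])).2
  have step1 : JoinedIn {p : Tup (m + 2) d × Tup (m + 2) d | InT p.1 p.2 (eL m)}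
      (anc, pcV anc) (h, pcV h) := by
    have hf : Continuous (fun c : ℂ => ((anc + c • (h - anc), pcV (anc + c • (h - anc))) :
        Tup (m + 2) d × Tup (m + 2) d)) := by
      have hc : Continuous (fun c : ℂ => anc + c • (h - anc)) := by fun_prop
      exact hc.prodMk (continuous_pcV.comp hc)
    have hj := pc_joined_line _ hf {p : Tup (m + 2) d × Tup (m + 2) d | InT p.1 p.2 (eL m)}
      ({z : ℂ | ¬ ((∀ y : Vec (m + 2), ev (anc + z • (h - anc)) y = 0 → ∃ a : ℂ, y = a • eL m) ∧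
      (∀ y : Vec (m + 2), fderiv ℂ (ev (anc + z • (h - anc))) (eL m) y = 0 →
        ∃ a : ℂ, y = a • eL m))} \ {0, 1}) ((hline h h0).subset Set.sdiff_subset).countable ?_
      (fun hc => hc.2 (by simp)) (fun hc => hc.2 (by simp))
    · simpa using hj
    · intro c hc
      have hev : ev (anc + c • (h - anc)) (eL m) = 0 := by
        rw [ev_add, ev_smul, ev_sub, h0, hanc0, sub_zero, smul_zero, add_zero]
      have hg : (∀ y : Vec (m + 2), ev (anc + c • (h - anc)) y = 0 → ∃ a : ℂ, y = a • eL m) ∧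
          (∀ y : Vec (m + 2), fderiv ℂ (ev (anc + c • (h - anc))) (eL m) y = 0 →
            ∃ a : ℂ, y = a • eL m) := by
        by_cases hc0 : c = 0
        · rw [hc0, zero_smul, add_zero]
          exact hanc
        · by_cases hc1 : c = 1
          · rw [hc1, one_smul, add_sub_cancel]
            exact ⟨h1, h3⟩
          · by_contra hbad
            exact hc ⟨hbad, by simp [hc0, hc1]⟩
      exact hgood _ hev hg.1 hg.2
  have step2 : JoinedIn {p : Tup (m + 2) d × Tup (m + 2) d | InT p.1 p.2 (eL m)}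
      (h, pcV h) (h, v) := by
    have hv : pcD h (ev v (eL m)) ≠ 0 := (pcD_ne_iff hd0 h h0 _).2 h2
    have hv' : pcD h (ev (pcV h) (eL m)) ≠ 0 := pcD_pcV h (pcD_exists hd0 h h0 h3)
    have hf : Continuous (fun c : ℂ => ((h, pcV h + c • (v - pcV h)) :
        Tup (m + 2) d × Tup (m + 2) d)) := by fun_prop
    have hlin : ∀ c : ℂ, pcD h (ev (pcV h + c • (v - pcV h)) (eL m)) =
        pcD h (ev (pcV h) (eL m)) + c * (pcD h (ev v (eL m)) - pcD h (ev (pcV h) (eL m))) := by
      intro c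
      rw [ev_add, ev_smul, ev_sub, map_add, map_smul, map_sub, smul_eq_mul]
    have hj := pc_joined_line _ hf {p : Tup (m + 2) d × Tup (m + 2) d | InT p.1 p.2 (eL m)}
      {c : ℂ | pcD h (ev (pcV h + c • (v - pcV h)) (eL m)) = 0} ?_ ?_ ?_ ?_
    · simpa using hj
    · apply Set.Subsingleton.countable
      intro c hc c' hc'
      rw [Set.mem_ofPred_eq, hlin] at hc hc'
      have hk : pcD h (ev v (eL m)) - pcD h (ev (pcV h) (eL m)) ≠ 0 := by
        intro hk
        rw [hk, mul_zero, add_zero] at hc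
        exact hv' hc
      have : (c - c') * (pcD h (ev v (eL m)) - pcD h (ev (pcV h) (eL m))) = 0 := by
        linear_combination hc - hc'
      rcases mul_eq_zero.1 this with h4 | h4
      · exact sub_eq_zero.1 h4
      · exact absurd h4 hk
    · intro c hc
      exact ⟨hene, h0, h1, (pcD_ne_iff hd0 h h0 _).1 hc⟩
    · rw [Set.mem_ofPred_eq, hlin, zero_mul, add_zero]
      exact hv'
    · rw [Set.mem_ofPred_eq, hlin, one_mul, add_sub_cancel]
      exact hv
  exact step1.trans step2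

end

end Pool.Agent.Helper819.PiOne
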