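import Pool.Agent.Helper819.Pi.T3
import Pool.Agent.Helper819.Pi.T4

set_option autoImplicit false

open MvPolynomial

namespace Pool.Agent.Helper819.PiOne

theorem finiteNotSurjStmt : FiniteNotSurjStmt := by
  intro E W _ _ _ _ _ A B hA
  exact finite_not_surj A B hA

theorem inT_isPathConnected (m d : ℕ) (hd : 2 ≤ d) :
    IsPathConnected {p : Tup (m + 2) d × Tup (m + 2) d | InT p.1 p.2 (eL m)} := by
  obtain ⟨K, hK⟩ := t3_surj_anc (m := m) (d := d) hd
  exact inT_connected hd (anc m d) (t3_anc_eL hd)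
    (fun h hh => anc_line finiteNotSurjStmt hd h hh)
    (t3_good (e := K) (by omega) _ (t3_anc_eL hd) (hK K le_rfl))

end Pool.Agent.Helper819.PiOne
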