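import Pool.Agent.Helper819.Pi.E5
import Pool.Agent.Helper819.Pi.H0
import Pool.Agent.Helper819.Pi.J6
import Pool.Agent.Helper819.Pi.FamMor
import Pool.Agent.Helper819.Pi.FamConj
import Pool.Agent.Helper819.Pi.FamInT
import Pool.Agent.Helper819.Pi.T5

set_option autoImplicit false

open Topology

namespace Pool.Agent.Helper819.PiOne

variable {n d : ℕ} {M : Type*} [TopologicalSpace M]

/-- the small circles around `h` in the direction `v` are null-homotopic in `M` -/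
def Null (q : Tup n d → M) (h v : Tup n d) : Prop :=
  ∃ ε : ℝ, 0 < ε ∧ (∀ ζ : ℂ, ζ ≠ 0 → ‖ζ‖ ≤ ε → IsMor (h + ζ • v)) ∧
    NC (fun z : ℂ => q (h + ((ε : ℂ) * z) • v))

theorem null_any (q : Tup n d → M) (hq : ContinuousOn q {c | IsMor c}) (h v : Tup n d)
    (hN : Null q h v) (ε' : ℝ) (hε' : 0 < ε')
    (hε2 : ∀ ζ : ℂ, ζ ≠ 0 → ‖ζ‖ ≤ ε' → IsMor (h + ζ • v)) :
    NC (fun z : ℂ => q (h + ((ε' : ℂ) * z) • v)) := by
  obtain ⟨ε, hε, h1, h2⟩ := hN
  have key := NC_homotopy (M := M)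
    (fun s z => q (h + ((((1 - s) * ε + s * ε' : ℝ) : ℂ) * z) • v)) ?_ ?_
  · refine NC_congr (fun z hz => ?_) key
    simp
  · refine hq.comp (by fun_prop) ?_
    rintro ⟨s, z⟩ ⟨hs, hz⟩
    replace hs : 0 ≤ s ∧ s ≤ 1 := hs
    rw [mem_sphere_zero_iff_norm] at hz
    have hpos : 0 < (1 - s) * ε + s * ε' := by
      rcases eq_or_lt_of_le hs.1 with h0 | h0
      · rw [← h0]; simpa using hε
      · have : 0 ≤ (1 - s) * ε := mul_nonneg (by linarith [hs.2]) hε.le
        have : 0 < s * ε' := mul_pos h0 hε'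
        linarith
    have hz0 : z ≠ 0 := by
      rintro rfl
      simp at hz
    have hne : (((1 - s) * ε + s * ε' : ℝ) : ℂ) * z ≠ 0 :=
      mul_ne_zero (by exact_mod_cast hpos.ne') hz0
    have hnorm : ‖(((1 - s) * ε + s * ε' : ℝ) : ℂ) * z‖ = (1 - s) * ε + s * ε' := by
      rw [norm_mul, hz, mul_one, Complex.norm_real, Real.norm_eq_abs, abs_of_pos hpos]
    rcases le_total ε ε' with h3 | h3
    · refine hε2 _ hne ?_
      rw [hnorm]
      nlinarith [hs.1, hs.2]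
    · refine h1 _ hne ?_
      rw [hnorm]
      nlinarith [hs.1, hs.2]
  · refine NC_congr (fun z hz => ?_) h2
    simp

theorem null_transport (q : Tup n d → M) (hq : ContinuousOn q {c | IsMor c}) (hd : 1 ≤ d)
    (x : Vec n) (hp vp : ℝ → Tup n d)
    (h1 : ContinuousOn hp (Set.Icc 0 1)) (h2 : ContinuousOn vp (Set.Icc 0 1))
    (hT : ∀ s ∈ Set.Icc (0 : ℝ) 1, InT (hp s) (vp s) x) (hN : Null q (hp 0) (vp 0)) :
    Null q (hp 1) (vp 1) := by
  obtain ⟨ε, hε, h3⟩ := uniform_small hd x hp vp h1 h2 hT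
  refine ⟨ε, hε, h3 1 (by simp), ?_⟩
  have key := NC_homotopy (M := M) (fun s z => q (hp s + ((ε : ℂ) * z) • vp s)) ?_ ?_
  · exact key
  · have hc : ContinuousOn (fun p : ℝ × ℂ => hp p.1 + ((ε : ℂ) * p.2) • vp p.1)
        (Set.Icc 0 1 ×ˢ Metric.sphere 0 1) := by
      have e1 : ContinuousOn (fun p : ℝ × ℂ => hp p.1) (Set.Icc 0 1 ×ˢ Metric.sphere 0 1) :=
        h1.comp continuousOn_fst (fun p hp => hp.1)
      have e2 : ContinuousOn (fun p : ℝ × ℂ => vp p.1) (Set.Icc 0 1 ×ˢ Metric.sphere 0 1) :=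
        h2.comp continuousOn_fst (fun p hp => hp.1)
      exact e1.add ((by fun_prop : ContinuousOn (fun p : ℝ × ℂ => (ε : ℂ) * p.2) _).smul e2)
    refine hq.comp hc ?_
    rintro ⟨s, z⟩ ⟨hs, hz⟩
    rw [mem_sphere_zero_iff_norm] at hz
    have hz0 : z ≠ 0 := by
      rintro rfl
      simp at hz
    refine h3 s hs _ (mul_ne_zero (by exact_mod_cast hε.ne') hz0) ?_
    simp only at hz ⊢
    rw [norm_mul, hz, mul_one, Complex.norm_real, Real.norm_eq_abs, abs_of_pos hε]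
  · exact null_any q hq _ _ hN ε hε (h3 0 (by simp))

theorem isMor_pre (B : (Vec n →L[ℂ] Vec n)ˣ) (c : Tup n d) (hc : IsMor c) :
    IsMor (pre (B : Vec n →L[ℂ] Vec n) c) := by
  intro x hx
  rw [ev_pre] at hx
  have h1 := hc _ hx
  rw [← unit_inv_apply B x, h1, map_zero]

theorem pre_line (B : Vec n →L[ℂ] Vec n) (h v : Tup n d) (t : ℂ) :
    pre B (h + t • v) = pre B h + t • pre B v := by
  rw [pre_add, pre_smul]

theorem pre_pre (B B' : Vec n →L[ℂ] Vec n) (c : Tup n d) : pre B (pre B' c) = pre (B' * B) c :=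
  ev_inj fun x => by rw [ev_pre, ev_pre, ev_pre]; rfl

theorem pre_one (c : Tup n d) : pre (1 : Vec n →L[ℂ] Vec n) c = c :=
  ev_inj fun x => by rw [ev_pre]; rfl

theorem null_pre (q : Tup n d → M) (hq : ContinuousOn q {c | IsMor c})
    (B : (Vec n →L[ℂ] Vec n)ˣ) (h v : Tup n d) (hN : Null q h v) :
    Null q (pre (B : Vec n →L[ℂ] Vec n) h) (pre (B : Vec n →L[ℂ] Vec n) v) := by
  obtain ⟨ε, hε, h1, h2⟩ := hN
  obtain ⟨γ⟩ := units_joined B
  refine ⟨ε, hε, fun ζ hζ hζ2 => ?_, ?_⟩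
  · rw [← pre_line]
    exact isMor_pre B _ (h1 ζ hζ hζ2)
  · have key := NC_homotopy (M := M)
      (fun s z => q (pre ((γ.extend s : (Vec n →L[ℂ] Vec n)ˣ) : Vec n →L[ℂ] Vec n)
        (h + ((ε : ℂ) * z) • v))) ?_ ?_
    · refine NC_congr (fun z hz => ?_) key
      simp only [Path.extend_one, pre_line]
    · have hc1 : Continuous (fun p : ℝ × ℂ =>
          (((γ.extend p.1 : (Vec n →L[ℂ] Vec n)ˣ) : Vec n →L[ℂ] Vec n), h + ((ε : ℂ) * p.2) • v)) := by
        have e1 : Continuous (fun p : ℝ × ℂ =>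
            ((γ.extend p.1 : (Vec n →L[ℂ] Vec n)ˣ) : Vec n →L[ℂ] Vec n)) :=
          Units.continuous_val.comp (γ.continuous_extend.comp continuous_fst)
        exact e1.prodMk (by fun_prop)
      refine hq.comp (contDiff_pre.continuous.comp hc1).continuousOn ?_
      rintro ⟨s, z⟩ ⟨hs, hz⟩
      rw [mem_sphere_zero_iff_norm] at hz
      have hz0 : z ≠ 0 := by
        rintro rfl
        simp at hz
      refine isMor_pre _ _ (h1 _ (mul_ne_zero (by exact_mod_cast hε.ne') hz0) ?_)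
      simp only at hz ⊢
      rw [norm_mul, hz, mul_one, Complex.norm_real, Real.norm_eq_abs, abs_of_pos hε]
    · refine NC_congr (fun z hz => ?_) h2
      simp only [Path.extend_zero, Units.val_one, pre_one]

theorem null_of_pre (q : Tup n d → M) (hq : ContinuousOn q {c | IsMor c})
    (B : (Vec n →L[ℂ] Vec n)ˣ) (h v : Tup n d)
    (hN : Null q (pre (B : Vec n →L[ℂ] Vec n) h) (pre (B : Vec n →L[ℂ] Vec n) v)) : Null q h v := by
  have h1 := null_pre q hq B⁻¹ _ _ hN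
  rwa [pre_pre, pre_pre, ← Units.val_mul, mul_inv_cancel, Units.val_one, pre_one, pre_one] at h1

theorem InT_pre (B : (Vec n →L[ℂ] Vec n)ˣ) (h v : Tup n d) (x y : Vec n)
    (hB : (B : Vec n →L[ℂ] Vec n) y = x) (hI : InT h v x) :
    InT (pre (B : Vec n →L[ℂ] Vec n) h) (pre (B : Vec n →L[ℂ] Vec n) v) y := by
  obtain ⟨h1, h2, h3, h4⟩ := hI
  have hcancel : ∀ (z : Vec n) (a : ℂ), (B : Vec n →L[ℂ] Vec n) z = a • x → z = a • y := by
    intro z a hz
    rw [← unit_inv_apply B z, hz, ← hB, map_smul, unit_inv_apply]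
  refine ⟨?_, ?_, ?_, ?_⟩
  · rintro rfl
    exact h1 (by rw [← hB, map_zero])
  · rw [ev_pre, hB, h2]
  · intro z hz
    rw [ev_pre] at hz
    obtain ⟨a, ha⟩ := h3 _ hz
    exact ⟨a, hcancel z a ha⟩
  · intro z ζ hz
    have e1 : ev (pre (B : Vec n →L[ℂ] Vec n) h) = ev h ∘ (B : Vec n →L[ℂ] Vec n) := by
      funext w
      exact ev_pre _ _ _
    have e2 : fderiv ℂ (ev (pre (B : Vec n →L[ℂ] Vec n) h)) y z =
        fderiv ℂ (ev h) x ((B : Vec n →L[ℂ] Vec n) z) := by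
      rw [e1, fderiv_comp y (differentiable_ev h _) (ContinuousLinearMap.differentiableAt _), hB,
        ContinuousLinearMap.fderiv]
      rfl
    rw [e2, ev_pre, hB] at hz
    obtain ⟨h5, a, ha⟩ := h4 _ _ hz
    exact ⟨h5, a, hcancel z a ha⟩

theorem exists_unit_apply (x y : Vec n) (hx : x ≠ 0) (hy : y ≠ 0) :
    ∃ B : (Vec n →L[ℂ] Vec n)ˣ, (B : Vec n →L[ℂ] Vec n) x = y := by
  obtain ⟨A, hA⟩ := SeparatingDual.exists_continuousLinearEquiv_apply_eq (R := ℂ) hx hy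
  exact ⟨A.toUnit, hA⟩

theorem null_fam (m d : ℕ) (hd : 2 ≤ d) (q : Tup (m + 2) d → M)
    (hq : ContinuousOn q {c | IsMor c})
    (hinv : ∀ (g : (Vec (m + 2) →L[ℂ] Vec (m + 2))ˣ) (c : Tup (m + 2) d), IsMor c →
      q (rho (m + 2) d g c) = q c) :
    Null q (fam m d 1 1) (vfam m d) := by
  have hp : 1 ≤ d ^ (m + 1) - 1 := by
    have : 2 ^ 1 ≤ d ^ (m + 1) := (Nat.pow_le_pow_left hd 1).trans (Nat.pow_le_pow_right (by omega) (by omega))
    omega
  have hp1 : d ^ (m + 1) - 1 + 1 = d ^ (m + 1) := by omega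
  obtain ⟨p, hpdef⟩ : ∃ p, p = d ^ (m + 1) - 1 := ⟨_, rfl⟩
  have hp2 : p + 1 = d ^ (m + 1) := by omega
  have hmor : ∀ α β : ℂ, α ^ p ≠ β ^ (p + 1) → IsMor (fam m d α β) := by
    intro α β h
    refine isMor_fam evFamStmt hd α β ?_
    rwa [← hpdef, ← hp2]
  have k1 : ContinuousOn (fun x : ℂ × ℂ => q (fam m d x.1 x.2))
      {x : ℂ × ℂ | x.1 ^ p ≠ x.2 ^ (p + 1)} := by
    refine hq.comp continuous_fam.continuousOn ?_
    rintro ⟨α, β⟩ h
    exact hmor α β h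
  have k2 : ∀ α β t : ℂ, t ≠ 0 → α ^ p ≠ β ^ (p + 1) →
      q (fam m d α β) = q (fam m d (t ^ (p + 1) * α) (t ^ p * β)) := by
    intro α β t ht h
    obtain ⟨g, hg⟩ := fam_conj evFamStmt hd α β t ht
    rw [← hpdef, ← hp2] at hg
    have h3 := (rho_eq_iff g (fam m d (t ^ (p + 1) * α) (t ^ p * β)) (fam m d α β)).2 hg
    rw [← h3]
    refine hinv g _ (hmor _ _ ?_)
    rw [mul_pow, mul_pow, ← pow_mul, ← pow_mul, mul_comm p (p + 1)]
    exact fun h' => h (mul_left_cancel₀ (pow_ne_zero _ ht) h')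
  obtain ⟨ε, hε, h1, h2⟩ := weighted_null (M := M) (fun α β => q (fam m d α β)) p (by omega) k1 k2
  refine ⟨ε, hε, fun ζ hζ hζ2 => ?_, ?_⟩
  · rw [← fam_add (by omega)]
    refine hmor _ _ ?_
    rw [one_pow]
    exact fun h => h1 ζ hζ hζ2 h.symm
  · refine NC_congr (fun z hz => ?_) h2
    rw [← fam_add (by omega)]

theorem null_of_InT (m d : ℕ) (hd : 2 ≤ d) (q : Tup (m + 2) d → M)
    (hq : ContinuousOn q {c | IsMor c})
    (hinv : ∀ (g : (Vec (m + 2) →L[ℂ] Vec (m + 2))ˣ) (c : Tup (m + 2) d), IsMor c →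
      q (rho (m + 2) d g c) = q c) (h v : Tup (m + 2) d) (x : Vec (m + 2)) (hI : InT h v x) :
    Null q h v := by
  have heL : eL m ≠ 0 := by
    intro h
    have := congrFun h (Fin.last (m + 1))
    simp [eL] at this
  have hone : (fun _ => (1 : ℂ) : Vec (m + 2)) ≠ 0 := by
    intro h
    have := congrFun h 0
    simp at this
  obtain ⟨B1, hB1⟩ := exists_unit_apply (eL m) (fun _ => (1 : ℂ) : Vec (m + 2)) heL hone
  obtain ⟨B, hB⟩ := exists_unit_apply (eL m) x heL hI.1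
  have i1 := InT_pre B1 _ _ _ _ hB1 (fam_inT evFamStmt hd)
  have i2 := InT_pre B _ _ _ _ hB hI
  have n1 := null_pre q hq B1 _ _ (null_fam m d hd q hq hinv)
  refine null_of_pre q hq B h v ?_
  obtain ⟨γ, hγ⟩ := (inT_isPathConnected m d hd).joinedIn (_, _) i1 (_, _) i2
  have n2 := null_transport q hq (by omega) (eL m) (fun s => (γ.extend s).1)
    (fun s => (γ.extend s).2) (continuous_fst.comp γ.continuous_extend).continuousOn
    (continuous_snd.comp γ.continuous_extend).continuousOn ?_ ?_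
  · simp only [Path.extend_one] at n2
    exact n2
  · intro s hs
    simp only [Path.extend_apply γ hs]
    exact hγ _
  · simp only [Path.extend_zero]
    exact n1

end Pool.Agent.Helper819.PiOne
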