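import Mathlib

set_option autoImplicit false

open Topology

namespace Pool.Agent.Helper819.PiOne

variable {A V : Type*} [NormedRing A] [NormedAlgebra ℂ A] [FiniteDimensional ℂ A] [CompleteSpace A]
  [NormedAddCommGroup V] [NormedSpace ℂ V] [FiniteDimensional ℂ V]

/-- `ρ` is a representation of the unit group of `A` on `V`, differentiable near `(1, f)`, with
trivial infinitesimal stabiliser at `f`, and acting properly near `f`. -/
structure SliceData (ρ : Aˣ →* (V →L[ℂ] V)) (f : V) where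
  Ψ : A × V → V
  hΨ : ∀ (g : Aˣ) (v : V), Ψ ((g : A), v) = ρ g v
  D : A →L[ℂ] V
  hD : Function.Injective D
  hs : HasStrictFDerivAt Ψ (D.coprod (ContinuousLinearMap.id ℂ V)) ((1 : A), f)
  hcont : ContinuousOn Ψ ({a : A | IsUnit a} ×ˢ Set.univ)
  C : ℝ
  O : Set V
  hO : O ∈ 𝓝 f
  hb : ∀ g : Aˣ, ∀ u ∈ O, ρ g u ∈ O → ‖(g : A)‖ ≤ C ∧ ‖((g⁻¹ : Aˣ) : A)‖ ≤ C


end Pool.Agent.Helper819.PiOne
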