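import Pool.Agent.Helper819.Pi.AncDef
import Pool.Agent.Helper819.Pi.Avail

set_option autoImplicit false

open MvPolynomial

namespace Pool.Agent.Helper819.PiOne



section

variable {n d : ℕ}

variable {m : ℕ}






theorem t3_toPoly_add (c c' : Tup n d) (i : Fin n) :
    toPoly (c + c') i = toPoly c i + toPoly c' i := by
  unfold toPoly
  rw [← Finset.sum_add_distrib]
  refine Finset.sum_congr rfl fun a _ => ?_
  rw [Pi.add_apply, Pi.add_apply, map_add]

theorem t3_toPoly_smul (t : ℂ) (c : Tup n d) (i : Fin n) :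
    toPoly (t • c) i = t • toPoly c i := by
  unfold toPoly
  rw [Finset.smul_sum]
  refine Finset.sum_congr rfl fun a _ => ?_
  rw [Pi.smul_apply, Pi.smul_apply, map_smul]

/-- the combination -/
noncomputable def t3P {e : ℕ} (b : Tup n e) (c : Tup n d) : MvPolynomial (Fin n) ℂ :=
  ∑ i, toPoly b i * toPoly c i

theorem t3P_hom {e : ℕ} (b : Tup n e) (c : Tup n d) : (t3P b c).IsHomogeneous (e + d) := by
  unfold t3P
  apply IsHomogeneous.sum
  intro i _
  exact (toPoly_homogeneous b i).mul (toPoly_homogeneous c i)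

theorem t3P_eval {e : ℕ} (b : Tup n e) (c : Tup n d) (x : Vec n) :
    eval x (t3P b c) = ∑ i, ev b x i * ev c x i := by
  unfold t3P
  rw [map_sum]
  refine Finset.sum_congr rfl fun i _ => ?_
  rw [map_mul, eval_toPoly, eval_toPoly]

theorem t3_hc {e : ℕ} (q p : MvPolynomial (Fin n) ℂ) (hp : p.IsHomogeneous d) :
    homogeneousComponent (e + d) (q * p) = homogeneousComponent e q * p := by
  induction q using MvPolynomial.induction_on' with
  | monomial s a =>
    have h1 : (monomial s a : MvPolynomial (Fin n) ℂ).IsHomogeneous s.degree :=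
      isHomogeneous_monomial a rfl
    have h2 := h1.mul hp
    rw [homogeneousComponent_of_mem h2, homogeneousComponent_of_mem h1]
    by_cases he : e = s.degree
    · rw [if_pos he, if_pos (by rw [he])]
    · rw [if_neg he, if_neg (by omega), zero_mul]
  | add p' q' hp' hq' => rw [add_mul, map_add, hp', hq', map_add, add_mul]

theorem t3_mem {e : ℕ} (c : Tup n d) (F : MvPolynomial (Fin n) ℂ)
    (hF : F ∈ Ideal.span (Set.range (toPoly c))) (hh : F.IsHomogeneous (e + d)) :
    ∃ b : Tup n e, t3P b c = F := by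
  rw [Ideal.mem_span_range_iff_exists_fun] at hF
  obtain ⟨q, hq⟩ := hF
  refine ⟨ofPoly (fun i => homogeneousComponent e (q i)), ?_⟩
  unfold t3P
  have h1 : ∀ i, toPoly (ofPoly (fun i => homogeneousComponent e (q i)) : Tup n e) i
      = homogeneousComponent e (q i) := fun i =>
    (eq_toPoly' (fun i => homogeneousComponent e (q i))
      (fun i => homogeneousComponent_isHomogeneous e (q i)) i).symm
  have h2 : homogeneousComponent (e + d) F = F := homogeneousComponent_eq_self hh
  rw [← h2, ← hq, map_sum]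
  refine Finset.sum_congr rfl fun i _ => ?_
  rw [h1 i, t3_hc (q i) (toPoly c i) (toPoly_homogeneous c i)]

/-- the linear map -/
noncomputable def t3M (e : ℕ) (l : Fin n) (c : Tup n d) :
    Tup n e →ₗ[ℂ] ({a : Expo n (e + d) // (a.1 l : ℕ) ≠ e + d} → ℂ) where
  toFun b := fun a => coeff (fexp a.1) (t3P b c)
  map_add' b b' := by
    funext a
    rw [Pi.add_apply, ← coeff_add]
    congr 1
    unfold t3P
    rw [← Finset.sum_add_distrib]
    refine Finset.sum_congr rfl fun i _ => ?_
    rw [t3_toPoly_add, add_mul]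
  map_smul' t b := by
    funext a
    rw [RingHom.id_apply, Pi.smul_apply, ← coeff_smul]
    congr 1
    unfold t3P
    rw [Finset.smul_sum]
    refine Finset.sum_congr rfl fun i _ => ?_
    rw [t3_toPoly_smul, smul_mul_assoc]

theorem t3M_line (e : ℕ) (l : Fin n) (c h : Tup n d) (z : ℂ) :
    t3M e l (c + z • (h - c)) = t3M e l c + z • t3M e l (h - c) := by
  apply LinearMap.ext
  intro b
  funext a
  show coeff (fexp a.1) (t3P b (c + z • (h - c)))
    = coeff (fexp a.1) (t3P b c) + z * coeff (fexp a.1) (t3P b (h - c))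
  rw [← smul_eq_mul, ← coeff_smul, ← coeff_add]
  congr 1
  unfold t3P
  rw [Finset.smul_sum, ← Finset.sum_add_distrib]
  refine Finset.sum_congr rfl fun i _ => ?_
  rw [t3_toPoly_add, t3_toPoly_smul, mul_add, mul_smul_comm]

/-- the polynomials of anc -/
noncomputable def t3A (m d : ℕ) (i : Fin (m + 2)) : MvPolynomial (Fin (m + 2)) ℂ :=
  if (i : ℕ) = m + 1 then X ⟨m, by omega⟩ ^ d
  else X i * X (Fin.last (m + 1)) ^ (d - 1) -
    (if (i : ℕ) = 0 then 0 else X ⟨(i : ℕ) - 1, lt_of_le_of_lt (Nat.sub_le _ _) i.2⟩ ^ d)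

theorem t3A_hom (hd : 2 ≤ d) (i : Fin (m + 2)) : (t3A m d i).IsHomogeneous d := by
  unfold t3A
  split_ifs with h1 h2
  · exact isHomogeneous_X_pow _ d
  · rw [sub_zero]
    have := (isHomogeneous_X ℂ i).mul (isHomogeneous_X_pow (R := ℂ) (Fin.last (m + 1)) (d - 1))
    rwa [show 1 + (d - 1) = d by omega] at this
  · apply IsHomogeneous.sub
    · have := (isHomogeneous_X ℂ i).mul (isHomogeneous_X_pow (R := ℂ) (Fin.last (m + 1)) (d - 1))
      rwa [show 1 + (d - 1) = d by omega] at this
    · exact isHomogeneous_X_pow _ d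

theorem t3_toPoly_anc (hd : 2 ≤ d) (i : Fin (m + 2)) : toPoly (anc m d) i = t3A m d i :=
  (eq_toPoly' (t3A m d) (fun i => t3A_hom hd i) i).symm

theorem t3_mem1 (hd : 2 ≤ d) (i : ℕ) (hi : i ≤ m) :
    (X ⟨i, by omega⟩ * X (Fin.last (m + 1)) ^ ((i + 1) * (d - 1)) : MvPolynomial (Fin (m + 2)) ℂ)
      ∈ Ideal.span (Set.range (t3A m d)) := by
  induction i with
  | zero =>
    apply Ideal.subset_span
    refine ⟨⟨0, by omega⟩, ?_⟩
    unfold t3A
    rw [if_neg (by simp), if_pos rfl, sub_zero]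
    simp
  | succ i ih =>
    have ih' := ih (by omega)
    have ha : t3A m d ⟨i + 1, by omega⟩ = X ⟨i + 1, by omega⟩ * X (Fin.last (m + 1)) ^ (d - 1)
        - X ⟨i, by omega⟩ ^ d := by
      unfold t3A
      rw [if_neg (by simp; omega), if_neg (by simp)]
      simp
    have hmem : t3A m d ⟨i + 1, by omega⟩ ∈ Ideal.span (Set.range (t3A m d)) :=
      Ideal.subset_span ⟨_, rfl⟩
    have h1 : (X ⟨i + 1, by omega⟩ * X (Fin.last (m + 1)) ^ ((i + 1 + 1) * (d - 1)) :
        MvPolynomial (Fin (m + 2)) ℂ)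
        = X (Fin.last (m + 1)) ^ ((i + 1) * (d - 1)) * t3A m d ⟨i + 1, by omega⟩
          + X ⟨i, by omega⟩ ^ (d - 1) *
            (X ⟨i, by omega⟩ * X (Fin.last (m + 1)) ^ ((i + 1) * (d - 1))) := by
      rw [ha]
      have e1 : (X ⟨i, by omega⟩ : MvPolynomial (Fin (m + 2)) ℂ) ^ d
          = X ⟨i, by omega⟩ ^ (d - 1) * X ⟨i, by omega⟩ := by
        rw [← pow_succ]
        congr 1
        omega
      rw [e1, show (i + 1 + 1) * (d - 1) = (i + 1) * (d - 1) + (d - 1) by ring, pow_add]
      ring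
    rw [h1]
    exact Ideal.add_mem _ (Ideal.mul_mem_left _ _ hmem) (Ideal.mul_mem_left _ _ ih')

theorem t3_mem2 (hd : 2 ≤ d) (j : ℕ) (hj : j ≤ m) :
    ∃ N : ℕ, 0 < N ∧ (X ⟨m - j, by omega⟩ ^ N : MvPolynomial (Fin (m + 2)) ℂ)
      ∈ Ideal.span (Set.range (t3A m d)) := by
  induction j with
  | zero =>
    refine ⟨d, by omega, ?_⟩
    apply Ideal.subset_span
    refine ⟨Fin.last (m + 1), ?_⟩
    unfold t3A
    rw [if_pos (by simp)]
    rfl
  | succ j ih =>
    obtain ⟨N, hN, hmem⟩ := ih (by omega)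
    refine ⟨d * N, by positivity, ?_⟩
    have ha : t3A m d ⟨m - j, by omega⟩ = X ⟨m - j, by omega⟩ * X (Fin.last (m + 1)) ^ (d - 1)
        - X ⟨m - (j + 1), by omega⟩ ^ d := by
      unfold t3A
      rw [if_neg (by simp; omega), if_neg (by simp; omega)]
      congr 3
    have hmem2 : t3A m d ⟨m - j, by omega⟩ ∈ Ideal.span (Set.range (t3A m d)) :=
      Ideal.subset_span ⟨_, rfl⟩
    rw [← Ideal.Quotient.eq_zero_iff_mem] at hmem hmem2 ⊢
    rw [ha, map_sub, sub_eq_zero] at hmem2
    rw [pow_mul, map_pow, ← hmem2, ← map_pow, mul_pow, map_mul, hmem, zero_mul]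

theorem t3_all (hd : 2 ≤ d) : ∃ N : ℕ, ∀ i : Fin (m + 2), i ≠ Fin.last (m + 1) →
    (X i ^ N : MvPolynomial (Fin (m + 2)) ℂ) ∈ Ideal.span (Set.range (t3A m d)) ∧
    (X i * X (Fin.last (m + 1)) ^ N : MvPolynomial (Fin (m + 2)) ℂ)
      ∈ Ideal.span (Set.range (t3A m d)) := by
  classical
  have h2 : ∀ j : Fin (m + 1), ∃ N : ℕ, 0 < N ∧
      (X ⟨m - j, by omega⟩ ^ N : MvPolynomial (Fin (m + 2)) ℂ)
      ∈ Ideal.span (Set.range (t3A m d)) := fun j => t3_mem2 hd j (by omega)
  choose N hN hm using h2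
  refine ⟨(∑ j, N j) + (m + 1) * (d - 1), ?_⟩
  intro i hi
  have hi' : (i : ℕ) ≤ m := by
    have h1 := i.2
    have h2 : (i : ℕ) ≠ m + 1 := by
      intro h
      apply hi
      apply Fin.ext
      simpa using h
    omega
  constructor
  · have h1 := hm ⟨m - i, by omega⟩
    have h3 : (⟨m - (⟨m - (i : ℕ), by omega⟩ : Fin (m + 1)), by omega⟩ : Fin (m + 2)) = i := by
      apply Fin.ext
      simp
      omega
    rw [h3] at h1
    refine Ideal.mem_of_dvd _ (pow_dvd_pow _ ?_) h1
    have := Finset.single_le_sum (f := N) (fun _ _ => Nat.zero_le _)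
      (Finset.mem_univ (⟨m - (i : ℕ), by omega⟩ : Fin (m + 1)))
    omega
  · have h1 := t3_mem1 (m := m) hd i hi'
    refine Ideal.mem_of_dvd _ (mul_dvd_mul (dvd_refl _) (pow_dvd_pow _ ?_)) h1
    have : ((i : ℕ) + 1) * (d - 1) ≤ (m + 1) * (d - 1) := Nat.mul_le_mul_right _ (by omega)
    omega

theorem t3_monomial_eq {k : ℕ} (a : Expo n k) :
    (monomial (fexp a) (1 : ℂ)) = ∏ j, X j ^ (a.1 j : ℕ) := by
  rw [monomial_eq, C_1, one_mul, Finsupp.prod_fintype _ _ (fun j => pow_zero _)]
  rfl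

/-- all monomials of large degree except the power of the last variable -/
theorem t3_monos (hd : 2 ≤ d) : ∃ K : ℕ, ∀ e : ℕ, K ≤ e → ∀ a : Expo (m + 2) (e + d),
    (a.1 (Fin.last (m + 1)) : ℕ) ≠ e + d →
    (monomial (fexp a) (1 : ℂ)) ∈ Ideal.span (Set.range (t3A m d)) := by
  classical
  obtain ⟨N, hN⟩ := t3_all (m := m) (d := d) hd
  refine ⟨N + (m + 2) * N, ?_⟩
  intro e he a ha
  rw [t3_monomial_eq]
  have hsum := a.2
  by_cases hL : N ≤ (a.1 (Fin.last (m + 1)) : ℕ)
  · -- some other variable occurs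
    have hex : ∃ i, i ≠ Fin.last (m + 1) ∧ 1 ≤ (a.1 i : ℕ) := by
      by_contra hcon
      push Not at hcon
      apply ha
      rw [← Finset.add_sum_erase Finset.univ _ (Finset.mem_univ (Fin.last (m + 1)))] at hsum
      have h0 : ∑ j ∈ Finset.univ.erase (Fin.last (m + 1)), (a.1 j : ℕ) = 0 := by
        apply Finset.sum_eq_zero
        intro j hj
        have := hcon j (Finset.ne_of_mem_erase hj)
        omega
      rw [h0] at hsum
      omega
    obtain ⟨i, hi, hi1⟩ := hex
    refine Ideal.mem_of_dvd _ ?_ (hN i hi).2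
    rw [← Finset.mul_prod_erase Finset.univ _ (Finset.mem_univ (Fin.last (m + 1))),
      ← Finset.mul_prod_erase (Finset.univ.erase (Fin.last (m + 1))) _
        (Finset.mem_erase.2 ⟨hi, Finset.mem_univ i⟩), mul_comm (X i) _]
    apply mul_dvd_mul (pow_dvd_pow _ hL)
    apply Dvd.dvd.mul_right
    exact dvd_pow_self _ (by omega)
  · have hex : ∃ i, i ≠ Fin.last (m + 1) ∧ N ≤ (a.1 i : ℕ) := by
      by_contra hcon
      push Not at hcon
      rw [← Finset.add_sum_erase Finset.univ _ (Finset.mem_univ (Fin.last (m + 1)))] at hsum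
      have h0 : ∑ j ∈ Finset.univ.erase (Fin.last (m + 1)), (a.1 j : ℕ)
          ≤ ∑ j ∈ Finset.univ.erase (Fin.last (m + 1)), N := by
        apply Finset.sum_le_sum
        intro j hj
        have := hcon j (Finset.ne_of_mem_erase hj)
        omega
      rw [Finset.sum_const, smul_eq_mul, Finset.card_erase_of_mem (Finset.mem_univ _),
        Finset.card_univ, Fintype.card_fin] at h0
      have h3 : (m + 1 + 1 - 1) * N ≤ (m + 2) * N := Nat.mul_le_mul_right _ (by omega)
      have h4 : (m + 2 - 1) * N ≤ (m + 2) * N := Nat.mul_le_mul_right _ (by omega)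
      omega
    obtain ⟨i, hi, hi1⟩ := hex
    refine Ideal.mem_of_dvd _ ?_ (hN i hi).1
    rw [← Finset.mul_prod_erase Finset.univ _ (Finset.mem_univ i)]
    apply Dvd.dvd.mul_right
    exact pow_dvd_pow _ hi1

theorem t3_coeff_single {k : ℕ} (a a' : Expo n k) :
    coeff (fexp a') (monomial (fexp a) (1 : ℂ)) = if a = a' then 1 else 0 := by
  classical
  rw [coeff_monomial]
  by_cases h : a = a'
  · rw [if_pos h, if_pos (by rw [h])]
  · rw [if_neg h, if_neg (fun h' => h (fexp_inj h'))]

theorem t3_surj_anc (hd : 2 ≤ d) : ∃ K : ℕ, ∀ e : ℕ, K ≤ e →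
    Function.Surjective (t3M e (Fin.last (m + 1)) (anc m d)) := by
  classical
  obtain ⟨K, hK⟩ := t3_monos (m := m) (d := d) hd
  refine ⟨K, fun e he w => ?_⟩
  have hr : Set.range (toPoly (anc m d)) = Set.range (t3A m d) := by
    congr 1
    funext i
    exact t3_toPoly_anc hd i
  have hb : ∀ a : {a : Expo (m + 2) (e + d) // (a.1 (Fin.last (m + 1)) : ℕ) ≠ e + d},
      ∃ b : Tup (m + 2) e, t3P b (anc m d) = monomial (fexp a.1) (1 : ℂ) := by
    intro a
    apply t3_mem
    · rw [hr]
      exact hK e he a.1 a.2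
    · apply isHomogeneous_monomial
      rw [Finsupp.degree_eq_sum]
      simpa [fexp] using a.1.2
  choose b hb' using hb
  refine ⟨∑ a, w a • b a, ?_⟩
  rw [map_sum]
  funext a'
  rw [Finset.sum_apply]
  have h1 : ∀ a, (t3M e (Fin.last (m + 1)) (anc m d)) (w a • b a) a'
      = if a = a' then w a else 0 := by
    intro a
    rw [map_smul, Pi.smul_apply]
    show w a • coeff (fexp a'.1) (t3P (b a) (anc m d)) = _
    rw [hb' a, t3_coeff_single, smul_eq_mul]
    by_cases h : a = a'
    · rw [if_pos h, if_pos (by rw [h]), mul_one]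
    · rw [if_neg h, if_neg (fun h' => h (Subtype.ext h')), mul_zero]
  simp only [h1]
  simp

theorem t3_two {n : ℕ} (f : Fin n → ℕ) (l j : Fin n) (h : j ≠ l) : f l + f j ≤ ∑ i, f i := by
  rw [← Finset.add_sum_erase Finset.univ f (Finset.mem_univ l)]
  exact Nat.add_le_add_left (Finset.single_le_sum (f := f) (fun _ _ => Nat.zero_le _)
    (Finset.mem_erase.2 ⟨h, Finset.mem_univ j⟩)) _

theorem t3_eval_eL {k : ℕ} (F : MvPolynomial (Fin (m + 2)) ℂ) (hF : F.IsHomogeneous k)
    (a : Expo (m + 2) k) (ha : (a.1 (Fin.last (m + 1)) : ℕ) = k) :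
    eval (eL m) F = coeff (fexp a) F := by
  have h1 : ev (ofPoly (fun _ => F) : Tup (m + 2) k) (eL m) 0 = eval (eL m) F :=
    ev_ofPoly (fun _ => F) (fun _ => hF) (eL m) 0
  rw [← h1]
  unfold ev ofPoly
  rw [Finset.sum_eq_single a]
  · have : ∏ j, eL m j ^ (a.1 j : ℕ) = 1 := by
      apply Finset.prod_eq_one
      intro j _
      by_cases hj : j = Fin.last (m + 1)
      · rw [hj]; simp [eL]
      · have h0 : (a.1 j : ℕ) = 0 := by
          have hs := a.2
          have h2 := t3_two (fun j => (a.1 j : ℕ)) (Fin.last (m + 1)) j hj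
          omega
        rw [h0, pow_zero]
    rw [this, mul_one]
  · intro b _ hb
    have hex : ∃ j, j ≠ Fin.last (m + 1) ∧ (b.1 j : ℕ) ≠ 0 := by
      by_contra hcon
      push Not at hcon
      apply hb
      apply Subtype.ext
      funext j
      apply Fin.ext
      have hsum : ∀ c : Expo (m + 2) k, (c.1 (Fin.last (m + 1)) : ℕ) +
          ∑ j ∈ Finset.univ.erase (Fin.last (m + 1)), (c.1 j : ℕ) = k := by
        intro c
        have hs := c.2
        rwa [← Finset.add_sum_erase Finset.univ _ (Finset.mem_univ (Fin.last (m + 1)))] at hs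
      have hb0 : ∑ j ∈ Finset.univ.erase (Fin.last (m + 1)), (b.1 j : ℕ) = 0 := by
        apply Finset.sum_eq_zero
        intro j hj
        exact hcon j (Finset.ne_of_mem_erase hj)
      have hb1 := hsum b
      have ha1 := hsum a
      by_cases hj : j = Fin.last (m + 1)
      · rw [hj]
        omega
      · rw [hcon j hj]
        have hs := a.2
        have h2 := t3_two (fun j => (a.1 j : ℕ)) (Fin.last (m + 1)) j hj
        omega
    obtain ⟨j, hj, hj0⟩ := hex
    have : ∏ j, eL m j ^ (b.1 j : ℕ) = 0 := by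
      apply Finset.prod_eq_zero (Finset.mem_univ j)
      simp [eL, hj, hj0]
    rw [this, mul_zero]
  · intro h
    exact absurd (Finset.mem_univ a) h

/-- the exponent of the pure power -/
noncomputable def t3top (m k : ℕ) : Expo (m + 2) k :=
  ⟨fun j => if j = Fin.last (m + 1) then Fin.last k else 0, by
    rw [Finset.sum_eq_single (Fin.last (m + 1))]
    · simp
    · intro j _ hj
      simp [hj]
    · intro h
      exact absurd (Finset.mem_univ _) h⟩

/-- solving for a given form -/
theorem t3_solve {e : ℕ} (c : Tup (m + 2) d) (hc : ev c (eL m) = 0)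
    (hs : Function.Surjective (t3M e (Fin.last (m + 1)) c))
    (F : MvPolynomial (Fin (m + 2)) ℂ) (hF : F.IsHomogeneous (e + d)) (hF0 : eval (eL m) F = 0) :
    ∃ b : Tup (m + 2) e, t3P b c = F := by
  classical
  obtain ⟨b, hb⟩ := hs (fun a => coeff (fexp a.1) F)
  refine ⟨b, ?_⟩
  have h1 : ∀ a : Expo (m + 2) (e + d), coeff (fexp a) (t3P b c) = coeff (fexp a) F := by
    intro a
    by_cases ha : (a.1 (Fin.last (m + 1)) : ℕ) = e + d
    · rw [← t3_eval_eL _ (t3P_hom b c) a ha, ← t3_eval_eL _ hF a ha, hF0, t3P_eval]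
      apply Finset.sum_eq_zero
      intro i _
      rw [hc]
      simp
    · exact congrFun hb ⟨a, ha⟩
  have h2 := eq_toPoly' (n := m + 2) (d := e + d) (fun _ => t3P b c) (fun _ => t3P_hom b c) 0
  have h3 := eq_toPoly' (n := m + 2) (d := e + d) (fun _ => F) (fun _ => hF) 0
  try simp only at h2 h3
  rw [h2, h3]
  unfold toPoly ofPoly
  refine Finset.sum_congr rfl fun a _ => ?_
  rw [h1 a]

theorem t3_good {e : ℕ} (he : 1 ≤ e + d) (c : Tup (m + 2) d) (hc : ev c (eL m) = 0)
    (hs : Function.Surjective (t3M e (Fin.last (m + 1)) c)) :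
    (∀ y : Vec (m + 2), ev c y = 0 → ∃ a : ℂ, y = a • eL m) ∧
      (∀ y : Vec (m + 2), fderiv ℂ (ev c) (eL m) y = 0 → ∃ a : ℂ, y = a • eL m) := by
  classical
  have hfin : ∀ y : Vec (m + 2), (∀ i, i ≠ Fin.last (m + 1) → y i = 0) → ∃ a : ℂ, y = a • eL m := by
    intro y hy
    refine ⟨y (Fin.last (m + 1)), ?_⟩
    funext i
    by_cases hi : i = Fin.last (m + 1)
    · rw [hi]; simp [eL]
    · rw [hy i hi]; simp [eL, hi]
  constructor
  · intro y hy
    apply hfin
    intro i hi
    obtain ⟨b, hb⟩ := t3_solve (e := e) c hc hs (X i ^ (e + d)) (isHomogeneous_X_pow i (e + d)) (by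
      rw [map_pow, eval_X]
      simp [eL, hi]
      omega)
    have h1 := t3P_eval b c y
    rw [hb, map_pow, eval_X] at h1
    have h2 : ∑ i, ev b y i * ev c y i = 0 := by
      apply Finset.sum_eq_zero
      intro j _
      rw [hy]
      simp
    rw [h2] at h1
    exact pow_eq_zero_iff (by omega) |>.1 h1
  · intro y hy
    apply hfin
    intro i hi
    obtain ⟨b, hb⟩ := t3_solve (e := e) c hc hs (X i * X (Fin.last (m + 1)) ^ (e + d - 1)) (by
      have := (isHomogeneous_X ℂ i).mul
        (isHomogeneous_X_pow (R := ℂ) (Fin.last (m + 1)) (e + d - 1))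
      rwa [show 1 + (e + d - 1) = e + d by omega] at this) (by
      rw [map_mul, eval_X]
      simp [eL, hi])
    have hline : HasDerivAt (fun t : ℂ => eL m + t • y) y 0 := by
      have h1 : HasDerivAt (fun t : ℂ => t • y) ((1:ℂ) • y) 0 := (hasDerivAt_id (0:ℂ)).smul_const y
      rw [one_smul] at h1
      exact h1.const_add (eL m)
    have hz : eL m + (0:ℂ) • y = eL m := by rw [zero_smul, add_zero]
    have hgen : ∀ {k : ℕ} (c' : Tup (m + 2) k),
        HasDerivAt (fun t : ℂ => ev c' (eL m + t • y)) (fderiv ℂ (ev c') (eL m) y) 0 := by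
      intro k c'
      have h1 : HasFDerivAt (ev c') (fderiv ℂ (ev c') (eL m)) (eL m + (0:ℂ) • y) := by
        rw [hz]
        exact (differentiable_ev c' (eL m)).hasFDerivAt
      exact h1.comp_hasDerivAt (0:ℂ) hline
    have hcD := hgen c
    have hbD := hgen b
    rw [hy] at hcD
    rw [hasDerivAt_pi] at hcD hbD
    have hsum : HasDerivAt (fun t : ℂ => ∑ j, ev b (eL m + t • y) j * ev c (eL m + t • y) j) 0 0 := by
      have h1 : HasDerivAt (fun t : ℂ => ∑ j, ev b (eL m + t • y) j * ev c (eL m + t • y) j)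
          (∑ j, ((fderiv ℂ (ev b) (eL m) y) j * ev c (eL m + (0:ℂ) • y) j
            + ev b (eL m + (0:ℂ) • y) j * (0 : Vec (m + 2)) j)) 0 := by
        apply HasDerivAt.fun_sum
        intro j _
        exact (hbD j).mul (hcD j)
      have h2 : (∑ j, ((fderiv ℂ (ev b) (eL m) y) j * ev c (eL m + (0:ℂ) • y) j
            + ev b (eL m + (0:ℂ) • y) j * (0 : Vec (m + 2)) j)) = 0 := by
        apply Finset.sum_eq_zero
        intro j _
        rw [hz, hc]
        simp
      rw [h2] at h1
      exact h1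
    have hfun : (fun t : ℂ => ∑ j, ev b (eL m + t • y) j * ev c (eL m + t • y) j)
        = fun t : ℂ => (t * y i) * (1 + t * y (Fin.last (m + 1))) ^ (e + d - 1) := by
      funext t
      rw [← t3P_eval, hb, map_mul, map_pow, eval_X, eval_X]
      simp [eL, hi]
    rw [hfun] at hsum
    have hother : HasDerivAt (fun t : ℂ => (t * y i) * (1 + t * y (Fin.last (m + 1))) ^ (e + d - 1))
        (y i) 0 := by
      have h1 : HasDerivAt (fun t : ℂ => t * y i) (y i) 0 := by
        have := (hasDerivAt_id (0:ℂ)).mul_const (y i)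
        rwa [one_mul] at this
      have h2 : DifferentiableAt ℂ (fun t : ℂ => (1 + t * y (Fin.last (m + 1))) ^ (e + d - 1)) 0 := by
        fun_prop
      have h3 := h1.mul h2.hasDerivAt
      have h4 : y i * (1 + (0:ℂ) * y (Fin.last (m + 1))) ^ (e + d - 1)
          + (0:ℂ) * y i * deriv (fun t : ℂ => (1 + t * y (Fin.last (m + 1))) ^ (e + d - 1)) 0
          = y i := by simp
      rw [h4] at h3
      exact h3
    exact hother.unique hsum

theorem t3_anc_eL (hd : 2 ≤ d) : ev (anc m d) (eL m) = 0 := by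
  funext i
  have h := eval_toPoly (anc m d) i (eL m)
  rw [← h, t3_toPoly_anc hd i]
  unfold t3A
  have hne : (⟨m, by omega⟩ : Fin (m + 2)) ≠ Fin.last (m + 1) := by
    intro h
    have := congrArg Fin.val h
    simp at this
  split_ifs with h1 h2
  · rw [map_pow, eval_X]
    simp [eL, hne]
    omega
  · have hi : i ≠ Fin.last (m + 1) := by
      intro h
      apply h1
      rw [h]
      simp
    simp [eL, hi]
  · have hi : i ≠ Fin.last (m + 1) := by
      intro h
      apply h1
      rw [h]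
      simp
    have hi2 : (⟨(i : ℕ) - 1, lt_of_le_of_lt (Nat.sub_le _ _) i.2⟩ : Fin (m + 2))
        ≠ Fin.last (m + 1) := by
      intro h
      have := congrArg Fin.val h
      simp at this
      have := i.2
      omega
    simp [eL, hi, hi2]
    omega

/-- on the complex line from `anc` to `h` (both vanish at `eL`) all but finitely many tuples have
`eL` as their only zero, and it is simple -/
theorem anc_line (hF : FiniteNotSurjStmt) (hd : 2 ≤ d) (h : Tup (m + 2) d) (hh : ev h (eL m) = 0) :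
    {z : ℂ | ¬ ((∀ y : Vec (m + 2), ev (anc m d + z • (h - anc m d)) y = 0 → ∃ a : ℂ, y = a • eL m) ∧
      (∀ y : Vec (m + 2), fderiv ℂ (ev (anc m d + z • (h - anc m d))) (eL m) y = 0 →
        ∃ a : ℂ, y = a • eL m))}.Finite := by
  classical
  obtain ⟨K, hK⟩ := t3_surj_anc (m := m) (d := d) hd
  have hsur := hK K le_rfl
  have hfin := hF _ _ (t3M K (Fin.last (m + 1)) (anc m d))
    (t3M K (Fin.last (m + 1)) (h - anc m d)) hsur
  refine hfin.subset ?_
  intro z hz hsz
  apply hz
  rw [← t3M_line] at hsz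
  apply t3_good (e := K) (by omega) _ _ hsz
  rw [ev_add, ev_smul, ev_sub, hh, t3_anc_eL hd]
  simp


end

end Pool.Agent.Helper819.PiOne
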